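import Pool.Agent.Gr2.Cyc
import Pool.Agent.Uhy.Asm
import Pool.Agent.LgpF.Main

/-!
# Tame profinite integers and the alternative, with rank two
-/

namespace Pool.Agent.Gr2

open Pool.Agent.CTm Pool.Agent.Grm Pool.Agent.Lgp Filter Nat
open Pool.Agent.LgpE (FinKey)
open Pool.Agent.Lgo (BigImage)
open Pool.Agent.Uhy (AlmPer UniStab HypPt Gd clo_trans clo_refl exists_almPer almPer_of_clo
  gd_of_good gd_of_uni gd_of_hyp growth_of_gd gd_zero)

/-- `y` is tame: one of seven conditions on the germs near `y` of the elements of the group `H` generated by `S` -/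
def Tame (S : Finset (Equiv.Perm ℤ)) (y : ℕ → ℤ) : Prop :=
  LocAb (Subgroup.closure (S : Set (Equiv.Perm ℤ))) y ∨
    UniStab (Subgroup.closure (S : Set (Equiv.Perm ℤ))) y ∨
    (∃ k : ℕ, 2 ≤ k ∧ FinKey k (Subgroup.closure (S : Set (Equiv.Perm ℤ))) y) ∨
    (∃ l : ℕ, 1 < l ∧ CyclicSlopes (Subgroup.closure (S : Set (Equiv.Perm ℤ))) l y) ∨
    TwoSlopes (Subgroup.closure (S : Set (Equiv.Perm ℤ))) y ∨
    BigImage (Subgroup.closure (S : Set (Equiv.Perm ℤ))) y ∨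
    ∃ m : ℕ, 2 ≤ m ∧ Squarefree m ∧ (∀ s ∈ S, SlopeUnit m s) ∧
      HypPt m (Subgroup.closure (S : Set (Equiv.Perm ℤ))) y

/-- the alternative -/
theorem tame_alt (S : Finset (Equiv.Perm ℤ)) (hS : ∀ s ∈ S, s ∈ CT)
    (h : ∀ x : ℕ → ℤ, Pro x → AlmPer (Subgroup.closure (S : Set (Equiv.Perm ℤ))) x →
      ∃ y : ℕ → ℤ, Pro y ∧ Clo (Subgroup.closure (S : Set (Equiv.Perm ℤ))) x y ∧ Tame S y) :
    (∃ C d : ℕ, ∀ n : ℕ, 1 ≤ n → growth (S : Set (Equiv.Perm ℤ)) n ≤ C * n ^ d) ∨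
      ∃ c : ℝ, 1 < c ∧ ∀ᶠ n : ℕ in atTop, c ^ n ≤ growth (S : Set (Equiv.Perm ℤ)) n := by
  by_cases hexp : ∃ c : ℝ, 1 < c ∧ ∀ᶠ n : ℕ in atTop, c ^ n ≤ growth (S : Set (Equiv.Perm ℤ)) n
  · exact Or.inr hexp
  left
  refine growth_of_gd S (gd_zero S fun x₀ hx₀ => ?_)
  set H := Subgroup.closure (S : Set (Equiv.Perm ℤ)) with hH
  have hHCT : H ≤ CT := (Subgroup.closure_le _).2 fun s hs => hS s hs
  obtain ⟨x, hx, hx0x, hap⟩ := exists_almPer S hS hx₀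
  obtain ⟨y, hy, hxy, ht⟩ := h x hx hap
  have hxy' : Clo H x₀ y := clo_trans hx hx0x hxy
  have hapy : AlmPer H y := almPer_of_clo hHCT hx hy hap hxy
  have hloc : ∀ z : ℕ → ℤ, Pro z → Clo H y z → LocAb H z → ∃ i : ℕ, Gd S (x₀ i) i := by
    intro z hz hyz h3
    obtain ⟨i, hi⟩ := Pool.Agent.Lgp.good_of_locAb hexp hz (clo_trans hy hxy' hyz) h3
    exact ⟨i, gd_of_good S hi⟩
  rcases ht with h1 | h1 | ⟨k, hk, h1⟩ | ⟨l, hl, h1⟩ | h1 | h1 | ⟨m, hm, hsq, hU, h1⟩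
  · exact hloc y hy (clo_refl y) h1
  · exact gd_of_uni S hS hexp hy hxy' hapy h1
  · exact hloc y hy (clo_refl y) (Pool.Agent.LgpF.locAb_of_finKey S hS hy hapy hk h1)
  · obtain ⟨z, hz, hyz, h3⟩ := locAb_of_cyclic S hS hexp hy (lam := (l : ℚ)) (by exact_mod_cast hl) h1
      (Or.inl (Rat.den_natCast l))
    exact hloc z hz hyz h3
  · obtain ⟨z, hz, hyz, h3⟩ := locAb_of_twoSlopes S hS hexp hy hapy h1
    exact hloc z hz hyz h3
  · exact hloc y hy (clo_refl y) (Pool.Agent.Lgo.locAb_of_bigImage_almPer S hS hexp hy hapy h1)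
  · exact gd_of_hyp hm hsq S hS hU hexp hy hxy' h1

/-- the earlier third condition is contained in the third and the fourth -/
theorem tame_of_slIn {S : Finset (Equiv.Perm ℤ)} {y : ℕ → ℤ} {m₁ m₂ : ℕ} {F : Finset ℚ} (hm₁ : 1 ≤ m₁)
    (hm₂ : 1 ≤ m₂) (h1 : Pool.Agent.LgpE.SlIn F m₁ m₂ (Subgroup.closure (S : Set (Equiv.Perm ℤ))) y)
    (h2 : FinKey m₁ (Subgroup.closure (S : Set (Equiv.Perm ℤ))) y) : Tame S y := by
  rcases Nat.lt_or_ge m₁ 2 with h | h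
  · obtain rfl : m₁ = 1 := by omega
    right; right; right; left
    rcases Nat.lt_or_ge m₂ 2 with h' | h'
    · obtain rfl : m₂ = 1 := by omega
      refine ⟨2, by norm_num, F, fun g hg a ha => ?_⟩
      obtain ⟨f, hf, u, v, e, k, hu, hv, h3⟩ := h1 g hg a ha
      rw [one_pow, Nat.dvd_one] at hu hv
      subst hu hv
      refine ⟨f, hf, 0, ?_⟩
      simpa using h3
    · refine ⟨m₂, h', F, fun g hg a ha => ?_⟩
      obtain ⟨f, hf, u, v, e, k, hu, hv, h3⟩ := h1 g hg a ha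
      rw [one_pow, Nat.dvd_one] at hu hv
      subst hu hv
      refine ⟨f, hf, k, ?_⟩
      simpa using h3
  · exact Or.inr (Or.inr (Or.inl ⟨m₁, h, h2⟩))

end Pool.Agent.Gr2
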