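import Pool.Agent.Gr2.End
import Pool.Agent.Lgq.Two

/-!
# Slopes in finitely many cosets of a cyclic group
-/

namespace Pool.Agent.Gr2

open Pool.Agent.CTm Pool.Agent.Grm Pool.Agent.Lgp Filter Nat Topology
open Pool.Agent.Lgq (NoCup)

/-- a slope at a point of the closure of the orbit is a quotient of slopes -/
theorem slope_clo {S : Finset (Equiv.Perm ℤ)} (hS : ∀ s ∈ S, s ∈ CT) {y : ℕ → ℤ} (hy : Pro y)
    {z : ℕ → ℤ} (hyz : Clo (Subgroup.closure (S : Set (Equiv.Perm ℤ))) y z) {g : Equiv.Perm ℤ}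
    (hg : g ∈ Subgroup.closure (S : Set (Equiv.Perm ℤ))) {c : ℚ × ℚ} (hc : Germ z g c) :
    ∃ h ∈ Subgroup.closure (S : Set (Equiv.Perm ℤ)), ∃ h' ∈ Subgroup.closure (S : Set (Equiv.Perm ℤ)),
      ∃ a a' : ℚ × ℚ, 0 < a.1 ∧ Germ y h a ∧ Germ y h' a' ∧ a'.1 = c.1 * a.1 := by
  obtain ⟨M, A, hd⟩ := Pool.Agent.Grm.exists_data S hS
  obtain ⟨j, hj⟩ := hc
  obtain ⟨h, hh, i, hi⟩ := hyz j
  obtain ⟨a, ha0, ha⟩ := exists_germ hd hy hh
  refine ⟨h, hh, g * h, mul_mem hg hh, a, (c.1 * a.1, c.1 * a.2 + c.2), ha0, ha, ?_, rfl⟩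
  obtain ⟨i', hi'⟩ := ha
  refine ⟨max i i', fun n hn => ?_⟩
  have h1 := hi n (pro_deep hy (le_max_left _ _) hn)
  have h2 := hi' n (pro_deep hy (le_max_right _ _) hn)
  have h3 := hj (h n) h1
  rw [Equiv.Perm.mul_apply, h3, h2]
  simp only
  ring

theorem lam_cast {lam : ℚ} (hlam : 0 < lam) : ((lam.num.natAbs : ℕ) : ℚ) / (lam.den : ℕ) = lam := by
  have hnum : (0 : ℤ) < lam.num := Rat.num_pos.2 hlam
  have hnum' : ((lam.num.natAbs : ℕ) : ℚ) = lam.num := by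
    have h2 : ((lam.num.natAbs : ℕ) : ℤ) = lam.num := Int.natAbs_of_nonneg hnum.le
    have h4 : (((lam.num.natAbs : ℕ) : ℤ) : ℚ) = lam.num := congrArg (fun z : ℤ => (z : ℚ)) h2
    simpa using h4
  rw [hnum']
  exact Rat.num_div_den lam

/-- slopes in finitely many cosets of a cyclic group, without caps or without cups -/
theorem twoSlopes_of_cyclic {S : Finset (Equiv.Perm ℤ)} (hS : ∀ s ∈ S, s ∈ CT) {y : ℕ → ℤ} (hy : Pro y)
    {lam : ℚ} (hlam : 1 < lam) (h : CyclicSlopes (Subgroup.closure (S : Set (Equiv.Perm ℤ))) lam y)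
    (h' : NoCap (Subgroup.closure (S : Set (Equiv.Perm ℤ))) y ∨
      NoCup (Subgroup.closure (S : Set (Equiv.Perm ℤ))) y) :
    TwoSlopes (Subgroup.closure (S : Set (Equiv.Perm ℤ))) y := by
  classical
  obtain ⟨F, hF⟩ := h
  obtain ⟨M, A, hd⟩ := Pool.Agent.Grm.exists_data S hS
  have hlam0 : 0 < lam := by linarith
  set a : ℕ := lam.num.natAbs with ha
  have hden : (0 : ℚ) < lam.den := by exact_mod_cast lam.den_pos
  have hab := lam_cast hlam0
  rw [← ha] at hab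
  have halt : lam.den < a := by
    have h1 : (lam.den : ℚ) < a := by
      rw [← hab, one_lt_div hden] at hlam
      exact hlam
    exact_mod_cast h1
  have ha2 : 2 ≤ a := by have := lam.den_pos; omega
  have ha0 : 0 < a := by omega
  have haq : (a : ℚ) ≠ 0 := by exact_mod_cast ha0.ne'
  set b : ℕ := if lam.den = 1 then a + 1 else lam.den with hb
  have hb2 : 2 ≤ b := by
    rw [hb]
    split_ifs with h1
    · omega
    · have := lam.den_pos
      omega
  have hcop : Nat.Coprime a b := by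
    rw [hb]
    split_ifs with h1
    · simp
    · exact lam.reduced
  have hpow : ∀ k : ℤ, ∃ j : ℤ, lam ^ k = (a : ℚ) ^ k * (b : ℚ) ^ j := by
    intro k
    rw [hb]
    split_ifs with h1
    · refine ⟨0, ?_⟩
      rw [zpow_zero, mul_one, ← hab, h1, Nat.cast_one, div_one]
    · refine ⟨-k, ?_⟩
      conv_lhs => rw [← hab]
      rw [div_zpow, zpow_neg, div_eq_mul_inv]
  have hpp : (a.minFac).Prime := Nat.minFac_prime (by omega)
  have hpa : a.minFac ∣ a := Nat.minFac_dvd a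
  have hb0 : 0 < b := by omega
  -- positive representatives and their quotients
  set Fp : Finset ℚ := F.filter fun f => 0 < f with hFp
  have hFp1 : ∀ g ∈ Subgroup.closure (S : Set (Equiv.Perm ℤ)), ∀ c : ℚ × ℚ, Germ y g c → 0 < c.1 →
      ∃ f ∈ Fp, ∃ k : ℤ, c.1 = f * lam ^ k := by
    intro g hg c hc hc0
    obtain ⟨f, hf, k, hk⟩ := hF g hg c hc
    refine ⟨f, Finset.mem_filter.2 ⟨hf, ?_⟩, k, hk⟩
    rw [hk] at hc0
    exact (pos_iff_pos_of_mul_pos hc0).2 (zpow_pos hlam0 k)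
  set F2 : Finset ℚ := (Fp ×ˢ Fp).image (fun c => c.1 / c.2) with hF2
  have hF2p : ∀ f ∈ F2, 0 < f := by
    intro f hf
    obtain ⟨c, hc, rfl⟩ := Finset.mem_image.1 hf
    obtain ⟨h1, h2⟩ := Finset.mem_product.1 hc
    exact div_pos (Finset.mem_filter.1 h1).2 (Finset.mem_filter.1 h2).2
  have hz : ∀ z : ℕ → ℤ, Clo (Subgroup.closure (S : Set (Equiv.Perm ℤ))) y z →
      ∀ g ∈ Subgroup.closure (S : Set (Equiv.Perm ℤ)), ∀ c : ℚ × ℚ, Germ z g c → 0 < c.1 →
      ∃ f ∈ F2, ∃ k : ℤ, c.1 = f * lam ^ k := by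
    intro z hyz g hg c hc hc0
    obtain ⟨g1, hg1, g2, hg2, c1, c2, hc1, h1, h2, h3⟩ := slope_clo hS hy hyz hg hc
    obtain ⟨f1, hf1, k1, hk1⟩ := hFp1 g1 hg1 c1 h1 hc1
    obtain ⟨f2, hf2, k2, hk2⟩ := hFp1 g2 hg2 c2 h2 (by rw [h3]; exact mul_pos hc0 hc1)
    refine ⟨f2 / f1, Finset.mem_image.2 ⟨(f2, f1), Finset.mem_product.2 ⟨hf2, hf1⟩, rfl⟩, k2 - k1, ?_⟩
    have hf0 : f1 ≠ 0 := (Finset.mem_filter.1 hf1).2.ne'
    have hk0 : lam ^ k1 ≠ 0 := zpow_ne_zero _ hlam0.ne'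
    rw [hk2, hk1] at h3
    rw [zpow_sub₀ hlam0.ne']
    field_simp
    linear_combination -h3
  -- the valuations
  have hval : ∀ f ∈ F2, ∀ k : ℤ, padicValRat a.minFac (f * lam ^ k) =
      padicValRat a.minFac f + k * (padicValNat a.minFac a : ℤ) ∧ 1 ≤ padicValNat a.minFac a := by
    intro f hf k
    obtain ⟨j, hj⟩ := hpow k
    rw [hj, ← mul_assoc]
    exact val_a hpp hpa ha0 hb0 hcop (hF2p f hf) k j
  obtain ⟨D, hD⟩ : ∃ D : ℕ, ∀ f ∈ F2, |padicValRat a.minFac f| ≤ D := by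
    refine ⟨F2.sup fun f => (padicValRat a.minFac f).natAbs, fun f hf => ?_⟩
    have h1 : (padicValRat a.minFac f).natAbs ≤ F2.sup fun f => (padicValRat a.minFac f).natAbs :=
      Finset.le_sup (f := fun f => (padicValRat a.minFac f).natAbs) hf
    rw [← Int.natCast_natAbs]
    exact_mod_cast h1
  refine ⟨a, b, a.minFac, F, ha0, hb2, hcop, hpp, hpa, ?_, ?_⟩
  · intro g hg c hc
    obtain ⟨f, hf, k, hk⟩ := hF g hg c hc
    obtain ⟨j, hj⟩ := hpow k
    exact ⟨f, hf, k, j, by rw [hk, hj, mul_assoc]⟩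
  · obtain ⟨B, hB, hB'⟩ := fin_bound F2 hF2p
    rcases h' with h1 | h1
    · left
      intro z hzp hyz C
      -- the exponent
      set k0 : ℕ := (C + D).toNat with hk0
      obtain ⟨g, hg, c, hc, hle⟩ := h1 z hzp hyz (B * lam ^ k0)
      have hB0 : 0 < B := by linarith
      have hc0 : 0 < c.1 := lt_of_lt_of_le (mul_pos hB0 (pow_pos hlam0 _)) hle
      obtain ⟨f, hf, k, hk⟩ := hz z hyz g hg c hc hc0
      refine ⟨g, hg, c, hc, ?_⟩
      obtain ⟨e1, e2⟩ := hval f hf k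
      rw [hk, e1]
      have h2 : (k0 : ℤ) ≤ k := by
        by_contra hlt
        have h3 : lam ^ k < lam ^ (k0 : ℤ) := zpow_lt_zpow_right₀ hlam (by omega)
        rw [zpow_natCast] at h3
        rw [hk] at hle
        have h4 : f * lam ^ k ≤ B * lam ^ k :=
          mul_le_mul_of_nonneg_right (hB' f hf).1 (zpow_nonneg hlam0.le _)
        have h5 : B * lam ^ k < B * lam ^ k0 := mul_lt_mul_of_pos_left h3 hB0
        linarith
      have h3 := (abs_le.1 (hD f hf)).1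
      have h4 : (C + D : ℤ) ≤ k0 := by rw [hk0]; exact Int.self_le_toNat _
      have h5 : (k0 : ℤ) ≤ k * (padicValNat a.minFac a : ℤ) := by
        have h6 : (1 : ℤ) ≤ (padicValNat a.minFac a : ℤ) := by exact_mod_cast e2
        have h7 : (0 : ℤ) ≤ k0 := Int.natCast_nonneg _
        nlinarith
      linarith
    · right
      intro z hzp hyz C
      set k0 : ℕ := (D - C).toNat with hk0
      have hB0 : 0 < B := by linarith
      have hpos : 0 < (B * lam ^ k0)⁻¹ := inv_pos.2 (mul_pos hB0 (pow_pos hlam0 _))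
      obtain ⟨g, hg, c, hc, hle⟩ := h1 z hzp hyz _ hpos
      obtain ⟨c', hc'0, hc'⟩ := exists_germ hd hzp hg
      have hc0 : 0 < c.1 := by rw [hc.unique hzp hc']; exact hc'0
      obtain ⟨f, hf, k, hk⟩ := hz z hyz g hg c hc hc0
      refine ⟨g, hg, c, hc, ?_⟩
      obtain ⟨e1, e2⟩ := hval f hf k
      rw [hk, e1]
      have h2 : k ≤ -(k0 : ℤ) := by
        by_contra hlt
        have h3 : lam ^ (-(k0 : ℤ)) < lam ^ k := zpow_lt_zpow_right₀ hlam (by omega)
        rw [zpow_neg, zpow_natCast] at h3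
        rw [hk, mul_inv] at hle
        have h4 : B⁻¹ * lam ^ k ≤ f * lam ^ k :=
          mul_le_mul_of_nonneg_right (hB' f hf).2 (zpow_nonneg hlam0.le _)
        have h5 : B⁻¹ * (lam ^ k0)⁻¹ < B⁻¹ * lam ^ k := mul_lt_mul_of_pos_left h3 (inv_pos.2 hB0)
        linarith
      have h3 := (abs_le.1 (hD f hf)).2
      have h4 : (D - C : ℤ) ≤ k0 := by rw [hk0]; exact Int.self_le_toNat _
      have h5 : k * (padicValNat a.minFac a : ℤ) ≤ -(k0 : ℤ) := by
        have h6 : (1 : ℤ) ≤ (padicValNat a.minFac a : ℤ) := by exact_mod_cast e2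
        have h7 : (0 : ℤ) ≤ k0 := Int.natCast_nonneg _
        nlinarith
      linarith

end Pool.Agent.Gr2
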