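import Pool.Agent.Gr2.Ht
import Pool.Agent.Uhy.Quot

/-!
# The growth of the germ group in rank two
-/

namespace Pool.Agent.Gr2

open Pool.Agent.CTm Pool.Agent.Grm Pool.Agent.Lgp Filter Nat Topology
open Pool.Agent.Lgq (Win psi eta phir gr BF LtF nxt mem_BF mem_LtF)

-- BEGIN gw1
/-- a cheap level: among `m` consecutive levels one is crossed by at most the average number of edges -/
theorem slab {α β : Type*} (F0 : Finset β) (Lt : Finset α) (next : β → α → β) (ℓ : β → ℤ) {C1 : ℕ}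
    (hlip : ∀ x ∈ F0, ∀ s ∈ Lt, |ℓ (next x s) - ℓ x| ≤ C1) (i0 : ℤ) {m : ℕ} (hm : 1 ≤ m) :
    ∃ t : ℤ, i0 < t ∧ t ≤ i0 + m ∧
      m * ((F0 ×ˢ Lt).filter fun e => (ℓ e.1 < t ∧ t ≤ ℓ (next e.1 e.2)) ∨
        (t ≤ ℓ e.1 ∧ ℓ (next e.1 e.2) < t)).card ≤ C1 * F0.card * Lt.card := by
  by_contra hno
  push Not at hno
  have hsum : ∑ t ∈ Finset.Ioc i0 (i0 + m), ((F0 ×ˢ Lt).filter fun e =>
      (ℓ e.1 < t ∧ t ≤ ℓ (next e.1 e.2)) ∨ (t ≤ ℓ e.1 ∧ ℓ (next e.1 e.2) < t)).card ≤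
      C1 * F0.card * Lt.card := by
    simp only [Finset.card_filter]
    rw [Finset.sum_comm]
    have h1 : ∀ e ∈ F0 ×ˢ Lt, (∑ t ∈ Finset.Ioc i0 (i0 + m),
        if (ℓ e.1 < t ∧ t ≤ ℓ (next e.1 e.2)) ∨ (t ≤ ℓ e.1 ∧ ℓ (next e.1 e.2) < t) then 1 else 0) ≤
        C1 := by
      intro e he
      obtain ⟨he1, he2⟩ := Finset.mem_product.1 he
      have h2 := hlip e.1 he1 e.2 he2
      rw [abs_le] at h2
      rw [← Finset.card_filter]
      calc _ ≤ (Finset.Ioc (min (ℓ e.1) (ℓ (next e.1 e.2))) (max (ℓ e.1) (ℓ (next e.1 e.2)))).card := by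
            refine Finset.card_le_card fun t ht => ?_
            rw [Finset.mem_filter] at ht
            rw [Finset.mem_Ioc]
            rcases ht.2 with h | h
            · exact ⟨lt_of_le_of_lt (min_le_left _ _) h.1, le_trans h.2 (le_max_right _ _)⟩
            · exact ⟨lt_of_le_of_lt (min_le_right _ _) h.2, le_trans h.1 (le_max_left _ _)⟩
        _ ≤ C1 := by
            rw [Int.card_Ioc]
            rcases le_total (ℓ e.1) (ℓ (next e.1 e.2)) with h | h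
            · rw [min_eq_left h, max_eq_right h]
              omega
            · rw [min_eq_right h, max_eq_left h]
              omega
    refine le_trans (Finset.sum_le_sum h1) ?_
    rw [Finset.sum_const, Finset.card_product, smul_eq_mul]
    exact le_of_eq (by ring)
  have h3 : (Finset.Ioc i0 (i0 + m)).card • (C1 * F0.card * Lt.card) <
      ∑ t ∈ Finset.Ioc i0 (i0 + m), m * ((F0 ×ˢ Lt).filter fun e =>
      (ℓ e.1 < t ∧ t ≤ ℓ (next e.1 e.2)) ∨ (t ≤ ℓ e.1 ∧ ℓ (next e.1 e.2) < t)).card := by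
    rw [← Finset.sum_const]
    refine Finset.sum_lt_sum_of_nonempty ⟨i0 + m, Finset.mem_Ioc.2 ⟨by omega, le_rfl⟩⟩ fun t ht => ?_
    rw [Finset.mem_Ioc] at ht
    exact hno t ht.1 ht.2
  have h4 : (Finset.Ioc i0 (i0 + m)).card = m := by
    rw [Int.card_Ioc]
    omega
  rw [h4, smul_eq_mul, ← Finset.mul_sum] at h3
  exact absurd (Nat.mul_le_mul_left m hsum) (not_le.2 h3)
-- END gw1

variable {a b p q : ℕ} {F : Finset ℚ}

-- BEGIN gw2
private theorem gw2_mono {w w' : ℕ} {F0 : Finset (ℚ × ℚ)} (h : Win w F0) (hw : w ≤ w') : Win w' F0 :=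
  fun x hx j => (h x hx j).trans (Nat.mul_le_mul_right _ hw)

/-- the exponents `i` with `t ≤ v + i e ≤ t + m` -/
private theorem gw2_range {v t e i : ℤ} {m : ℕ} (he : 1 ≤ e) (h1 : t ≤ v + i * e) (h2 : v + i * e ≤ t + m) :
    -((-(t - v)) / e) ≤ i ∧ i ≤ -((-(t - v)) / e) + m := by
  have he0 : 0 < e := by linarith
  have h3 : (-(t - v)) / e * e ≤ -(t - v) := Int.ediv_mul_le _ he0.ne'
  have h4 : -i ≤ (-(t - v)) / e := (Int.le_ediv_iff_mul_le he0).2 (by linarith)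
  refine ⟨by linarith, ?_⟩
  by_contra h5
  rw [not_le] at h5
  have h6 : -((-(t - v)) / e) + m + 1 ≤ i := h5
  have h7 : (-((-(t - v)) / e) + m + 1) * e ≤ i * e := mul_le_mul_of_nonneg_right h6 he0.le
  have h8 : (m : ℤ) + 1 ≤ ((m : ℤ) + 1) * e := le_mul_of_one_le_right (by positivity) he
  have h9 : (-((-(t - v)) / e) + m + 1) * e = -((-(t - v)) / e * e) + ((m : ℤ) + 1) * e := by ring
  linarith

/-- the number of slopes in a window (as `Lgq.win_of_cosets`; for every `f` and every `i` in the window the exponents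
`j` lie in an interval of length at most `(k + 1) / log_2 b + 1`) -/
theorem win_slab (hp : p.Prime) (hpa : p ∣ a) (ha : 0 < a) (hb : 2 ≤ b) (hc : Nat.Coprime a b)
    (hF : ∀ f ∈ F, 0 < f) : ∃ w1 : ℕ, ∀ (F0 : Finset (ℚ × ℚ)) (t : ℤ) (m : ℕ), 1 ≤ m →
      (∀ x ∈ F0, ∃ f ∈ F, ∃ i j : ℤ, x.1 = f * (a : ℚ) ^ i * (b : ℚ) ^ j) →
      (∀ x ∈ F0, t ≤ padicValRat p x.1 ∧ padicValRat p x.1 ≤ t + m) → Win (w1 * m) F0 := by
  classical
  refine ⟨6 * F.card, fun F0 t m hm h1 h2 => ?_⟩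
  set lo : ℚ → ℤ := fun f => -((-(t - padicValRat p f)) / (padicValNat p a : ℤ)) with hlo
  set F' : Finset ℚ := F.biUnion fun f => (Finset.Icc (lo f) (lo f + m)).image fun i : ℤ => f * (a : ℚ) ^ i with hF'
  have ha' : (0 : ℚ) < a := by exact_mod_cast ha
  have hb0 : 0 < b := by omega
  have hb' : (0 : ℚ) < b := by exact_mod_cast hb0
  have hcard : F'.card ≤ F.card * (m + 1) := by
    rw [hF']
    refine Finset.card_biUnion_le.trans ?_
    refine (Finset.sum_le_sum fun f _ => Finset.card_image_le).trans ?_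
    refine le_of_eq ?_
    rw [Finset.sum_congr rfl (fun f _ => show (Finset.Icc (lo f) (lo f + m)).card = m + 1 by
      rw [Int.card_Icc]; omega), Finset.sum_const, smul_eq_mul]
  have hpos : ∀ f ∈ F', 0 < f := by
    intro f hf
    obtain ⟨f0, hf0, hf1⟩ := Finset.mem_biUnion.1 hf
    obtain ⟨i, _, rfl⟩ := Finset.mem_image.1 hf1
    exact mul_pos (hF f0 hf0) (zpow_pos ha' i)
  have hb2 : (2 : ℚ) ≤ b := by exact_mod_cast hb
  have hwin : Win (F'.card * (2 * 1 + 1)) F0 := by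
    refine Lgq.win_of_cosets (lam := (b : ℚ)) (e := 1) hpos (Or.inl rfl) hb' ?_ (j1 := 1) ?_ ?_
    · rw [zpow_one]; linarith
    · rw [zpow_one, pow_one]; exact hb2
    · intro x hx
      obtain ⟨f, hf, i, j, hx1⟩ := h1 x hx
      obtain ⟨v1, v2⟩ := val_a (p := p) hp hpa ha hb0 hc (hF f hf) i j
      obtain ⟨t1, t2⟩ := h2 x hx
      rw [hx1, v1] at t1 t2
      have he : (1 : ℤ) ≤ (padicValNat p a : ℤ) := by exact_mod_cast v2
      obtain ⟨r1, r2⟩ := gw2_range he t1 t2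
      refine ⟨f * (a : ℚ) ^ i, ?_, j, hx1⟩
      exact Finset.mem_biUnion.2 ⟨f, hf, Finset.mem_image.2 ⟨i, Finset.mem_Icc.2 ⟨r1, r2⟩, rfl⟩⟩
  refine gw2_mono hwin ?_
  have h3 : F'.card * (2 * 1 + 1) ≤ F.card * (m + 1) * 3 := Nat.mul_le_mul_right 3 hcard
  have h4 : F.card * (m + 1) * 3 ≤ F.card * (2 * m) * 3 :=
    Nat.mul_le_mul_right 3 (Nat.mul_le_mul_left _ (by omega))
  calc F'.card * (2 * 1 + 1) ≤ F.card * (2 * m) * 3 := h3.trans h4
    _ = 6 * F.card * m := by ring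
-- END gw2

-- BEGIN gw3
theorem gw3_median {β : Type*} (B : Finset β) (ℓ : β → ℤ) (hB : B.Nonempty) :
    ∃ i0 : ℤ, 2 * (B.filter fun x => ℓ x < i0).card ≤ B.card ∧
      2 * (B.filter fun x => i0 < ℓ x).card ≤ B.card := by
  classical
  have hpos : 0 < B.card := Finset.card_pos.2 hB
  obtain ⟨i0, h1, h2⟩ := Int.exists_least_of_bdd
    (P := fun z => B.card ≤ 2 * (B.filter fun x => ℓ x ≤ z).card) (by
      obtain ⟨y, _, hy⟩ := B.exists_min_image ℓ hB
      refine ⟨ℓ y, fun z hz => ?_⟩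
      by_contra hlt
      rw [not_le] at hlt
      have h3 : (B.filter fun x => ℓ x ≤ z) = ∅ := by
        refine Finset.filter_false_of_mem fun x hx => ?_
        rw [not_le]
        exact lt_of_lt_of_le hlt (hy x hx)
      rw [h3, Finset.card_empty] at hz
      omega) (by
      obtain ⟨y, _, hy⟩ := B.exists_max_image ℓ hB
      refine ⟨ℓ y, ?_⟩
      rw [Finset.filter_true_of_mem fun x hx => hy x hx]
      omega)
  refine ⟨i0, ?_, ?_⟩
  · have h3 : ¬ (B.card ≤ 2 * (B.filter fun x => ℓ x ≤ i0 - 1).card) := fun h => by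
      have := h2 _ h
      omega
    have h4 : (B.filter fun x => ℓ x < i0) = B.filter fun x => ℓ x ≤ i0 - 1 :=
      Finset.filter_congr fun x _ => by omega
    rw [h4]
    omega
  · have h3 : (B.filter fun x => i0 < ℓ x) = B.filter fun x => ¬ ℓ x ≤ i0 :=
      Finset.filter_congr fun x _ => by omega
    have h4 := Finset.card_filter_add_card_filter_not (s := B) (fun x => ℓ x ≤ i0)
    rw [h3]
    omega

/-- the balanced cut: by a level of the valuation at `p`, or by a half disc inside a slab (`Lgq.cut`) -/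
theorem bal_cut {α : Type*} (hp : p.Prime) (hpa : p ∣ a) (ha : 0 < a) (hb : 2 ≤ b) (hc : Nat.Coprime a b)
    (hF : ∀ f ∈ F, 0 < f) (C1 nL : ℕ) (C : ℚ) (hC : 0 ≤ C) :
    ∃ K : ℕ, 0 < K ∧ ∀ (B F0 : Finset (ℚ × ℚ)) (Lt : Finset α) (next : ℚ × ℚ → α → ℚ × ℚ), B ⊆ F0 →
      Lt.card = nL → (∀ x ∈ F0, 0 < x.1) →
      (∀ x ∈ F0, ∀ y ∈ F0, x.1 = y.1 → ∃ t : ℤ, x.2 - y.2 = t) →
      (∀ x ∈ F0, ∃ f ∈ F, ∃ i j : ℤ, x.1 = f * (a : ℚ) ^ i * (b : ℚ) ^ j) →
      (∀ x ∈ F0, ∀ s ∈ Lt, |padicValRat p (next x s).1 - padicValRat p x.1| ≤ C1) →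
      (∀ c : ℚ, ∀ x ∈ F0, ∀ s ∈ Lt, psi c (next x s) - psi c x ≤ C * eta x) →
      ∀ m : ℕ, 1 ≤ m → K * m ≤ B.card → ∃ P : ℚ × ℚ → Prop, ∃ _ : DecidablePred P,
        B.card ≤ 80 * (B.filter P).card ∧ B.card ≤ 80 * (B.filter fun x => ¬ P x).card ∧
        m * ((F0 ×ˢ Lt).filter fun e => P e.1 ∧ ¬ P (next e.1 e.2)).card ≤
          K * (F0.card + m ^ 2 * (Nat.clog 2 F0.card + 1)) := by
  classical
  obtain ⟨w1, hw1⟩ := win_slab hp hpa ha hb hc hF
  obtain ⟨K1, hK1⟩ := exists_nat_ge (C * (nL * (40 * w1 + 1)) + 1)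
  refine ⟨2 * C1 * nL + K1 + 10560 * w1 + 1, Nat.succ_pos _, ?_⟩
  intro B F0 Lt next hBF hLt hpos hint hsl hv hedge m hm hmB
  set ℓ : ℚ × ℚ → ℤ := fun x => padicValRat p x.1 with hℓ
  set N := B.card with hN
  set lg := Nat.clog 2 F0.card with hlg
  have hm0 : 10560 * w1 * m + m ≤ N := by
    refine le_trans ?_ hmB
    have : 10560 * w1 * m + m = (10560 * w1 + 1) * m := by ring
    rw [this]
    exact Nat.mul_le_mul_right _ (by omega)
  have hNpos : 0 < N := by omega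
  have hBne : B.Nonempty := Finset.card_pos.1 hNpos
  obtain ⟨i0, hi1, hi2⟩ := gw3_median B ℓ hBne
  obtain ⟨t2, ht2, ht2', hc2⟩ := slab F0 Lt next ℓ hv i0 hm
  obtain ⟨t1, ht1, ht1', hc1⟩ := slab F0 Lt next ℓ hv (i0 - m) hm
  rw [hLt] at hc1 hc2
  have hcost : C1 * F0.card * nL ≤
      (2 * C1 * nL + K1 + 10560 * w1 + 1) * (F0.card + m ^ 2 * (lg + 1)) := by
    calc C1 * F0.card * nL = (C1 * nL) * F0.card := by ring
      _ ≤ (2 * C1 * nL + K1 + 10560 * w1 + 1) * (F0.card + m ^ 2 * (lg + 1)) :=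
        Nat.mul_le_mul (by nlinarith) (Nat.le_add_right _ _)
  by_cases hL : N ≤ 80 * (B.filter fun x => ℓ x < t1).card
  · refine ⟨fun x => ℓ x < t1, inferInstance, hL, ?_, ?_⟩
    · have e1 : (B.filter fun x => ℓ x < t1).card ≤ (B.filter fun x => ℓ x < i0).card := by
        refine Finset.card_le_card fun x hx => ?_
        rw [Finset.mem_filter] at hx ⊢
        exact ⟨hx.1, by omega⟩
      have e2 := Finset.card_filter_add_card_filter_not (s := B) (fun x => ℓ x < t1)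
      change N ≤ 80 * (B.filter fun x => ¬ ℓ x < t1).card
      omega
    · refine le_trans ?_ (hc1.trans hcost)
      refine Nat.mul_le_mul_left _ (Finset.card_le_card fun e he => ?_)
      rw [Finset.mem_filter] at he ⊢
      exact ⟨he.1, Or.inl ⟨he.2.1, not_lt.1 he.2.2⟩⟩
  by_cases hU : N ≤ 80 * (B.filter fun x => t2 ≤ ℓ x).card
  · refine ⟨fun x => t2 ≤ ℓ x, inferInstance, hU, ?_, ?_⟩
    · have e1 : (B.filter fun x => t2 ≤ ℓ x).card ≤ (B.filter fun x => i0 < ℓ x).card := by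
        refine Finset.card_le_card fun x hx => ?_
        rw [Finset.mem_filter] at hx ⊢
        exact ⟨hx.1, by omega⟩
      have e2 := Finset.card_filter_add_card_filter_not (s := B) (fun x => t2 ≤ ℓ x)
      change N ≤ 80 * (B.filter fun x => ¬ t2 ≤ ℓ x).card
      omega
    · refine le_trans ?_ (hc2.trans hcost)
      refine Nat.mul_le_mul_left _ (Finset.card_le_card fun e he => ?_)
      rw [Finset.mem_filter] at he ⊢
      exact ⟨he.1, Or.inr ⟨he.2.1, not_le.1 he.2.2⟩⟩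
  rw [not_le] at hL hU
  set B' := B.filter fun x => t1 ≤ ℓ x ∧ ℓ x < t2 with hB'
  set F1 := F0.filter fun x => t1 ≤ ℓ x ∧ ℓ x < t2 with hF1
  have hcard : N ≤ B'.card + ((B.filter fun x => ℓ x < t1).card + (B.filter fun x => t2 ≤ ℓ x).card) := by
    have e1 : B ⊆ B' ∪ ((B.filter fun x => ℓ x < t1) ∪ (B.filter fun x => t2 ≤ ℓ x)) := by
      intro x hx
      rw [Finset.mem_union, Finset.mem_union, hB', Finset.mem_filter, Finset.mem_filter,
        Finset.mem_filter]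
      by_cases h1 : ℓ x < t1
      · exact Or.inr (Or.inl ⟨hx, h1⟩)
      by_cases h2 : t2 ≤ ℓ x
      · exact Or.inr (Or.inr ⟨hx, h2⟩)
      · exact Or.inl ⟨hx, not_lt.1 h1, not_le.1 h2⟩
    exact (Finset.card_le_card e1).trans ((Finset.card_union_le _ _).trans
      (Nat.add_le_add_left (Finset.card_union_le _ _) _))
  have hB'1 : 39 * N ≤ 40 * B'.card := by omega
  have hB'F : B' ⊆ F1 := by
    intro x hx
    rw [hB', Finset.mem_filter] at hx
    rw [hF1, Finset.mem_filter]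
    exact ⟨hBF hx.1, hx.2⟩
  have hF1F : ∀ x ∈ F1, x ∈ F0 := fun x hx => (Finset.mem_filter.1 hx).1
  have hwin : Win (w1 * (2 * m)) F1 := by
    refine hw1 F1 t1 (2 * m) (by omega) (fun x hx => hsl x (hF1F x hx)) fun x hx => ?_
    have h1 := (Finset.mem_filter.1 hx).2
    have h2 : ℓ x = padicValRat p x.1 := rfl
    push_cast
    omega
  have hne : B'.Nonempty := Finset.card_pos.1 (by omega)
  obtain ⟨c, ρ, h1, h2, h3⟩ := Lgq.cut (Lt := Lt) (next := next) hB'F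
    (fun x hx => hpos x (hF1F x hx)) (fun x hx y hy => hint x (hF1F x hx) y (hF1F y hy)) hwin hC
    (fun c x hx => hedge c x (hF1F x hx)) hne (by
      have e1 : 2640 * (w1 * (2 * m)) = 5280 * w1 * m := by ring
      have e2 : 10560 * w1 * m = 2 * (5280 * w1 * m) := by ring
      omega)
  refine ⟨fun x => t1 ≤ ℓ x ∧ ℓ x < t2 ∧ psi c x < ρ, inferInstance, ?_, ?_, ?_⟩
  · have e1 : (B'.filter fun x => psi c x < ρ) =
        B.filter fun x => t1 ≤ ℓ x ∧ ℓ x < t2 ∧ psi c x < ρ := by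
      rw [hB', Finset.filter_filter]
      exact Finset.filter_congr fun x _ => by tauto
    change N ≤ 80 * (B.filter fun x => t1 ≤ ℓ x ∧ ℓ x < t2 ∧ psi c x < ρ).card
    rw [← e1]
    omega
  · have e1 : (B'.filter fun x => ¬ psi c x < ρ) ⊆
        B.filter fun x => ¬ (t1 ≤ ℓ x ∧ ℓ x < t2 ∧ psi c x < ρ) := by
      intro x hx
      rw [Finset.mem_filter, hB', Finset.mem_filter] at hx
      rw [Finset.mem_filter]
      exact ⟨hx.1.1, fun h => hx.2 h.2.2⟩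
    have e2 := Finset.card_le_card e1
    change N ≤ 80 * (B.filter fun x => ¬ (t1 ≤ ℓ x ∧ ℓ x < t2 ∧ psi c x < ρ)).card
    omega
  · set E1 := (F0 ×ˢ Lt).filter fun e => (ℓ e.1 < t1 ∧ t1 ≤ ℓ (next e.1 e.2)) ∨
        (t1 ≤ ℓ e.1 ∧ ℓ (next e.1 e.2) < t1) with hE1
    set E2 := (F0 ×ˢ Lt).filter fun e => (ℓ e.1 < t2 ∧ t2 ≤ ℓ (next e.1 e.2)) ∨
        (t2 ≤ ℓ e.1 ∧ ℓ (next e.1 e.2) < t2) with hE2
    set E3 := (F1 ×ˢ Lt).filter fun e => psi c e.1 < ρ ∧ ¬ psi c (next e.1 e.2) < ρ with hE3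
    have e1 : ((F0 ×ˢ Lt).filter fun e => (t1 ≤ ℓ e.1 ∧ ℓ e.1 < t2 ∧ psi c e.1 < ρ) ∧
        ¬ (t1 ≤ ℓ (next e.1 e.2) ∧ ℓ (next e.1 e.2) < t2 ∧ psi c (next e.1 e.2) < ρ)) ⊆
        E1 ∪ (E2 ∪ E3) := by
      intro e he
      rw [Finset.mem_filter] at he
      obtain ⟨he0, ⟨k1, k2, k3⟩, k4⟩ := he
      rw [Finset.mem_union, Finset.mem_union, hE1, hE2, hE3, Finset.mem_filter, Finset.mem_filter,
        Finset.mem_filter]
      by_cases q1 : ℓ (next e.1 e.2) < t1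
      · exact Or.inl ⟨he0, Or.inr ⟨k1, q1⟩⟩
      by_cases q2 : t2 ≤ ℓ (next e.1 e.2)
      · exact Or.inr (Or.inl ⟨he0, Or.inl ⟨k2, q2⟩⟩)
      refine Or.inr (Or.inr ⟨?_, k3, fun h => k4 ⟨not_lt.1 q1, not_le.1 q2, h⟩⟩)
      rw [Finset.mem_product] at he0 ⊢
      exact ⟨Finset.mem_filter.2 ⟨he0.1, k1, k2⟩, he0.2⟩
    have e2 := (Finset.card_le_card e1).trans ((Finset.card_union_le _ _).trans
      (Nat.add_le_add_left (Finset.card_union_le _ _) _))
    have hclog : Nat.clog 2 F1.card ≤ lg :=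
      Nat.clog_mono_right 2 (Finset.card_le_card (Finset.filter_subset _ _))
    have e3 : m * E3.card ≤ K1 * (m ^ 2 * (lg + 1)) := by
      have hmq : (1 : ℚ) ≤ m := by exact_mod_cast hm
      have hlq : (0 : ℚ) ≤ lg := Nat.cast_nonneg _
      have hw0 : (0 : ℚ) ≤ w1 := Nat.cast_nonneg _
      have hnL : (0 : ℚ) ≤ nL := Nat.cast_nonneg _
      have hcq : (Nat.clog 2 F1.card : ℚ) ≤ lg := by exact_mod_cast hclog
      have g1 : (E3.card : ℚ) ≤ C * (nL * (10 * (w1 * (2 * m) * (lg + 2)) + 1)) + 1 := by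
        refine h3.trans ?_
        rw [hLt]
        push_cast
        gcongr
      have g2 : (10 : ℚ) * (w1 * (2 * m) * (lg + 2)) + 1 ≤ (40 * w1 + 1) * (m * (lg + 1)) := by
        have g3 : (1 : ℚ) ≤ m * (lg + 1) := by nlinarith
        have g4 : (w1 : ℚ) * (2 * m) * (lg + 2) ≤ w1 * (2 * m) * (2 * (lg + 1)) := by
          have : (0 : ℚ) ≤ w1 * (2 * m) := by positivity
          exact mul_le_mul_of_nonneg_left (by linarith) this
        nlinarith
      have g5 : C * (nL * (10 * (w1 * (2 * m) * (lg + 2)) + 1)) + 1 ≤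
          (C * (nL * (40 * w1 + 1)) + 1) * (m * (lg + 1)) := by
        have g6 : C * (nL * (10 * (w1 * (2 * m) * (lg + 2)) + 1)) ≤
            C * (nL * ((40 * w1 + 1) * (m * (lg + 1)))) :=
          mul_le_mul_of_nonneg_left (mul_le_mul_of_nonneg_left g2 hnL) hC
        have g7 : (1 : ℚ) ≤ m * (lg + 1) := by nlinarith
        nlinarith
      have g8 : (C * (nL * (40 * w1 + 1)) + 1) * (m * (lg + 1)) ≤ (K1 : ℚ) * (m * (lg + 1)) :=
        mul_le_mul_of_nonneg_right hK1 (by positivity)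
      have g9 : (m : ℚ) * E3.card ≤ K1 * (m ^ 2 * (lg + 1)) := by
        have g10 : (m : ℚ) * E3.card ≤ m * (K1 * (m * (lg + 1))) :=
          mul_le_mul_of_nonneg_left (g1.trans (g5.trans g8)) (by linarith)
        calc (m : ℚ) * E3.card ≤ m * (K1 * (m * (lg + 1))) := g10
          _ = K1 * (m ^ 2 * (lg + 1)) := by ring
      exact_mod_cast g9
    have e4 := Nat.mul_le_mul_left m e2
    rw [Nat.mul_add, Nat.mul_add] at e4
    refine e4.trans ?_
    have e5 : C1 * F0.card * nL + (C1 * F0.card * nL + K1 * (m ^ 2 * (lg + 1))) ≤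
        (2 * C1 * nL + K1 + 10560 * w1 + 1) * (F0.card + m ^ 2 * (lg + 1)) := by
      generalize m ^ 2 * (lg + 1) = y
      generalize F0.card = x
      have : C1 * x * nL + (C1 * x * nL + K1 * y) = 2 * C1 * nL * x + K1 * y := by ring
      rw [this]
      have h4 : (2 * C1 * nL + K1 + 10560 * w1 + 1) * (x + y) =
          2 * C1 * nL * x + K1 * y + (2 * C1 * nL * y + K1 * x + (10560 * w1 + 1) * (x + y)) := by ring
      rw [h4]
      exact Nat.le_add_right _ _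
    refine le_trans ?_ e5
    exact Nat.add_le_add hc1 (Nat.add_le_add hc2 e3)
-- END gw3

variable {S : Set (Equiv.Perm ℤ)} {u : Ultrafilter ℤ}

-- BEGIN gw4
/-- the Poincaré inequality with the balanced cut (`Lgq.poincare` with one type, `Lgq.BF_int`, `Lgq.BF_edge`) -/
theorem ineq2 (hS : S.Finite) (hCT : Subgroup.closure S ≤ CT) {M0 : ℕ} {A : Finset (ℚ × ℚ)}
    (hd : Data S M0 A) (hp : p.Prime) (hpa : p ∣ a) (ha : 0 < a) (hb : 2 ≤ b) (hc : Nat.Coprime a b)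
    (hF : ∀ f ∈ F, 0 < f)
    (hsl : ∀ h ∈ Subgroup.closure S, ∃ f ∈ F, ∃ i j : ℤ, sl u h = f * (a : ℚ) ^ i * (b : ℚ) ^ j)
    (hK : ∀ h ∈ Subgroup.closure S, KS (Subgroup.closure S) (act h u) = KS (Subgroup.closure S) u) :
    ∃ K : ℕ, 0 < K ∧ ∀ n m : ℕ, 1 ≤ m → K * m ≤ (BF hS u n).card →
      m * (BF hS u n).card ^ 2 ≤ K * (n * ((BF hS u (2 * n)).card *
        ((BF hS u (3 * n)).card + m ^ 2 * (Nat.clog 2 (BF hS u (3 * n)).card + 1)))) := by
  classical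
  obtain ⟨C, hC, hC'⟩ := letter_bound hd
  obtain ⟨C1, hC1⟩ := letter_vh hd p
  obtain ⟨K, hK0, hcut⟩ := bal_cut (α := Equiv.Perm ℤ) hp hpa ha hb hc hF C1 (LtF hS).card
    (2 * C ^ 2) (by positivity)
  refine ⟨12800 * K, by omega, fun n m hm hmn => ?_⟩
  have hmn' : K * m ≤ (BF hS u n).card := by
    refine le_trans ?_ hmn
    exact Nat.mul_le_mul_right _ (by omega)
  obtain ⟨P, hP, h1, h2, h3⟩ := hcut (BF hS u n) (BF hS u (3 * n)) (LtF hS) (nxt S u)
    (Lgq.BF_mono hS (by omega)) rfl (fun x hx => by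
      obtain ⟨h, hh, rfl⟩ := mem_BF.1 hx
      exact sl_pos (hCT (Lgq.ball_mem hh))) (Lgq.BF_int hS hCT) (fun x hx => by
      obtain ⟨h, hh, rfl⟩ := mem_BF.1 hx
      exact hsl h (Lgq.ball_mem hh)) (fun x hx s hs => by
      obtain ⟨h, hh, rfl⟩ := mem_BF.1 hx
      have hsL := mem_LtF.1 hs
      have hhH := Lgq.ball_mem hh
      have hsH : s ∈ Subgroup.closure S := gen_mem hsL
      rw [Lgq.nxt_eq hCT hhH hsH]
      have e1 := vh_mul hp (u := u) (hCT hsH) (hCT hhH)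
      have e2 := hC1 (act h u) s hsL
      unfold vh at e1 e2
      have e3 : padicValRat p (gr u (s * h)).1 - padicValRat p (gr u h).1 =
          padicValRat p (sl (act h u) s) := by
        change padicValRat p (sl u (s * h)) - padicValRat p (sl u h) = _
        rw [e1]
        ring
      rw [e3]
      exact e2) (Lgq.BF_edge hS hCT hC hC') m hm hmn'
  have h4 := Lgq.poincare hS hCT (u := u) (T := {1}) (c0 := 0) (fun t ht => by
      rw [Finset.mem_singleton] at ht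
      rw [ht]
      exact Lgq.one_mem_ball) (fun h hh => ⟨1, Finset.mem_singleton_self _, by
      rw [hK h hh, act_one]⟩) P n
  rw [Finset.card_singleton, one_mul, Nat.add_zero] at h4
  set X := ((BF hS u (3 * n) ×ˢ LtF hS).filter fun e => P e.1 ∧ ¬ P (nxt S u e.1 e.2)).card with hX
  set β := (BF hS u n).card with hβ
  set β2 := (BF hS u (2 * n)).card with hβ2
  set Z := (BF hS u (3 * n)).card + m ^ 2 * (Nat.clog 2 (BF hS u (3 * n)).card + 1) with hZ
  have h5 : β ^ 2 ≤ 6400 * (β2 * ((2 * n) * X)) := by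
    calc β ^ 2 = β * β := by ring
      _ ≤ (80 * ((BF hS u n).filter P).card) * (80 * ((BF hS u n).filter fun x => ¬ P x).card) :=
        Nat.mul_le_mul h1 h2
      _ = 6400 * (((BF hS u n).filter P).card * ((BF hS u n).filter fun x => ¬ P x).card) := by ring
      _ ≤ _ := Nat.mul_le_mul_left _ h4
  calc m * β ^ 2 ≤ m * (6400 * (β2 * ((2 * n) * X))) := Nat.mul_le_mul_left _ h5
    _ = 12800 * (n * (β2 * (m * X))) := by ring
    _ ≤ 12800 * (n * (β2 * (K * Z))) := by gcongr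
    _ = 12800 * K * (n * (β2 * Z)) := by ring
-- END gw4

-- BEGIN gw5
private theorem gw5_lin (M : ℕ) : ∃ J : ℕ, ∀ j : ℕ, J ≤ j → M * (j + 1) ≤ 2 ^ j := by
  refine ⟨4 * M, fun j hj => ?_⟩
  have h1 : 2 * M + 1 ≤ 2 ^ (j / 2) := by
    have h2 : 2 * M ≤ j / 2 := by omega
    have h3 : j / 2 < 2 ^ (j / 2) := Nat.lt_two_pow_self
    omega
  have h4 : j - j / 2 + 1 ≤ 2 ^ (j - j / 2) := by
    have h3 : j - j / 2 < 2 ^ (j - j / 2) := Nat.lt_two_pow_self
    omega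
  have h5 : 2 ^ j = 2 ^ (j / 2) * 2 ^ (j - j / 2) := by
    rw [← pow_add]; congr 1; omega
  rw [h5]
  calc M * (j + 1) ≤ M * (2 * (j - j / 2 + 1)) := Nat.mul_le_mul_left _ (by omega)
    _ = (2 * M) * (j - j / 2 + 1) := by ring
    _ ≤ (2 * M + 1) * (j - j / 2 + 1) := Nat.mul_le_mul_right _ (by omega)
    _ ≤ _ := Nat.mul_le_mul h1 h4

/-- the arithmetic of the growth -/
theorem arith2 {β : ℕ → ℕ} (hmono : Monotone β) {C d K : ℕ} (hpoly : ∀ n, 1 ≤ n → β n ≤ C * n ^ d)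
    (hK : 0 < K) (h : ∀ n m : ℕ, 1 ≤ m → K * m ≤ β n →
      m * β n ^ 2 ≤ K * (n * (β (2 * n) * (β (3 * n) + m ^ 2 * (Nat.clog 2 (β (3 * n)) + 1))))) (D : ℕ) :
    ∃ᶠ R : ℕ in atTop, ∃ w : ℕ, w ^ D ≤ R ∧ β (4 * R) ≤ R ^ 2 * w := by
  by_contra hcon
  rw [not_frequently, eventually_atTop] at hcon
  obtain ⟨R0, hR0⟩ := hcon
  rcases Nat.eq_zero_or_pos D with hD | hD
  · subst hD
    refine hR0 (max R0 1) (le_max_left _ _) ⟨β (4 * max R0 1), ?_, ?_⟩
    · rw [pow_zero]; exact le_max_right _ _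
    · exact Nat.le_mul_of_pos_left _ (pow_pos (lt_of_lt_of_le one_pos (le_max_right R0 1)) 2)
  -- the lower bound
  have hlow : ∀ k : ℕ, R0 ≤ k → 16 ^ k * 2 ^ (2 * k / D) < β (4 ^ (k + 1)) := by
    intro k hk
    have h1 : R0 ≤ 4 ^ k := hk.trans (Nat.lt_pow_self (by norm_num)).le
    have h2 := hR0 (4 ^ k) h1
    push Not at h2
    have h3 := h2 (2 ^ (2 * k / D)) (by
      rw [← pow_mul]
      calc 2 ^ (2 * k / D * D) ≤ 2 ^ (2 * k) := Nat.pow_le_pow_right (by norm_num) (Nat.div_mul_le_self _ _)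
        _ = 4 ^ k := by rw [pow_mul]; norm_num)
    have h4 : 4 * 4 ^ k = 4 ^ (k + 1) := by rw [pow_succ]; ring
    have h5 : (4 ^ k) ^ 2 = 16 ^ k := by rw [← pow_mul, mul_comm, pow_mul]; norm_num
    rw [h4, h5] at h3
    exact h3
  -- doubling scales
  have hdoub : ∀ k0 : ℕ, R0 ≤ k0 → ∃ k : ℕ, k0 ≤ k ∧ β (4 ^ (k + 2)) ≤ 4 ^ (d + 1) * β (4 ^ (k + 1)) := by
    intro k0 hk0
    by_contra hno
    push Not at hno
    have h1 : ∀ j : ℕ, (4 ^ (d + 1)) ^ j ≤ β (4 ^ (k0 + j + 1)) := by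
      intro j
      induction j with
      | zero =>
        have h2 := hlow k0 hk0
        rw [pow_zero, Nat.add_zero]
        exact Nat.one_le_iff_ne_zero.2 (by omega)
      | succ j ih =>
        have h2 := hno (k0 + j) (Nat.le_add_right _ _)
        calc (4 ^ (d + 1)) ^ (j + 1) = 4 ^ (d + 1) * (4 ^ (d + 1)) ^ j := by rw [pow_succ]; ring
          _ ≤ 4 ^ (d + 1) * β (4 ^ (k0 + j + 1)) := Nat.mul_le_mul_left _ ih
          _ ≤ β (4 ^ (k0 + j + 2)) := h2.le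
          _ = β (4 ^ (k0 + (j + 1) + 1)) := by congr 2
    have h3 : ∀ j : ℕ, 4 ^ j ≤ C * 4 ^ ((k0 + 1) * d) := by
      intro j
      have h4 := (h1 j).trans (hpoly _ (Nat.one_le_pow _ _ (by norm_num)))
      have h5 : (4 ^ (d + 1)) ^ j = 4 ^ j * 4 ^ (d * j) := by
        rw [← pow_mul, ← pow_add]; congr 1; ring
      have h6 : C * (4 ^ (k0 + j + 1)) ^ d = C * 4 ^ ((k0 + 1) * d) * 4 ^ (d * j) := by
        rw [mul_assoc, ← pow_add, ← pow_mul]; congr 2; ring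
      rw [h5, h6] at h4
      exact Nat.le_of_mul_le_mul_right h4 (pow_pos (by norm_num) _)
    have h7 := h3 (C * 4 ^ ((k0 + 1) * d))
    exact absurd (Nat.lt_pow_self (by norm_num : 1 < 4)) (not_lt.2 h7)
  -- the constants
  set A : ℕ := 4 ^ (d + 1) with hA
  set E : ℕ := C + 2 * d + 1 with hE
  have hA1 : 1 ≤ A := Nat.one_le_pow _ _ (by norm_num)
  obtain ⟨J, hJ⟩ := gw5_lin (E * (K * A * (A + 2)) ^ 2 * 16 * (D + 3))
  obtain ⟨k, hk, hkd⟩ := hdoub (max R0 (D * J)) (le_max_left _ _)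
  have hkR : R0 ≤ k := (le_max_left _ _).trans hk
  have hkJ : D * J ≤ k := (le_max_right _ _).trans hk
  have hb := hlow k hkR
  set b : ℕ := β (4 ^ (k + 1)) with hbdef
  set n : ℕ := 4 ^ (k + 1) with hn
  have hn1 : 1 ≤ n := Nat.one_le_pow _ _ (by norm_num)
  have hjJ : J ≤ 2 * k / D := by
    rw [Nat.le_div_iff_mul_le hD]; nlinarith
  have hbig : E * (K * A * (A + 2)) ^ 2 * 16 * (k + 3) ≤ 2 ^ (2 * k / D) := by
    have h1 : k + 3 ≤ (D + 3) * (2 * k / D + 1) := by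
      have h2 : 2 * k < D * (2 * k / D + 1) := by
        have := Nat.lt_mul_div_succ (2 * k) hD
        exact this
      nlinarith
    calc E * (K * A * (A + 2)) ^ 2 * 16 * (k + 3)
        ≤ E * (K * A * (A + 2)) ^ 2 * 16 * ((D + 3) * (2 * k / D + 1)) := Nat.mul_le_mul_left _ h1
      _ = E * (K * A * (A + 2)) ^ 2 * 16 * (D + 3) * (2 * k / D + 1) := by ring
      _ ≤ _ := hJ _ hjJ
  have h4n : 4 * n = 4 ^ (k + 2) := by rw [hn, pow_succ 4 (k + 1)]; ring
  have hβ4 : β (4 * n) ≤ A * b := by rw [h4n]; exact hkd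
  have hβ3 : β (3 * n) ≤ A * b := (hmono (by omega)).trans hβ4
  have hβ2 : β (2 * n) ≤ A * b := (hmono (by omega)).trans hβ4
  set l : ℕ := Nat.clog 2 (β (3 * n)) + 1 with hl
  have hl1 : 1 ≤ l := Nat.le_add_left _ _
  have hlE : l ≤ E * (k + 3) := by
    have h1 : β (3 * n) ≤ 2 ^ (C + 2 * (k + 2) * d) := by
      calc β (3 * n) ≤ β (4 * n) := hmono (by omega)
        _ ≤ C * (4 * n) ^ d := hpoly _ (by omega)
        _ = C * 2 ^ (2 * (k + 2) * d) := by
            have h0 : (4 : ℕ) ^ (k + 2) = 2 ^ (2 * (k + 2)) := by rw [pow_mul]; norm_num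
            rw [h4n, h0, ← pow_mul]
        _ ≤ 2 ^ C * 2 ^ (2 * (k + 2) * d) := Nat.mul_le_mul_right _ Nat.lt_two_pow_self.le
        _ = _ := by rw [← pow_add]
    have h2 : Nat.clog 2 (β (3 * n)) ≤ C + 2 * (k + 2) * d :=
      Nat.clog_le_of_le_pow h1
    rw [hl, hE]
    nlinarith
  have hbpos : 0 < b := lt_of_le_of_lt (Nat.zero_le _) hb
  have hKE : K ^ 2 * l ≤ b := by
    have h1 : K ^ 2 * (E * (k + 3)) ≤ E * (K * A * (A + 2)) ^ 2 * 16 * (k + 3) := by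
      have h2 : 1 ≤ (A * (A + 2)) ^ 2 * 16 := Nat.one_le_iff_ne_zero.2 (by positivity)
      calc K ^ 2 * (E * (k + 3)) = K ^ 2 * (E * (k + 3)) * 1 := by ring
        _ ≤ K ^ 2 * (E * (k + 3)) * ((A * (A + 2)) ^ 2 * 16) := Nat.mul_le_mul_left _ h2
        _ = _ := by ring
    have h3 : 2 ^ (2 * k / D) ≤ 16 ^ k * 2 ^ (2 * k / D) :=
      Nat.le_mul_of_pos_left _ (pow_pos (by norm_num) _)
    calc K ^ 2 * l ≤ K ^ 2 * (E * (k + 3)) := Nat.mul_le_mul_left _ hlE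
      _ ≤ _ := h1
      _ ≤ _ := hbig
      _ ≤ _ := h3
      _ ≤ b := hb.le
  set m : ℕ := Nat.sqrt (b / l) with hm
  have hmK : K ≤ m := by
    rw [hm, Nat.le_sqrt', Nat.le_div_iff_mul_le (by omega)]
    exact hKE
  have hm1 : 1 ≤ m := le_trans hK hmK
  have hm2 : m ^ 2 * l ≤ b := by
    have h1 : m ^ 2 ≤ b / l := Nat.sqrt_le' _
    calc m ^ 2 * l ≤ (b / l) * l := Nat.mul_le_mul_right _ h1
      _ ≤ b := Nat.div_mul_le_self _ _
  have hm3 : b < l * (m + 1) ^ 2 := by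
    have h1 : b / l < (m + 1) ^ 2 := Nat.lt_succ_sqrt' _
    have h2 : b < l * (b / l + 1) := Nat.lt_mul_div_succ b (by omega)
    exact lt_of_lt_of_le h2 (Nat.mul_le_mul_left _ h1)
  have hKm : K * m ≤ β n := by
    have h1 : m ^ 2 ≤ b := by nlinarith
    calc K * m ≤ m * m := Nat.mul_le_mul_right _ hmK
      _ = m ^ 2 := by ring
      _ ≤ b := h1
  have h1 := h n m hm1 hKm
  have h2 : m * b ^ 2 ≤ (K * A * (A + 1) * n) * b ^ 2 := by
    calc m * b ^ 2 ≤ K * (n * (β (2 * n) * (β (3 * n) + m ^ 2 * l))) := h1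
      _ ≤ K * (n * ((A * b) * (A * b + b))) := by
          refine Nat.mul_le_mul_left _ (Nat.mul_le_mul_left _ (Nat.mul_le_mul hβ2 (Nat.add_le_add hβ3 hm2)))
      _ = _ := by ring
  have h3 : m ≤ K * A * (A + 1) * n := Nat.le_of_mul_le_mul_right h2 (pow_pos hbpos 2)
  have h4 : m + 1 ≤ K * A * (A + 2) * n := by
    have h5 : 1 ≤ K * A * n := Nat.one_le_iff_ne_zero.2 (by positivity)
    calc m + 1 ≤ K * A * (A + 1) * n + K * A * n := Nat.add_le_add h3 h5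
      _ = _ := by ring
  have h5 : b < E * (K * A * (A + 2)) ^ 2 * 16 * (k + 3) * 16 ^ k := by
    have h6 : n ^ 2 = 16 * 16 ^ k := by
      rw [hn, ← pow_mul, mul_comm (k + 1) 2, pow_mul, ← pow_succ']; norm_num
    calc b < l * (m + 1) ^ 2 := hm3
      _ ≤ (E * (k + 3)) * (K * A * (A + 2) * n) ^ 2 := Nat.mul_le_mul hlE (Nat.pow_le_pow_left h4 2)
      _ = E * (K * A * (A + 2)) ^ 2 * (k + 3) * n ^ 2 := by ring
      _ = _ := by rw [h6]; ring
  have h6 : E * (K * A * (A + 2)) ^ 2 * 16 * (k + 3) * 16 ^ k ≤ 16 ^ k * 2 ^ (2 * k / D) := by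
    rw [mul_comm]; exact Nat.mul_le_mul_left _ hbig
  omega
-- END gw5

-- BEGIN gw6
private theorem gw6_ncard {α β γ : Type*} (A : Set α) (f : α → β) (g : α → γ)
    (h : ∀ a ∈ A, ∀ b ∈ A, f a = f b ↔ g a = g b) : (f '' A).ncard = (g '' A).ncard := by
  classical
  refine Set.ncard_congr (fun x hx => g (Classical.choose hx)) ?_ ?_ ?_
  · intro x hx
    exact ⟨_, (Classical.choose_spec hx).1, rfl⟩
  · intro x y hx hy hxy
    have h1 := (h _ (Classical.choose_spec hx).1 _ (Classical.choose_spec hy).1).2 hxy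
    rw [(Classical.choose_spec hx).2, (Classical.choose_spec hy).2] at h1
    exact h1
  · rintro z ⟨a, ha, rfl⟩
    have hx : f a ∈ f '' A := ⟨a, ha, rfl⟩
    refine ⟨f a, hx, ?_⟩
    exact (h _ (Classical.choose_spec hx).1 _ ha).1 (Classical.choose_spec hx).2

private theorem gw6_up (K : Subgroup (Subgroup.closure S)) [K.Normal] :
    ∀ l : List ((Subgroup.closure S) ⧸ K),
    (∀ x ∈ l, x ∈ (QuotientGroup.mk' K '' {g | (g : Equiv.Perm ℤ) ∈ S}) ∨
      x⁻¹ ∈ (QuotientGroup.mk' K '' {g | (g : Equiv.Perm ℤ) ∈ S})) →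
    ∃ g : Subgroup.closure S, (∃ m : List (Equiv.Perm ℤ), m.length = l.length ∧
      (∀ x ∈ m, x ∈ S ∨ x⁻¹ ∈ S) ∧ m.prod = (g : Equiv.Perm ℤ)) ∧ QuotientGroup.mk' K g = l.prod := by
  intro l
  induction l with
  | nil =>
    intro _
    exact ⟨1, ⟨[], rfl, by simp, by simp⟩, by simp⟩
  | cons x l ih =>
    intro hl
    obtain ⟨g, ⟨m, hm1, hm2, hm3⟩, hg⟩ := ih fun y hy => hl y (List.mem_cons_of_mem _ hy)
    have hx : ∃ s : Subgroup.closure S, ((s : Equiv.Perm ℤ) ∈ S ∨ (s : Equiv.Perm ℤ)⁻¹ ∈ S) ∧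
        QuotientGroup.mk' K s = x := by
      rcases hl x List.mem_cons_self with h | h
      · obtain ⟨s, hs, hs'⟩ := h
        exact ⟨s, Or.inl hs, hs'⟩
      · obtain ⟨s, hs, hs'⟩ := h
        refine ⟨s⁻¹, Or.inr ?_, ?_⟩
        · simpa using hs
        · rw [map_inv, hs', inv_inv]
    obtain ⟨s, hs, hs'⟩ := hx
    refine ⟨s * g, ⟨(s : Equiv.Perm ℤ) :: m, by simp [hm1], ?_, by simp [hm3]⟩, ?_⟩
    · intro y hy
      rcases List.mem_cons.1 hy with rfl | hy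
      · exact hs
      · exact hm2 y hy
    · rw [map_mul, hs', hg, List.prod_cons]

private theorem gw6_down (K : Subgroup (Subgroup.closure S)) [K.Normal] :
    ∀ m : List (Equiv.Perm ℤ), (∀ x ∈ m, x ∈ S ∨ x⁻¹ ∈ S) →
    ∃ l : List ((Subgroup.closure S) ⧸ K), l.length = m.length ∧
      (∀ x ∈ l, x ∈ (QuotientGroup.mk' K '' {g | (g : Equiv.Perm ℤ) ∈ S}) ∨
        x⁻¹ ∈ (QuotientGroup.mk' K '' {g | (g : Equiv.Perm ℤ) ∈ S})) ∧
      ∃ g : Subgroup.closure S, (g : Equiv.Perm ℤ) = m.prod ∧ QuotientGroup.mk' K g = l.prod := by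
  intro m
  induction m with
  | nil =>
    intro _
    exact ⟨[], rfl, by simp, 1, by simp, by simp⟩
  | cons x m ih =>
    intro hm
    obtain ⟨l, hl1, hl2, g, hg1, hg2⟩ := ih fun y hy => hm y (List.mem_cons_of_mem _ hy)
    have hx : ∃ s : Subgroup.closure S, (s : Equiv.Perm ℤ) = x ∧
        ((QuotientGroup.mk' K s) ∈ (QuotientGroup.mk' K '' {g | (g : Equiv.Perm ℤ) ∈ S}) ∨
        (QuotientGroup.mk' K s)⁻¹ ∈ (QuotientGroup.mk' K '' {g | (g : Equiv.Perm ℤ) ∈ S})) := by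
      rcases hm x List.mem_cons_self with h | h
      · exact ⟨⟨x, Subgroup.subset_closure h⟩, rfl, Or.inl ⟨_, h, rfl⟩⟩
      · have h1 : x ∈ Subgroup.closure S := by
          have := inv_mem (Subgroup.subset_closure h)
          rwa [inv_inv] at this
        refine ⟨⟨x, h1⟩, rfl, Or.inr ⟨⟨x, h1⟩⁻¹, ?_, ?_⟩⟩
        · simpa using h
        · rw [map_inv]
    obtain ⟨s, hs, hs'⟩ := hx
    refine ⟨QuotientGroup.mk' K s :: l, by simp [hl1], ?_, s * g, ?_, ?_⟩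
    · intro y hy
      rcases List.mem_cons.1 hy with rfl | hy
      · exact hs'
      · exact hl2 y hy
    · simp [hs, hg1]
    · rw [map_mul, hg2, List.prod_cons]

/-- the number of germs is the growth of the quotient by the kernel -/
theorem growth_BF (hS : S.Finite) (hCT : Subgroup.closure S ≤ CT)
    [hn : ((KS (Subgroup.closure S) u).subgroupOf (Subgroup.closure S)).Normal] (n : ℕ) :
    growth ((QuotientGroup.mk' ((KS (Subgroup.closure S) u).subgroupOf (Subgroup.closure S))) ''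
      {g | (g : Equiv.Perm ℤ) ∈ S}) n = (BF hS u n).card := by
  classical
  set K := (KS (Subgroup.closure S) u).subgroupOf (Subgroup.closure S) with hK
  have h1 : ball (QuotientGroup.mk' K '' {g | (g : Equiv.Perm ℤ) ∈ S}) n =
      QuotientGroup.mk' K '' {g : Subgroup.closure S | (g : Equiv.Perm ℤ) ∈ ball S n} := by
    ext x
    constructor
    · rintro ⟨l, hl1, hl2, rfl⟩
      obtain ⟨g, ⟨m, hm1, hm2, hm3⟩, hg⟩ := gw6_up K l hl2
      exact ⟨g, ⟨m, by omega, hm2, hm3⟩, hg⟩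
    · rintro ⟨g, ⟨m, hm1, hm2, hm3⟩, rfl⟩
      obtain ⟨l, hl1, hl2, g', hg1, hg2⟩ := gw6_down K m hm2
      have h2 : g' = g := Subtype.ext (by rw [hg1, hm3])
      exact ⟨l, by omega, hl2, by rw [← hg2, h2]⟩
  have h2 : ((BF hS u n : Finset (ℚ × ℚ)) : Set (ℚ × ℚ)) =
      (fun g : Subgroup.closure S => gr u (g : Equiv.Perm ℤ)) ''
        {g : Subgroup.closure S | (g : Equiv.Perm ℤ) ∈ ball S n} := by
    ext p
    rw [Finset.mem_coe, mem_BF]
    constructor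
    · rintro ⟨h, hh, rfl⟩
      exact ⟨⟨h, Pool.Agent.Lgq.ball_mem hh⟩, hh, rfl⟩
    · rintro ⟨g, hg, rfl⟩
      exact ⟨_, hg, rfl⟩
  unfold growth
  rw [h1, ← Set.ncard_coe_finset (BF hS u n), h2]
  refine gw6_ncard _ _ _ fun a _ b _ => ?_
  rw [QuotientGroup.mk'_apply, QuotientGroup.mk'_apply, eq_comm, QuotientGroup.eq, hK,
    Subgroup.mem_subgroupOf, mem_KS]
  constructor
  · rintro ⟨_, h3⟩
    have h4 : (b : Equiv.Perm ℤ) * ((b : Equiv.Perm ℤ)⁻¹ * a) = a := by group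
    have h5 := h3
    rw [Subgroup.coe_mul, Subgroup.coe_inv] at h5
    have h6 : (b : Equiv.Perm ℤ)⁻¹ * a ∈ CT := mul_mem (inv_mem (hCT b.2)) (hCT a.2)
    show gr u (a : Equiv.Perm ℤ) = gr u (b : Equiv.Perm ℤ)
    rw [← h4]
    unfold gr
    rw [sl_mul (hCT b.2) h6, tr_mul (hCT b.2) h6, act_of_gm h5, sl_eq h5, tr_eq h5]
    simp
  · intro h3
    refine ⟨(b⁻¹ * a).2, ?_⟩
    rw [Subgroup.coe_mul, Subgroup.coe_inv]
    exact Pool.Agent.Lgq.gr_gm (hCT a.2) (hCT b.2) h3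
-- END gw6

-- BEGIN gw7
private theorem gw7_fix {H : Subgroup (Equiv.Perm ℤ)} {x : ℕ → ℤ} (hx : Rep u x) {g : Equiv.Perm ℤ} (hg : g ∈ H) :
    g ∈ KS H u ↔ FixNear x g := by
  rw [mem_KS]
  constructor
  · rintro ⟨_, h2⟩
    obtain ⟨j, hj⟩ := h2.germ hx
    refine ⟨j, fun n hn => ?_⟩
    have h3 := hj n hn
    simp only [one_mul, add_zero] at h3
    exact_mod_cast h3
  · rintro ⟨j, hj⟩
    refine ⟨hg, gm_of_germ hx ⟨j, fun n hn => ?_⟩⟩
    rw [hj n hn]
    simp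

/-- polynomial growth of the germs (`Uhy.quot_alt` for a profinite integer `x` with `Rep u x`; the cosets in `ball S n`
determine the germs) -/
theorem BF_poly (S : Finset (Equiv.Perm ℤ)) (hS : ∀ s ∈ S, s ∈ CT) (hexp : NoExp (S : Set (Equiv.Perm ℤ)))
    (hK : ∀ h ∈ Subgroup.closure (S : Set (Equiv.Perm ℤ)),
      KS (Subgroup.closure (S : Set (Equiv.Perm ℤ))) (act h u) = KS (Subgroup.closure (S : Set (Equiv.Perm ℤ))) u) :
    ∃ C d : ℕ, ∀ n : ℕ, 1 ≤ n → (BF S.finite_toSet u n).card ≤ C * n ^ d := by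
  classical
  obtain ⟨x, hx⟩ := exists_rep u
  set H : Subgroup (Equiv.Perm ℤ) := Subgroup.closure (S : Set (Equiv.Perm ℤ)) with hH
  have hHCT : H ≤ CT := (Subgroup.closure_le CT).2 hS
  rcases Pool.Agent.Uhy.quot_alt S hS hx.pro (K := KS H u) (fun g hg => gw7_fix hx hg)
    (fun g hg k hk => by
      have h1 : g * k * g⁻¹ ∈ KS H (act g u) :=
        ⟨mul_mem (mul_mem hg hk.1) (inv_mem hg), Gm.conj_id (hHCT hg) hk.2⟩
      rwa [hK g hg] at h1) with h | h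
  swap
  · exact absurd h hexp
  obtain ⟨C, d, hCd⟩ := h
  refine ⟨C, d, fun n hn => le_trans ?_ (hCd n hn)⟩
  set T : Set (Equiv.Perm ℤ ⧸ KS H u) := (QuotientGroup.mk : Equiv.Perm ℤ → Equiv.Perm ℤ ⧸ KS H u) ''
    ball (S : Set (Equiv.Perm ℤ)) n with hT
  have hTfin : T.Finite := (ball_finite S.finite_toSet n).image _
  have h1 : ((BF S.finite_toSet u n : Finset (ℚ × ℚ)) : Set (ℚ × ℚ)) ⊆
      (fun c : Equiv.Perm ℤ ⧸ KS H u => gr u (Quotient.out c)) '' T := by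
    intro p hp
    obtain ⟨h, hh, rfl⟩ := mem_BF.1 (Finset.mem_coe.1 hp)
    refine ⟨_, ⟨h, hh, rfl⟩, ?_⟩
    obtain ⟨k, hk⟩ := QuotientGroup.mk_out_eq_mul (KS H u) h
    have hhH : h ∈ H := Lgq.ball_mem hh
    have hk2 : gr u (k : Equiv.Perm ℤ) = gr u 1 := by
      unfold gr
      rw [sl_eq k.2.2, tr_eq k.2.2, sl_one, tr_one]
    have h2 := Lgq.gr_congr (hHCT k.2.1) (one_mem CT) (hHCT hhH) hk2
    rw [mul_one] at h2
    show gr u (Quotient.out (QuotientGroup.mk h : Equiv.Perm ℤ ⧸ KS H u)) = gr u h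
    rw [hk]
    exact h2
  calc (BF S.finite_toSet u n).card = ((BF S.finite_toSet u n : Finset (ℚ × ℚ)) : Set (ℚ × ℚ)).ncard :=
        (Set.ncard_coe_finset _).symm
    _ ≤ ((fun c : Equiv.Perm ℤ ⧸ KS H u => gr u (Quotient.out c)) '' T).ncard :=
        Set.ncard_le_ncard h1 (hTfin.image _)
    _ ≤ T.ncard := Set.ncard_image_le hTfin
-- END gw7

end Pool.Agent.Gr2
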