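import Pool.Agent.Gr2.Rec
import Pool.Agent.Gr2.Grw
import Pool.Agent.Gq2.Main
import Pool.Agent.Lgo.Center
import Pool.Agent.Uhy.Uni
import Pool.Agent.Uhy.Fin

/-!
# The conclusion in rank two
-/

namespace Pool.Agent.Gr2

open Pool.Agent.CTm Pool.Agent.Grm Pool.Agent.Lgp Filter Nat Topology
open Pool.Agent.Lgo (BigImage)
open Pool.Agent.Uhy (AlmPer)

variable {S : Set (Equiv.Perm ℤ)} {M : Set (Ultrafilter ℤ)} {M0 : ℕ} {A : Finset (ℚ × ℚ)}
  {F : Finset ℚ} {a b p q L1 L2 : ℕ}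

-- BEGIN en1
private theorem en1_ball {B : Set (Equiv.Perm ℤ)} (N : Subgroup (Subgroup.closure B)) [N.Normal] {l : ℕ}
    {γ : Subgroup.closure B ⧸ N}
    (h : γ ∈ ball ((QuotientGroup.mk' N) '' {g | (g : Equiv.Perm ℤ) ∈ B}) l) :
    ∃ w : Subgroup.closure B, (w : Equiv.Perm ℤ) ∈ ball B l ∧ QuotientGroup.mk' N w = γ := by
  obtain ⟨L, hL1, hL2, rfl⟩ := h
  induction L generalizing l with
  | nil => exact ⟨1, ⟨[], by simp, by simp, rfl⟩, by simp⟩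
  | cons s L ih =>
    rw [List.length_cons] at hL1
    obtain ⟨w, hw, hw2⟩ := ih (l := l - 1) (by omega) (fun x hx => hL2 x (by simp [hx]))
    have hs : ∃ t : Subgroup.closure B, ((t : Equiv.Perm ℤ) ∈ B ∨ (t : Equiv.Perm ℤ)⁻¹ ∈ B) ∧
        QuotientGroup.mk' N t = s := by
      rcases hL2 s (by simp) with ⟨t, ht, h1⟩ | ⟨t, ht, h1⟩
      · exact ⟨t, Or.inl ht, h1⟩
      · refine ⟨t⁻¹, Or.inr ?_, ?_⟩
        · simpa using ht
        · rw [map_inv, h1, inv_inv]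
    obtain ⟨t, ht, ht2⟩ := hs
    refine ⟨t * w, ?_, ?_⟩
    · obtain ⟨L', h1, h2, h3⟩ := hw
      refine ⟨(t : Equiv.Perm ℤ) :: L', ?_, ?_, ?_⟩
      · rw [List.length_cons]
        omega
      · intro x hx
        rcases List.mem_cons.1 hx with rfl | h4
        · exact ht
        · exact h2 x h4
      · rw [List.prod_cons, h3]
        rfl
    · rw [map_mul, ht2, hw2, List.prod_cons]

/-- the germs at `u` form a virtually abelian group, if the kernel is normal and some element is undistorted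
(`ineq2`, `arith2`, `growth_BF`, `BF_poly` and `Gq2.virtAb_of_quad` for the quotient of `closure B` by the kernel) -/
theorem germ_virtAb (B : Finset (Equiv.Perm ℤ)) (hB : ∀ s ∈ B, s ∈ CT)
    (hexp : NoExp (B : Set (Equiv.Perm ℤ))) {u : Ultrafilter ℤ}
    (hK : ∀ h ∈ Subgroup.closure (B : Set (Equiv.Perm ℤ)),
      KS (Subgroup.closure (B : Set (Equiv.Perm ℤ))) (act h u) = KS (Subgroup.closure (B : Set (Equiv.Perm ℤ))) u)
    (hp : p.Prime) (hpa : p ∣ a) (ha : 0 < a) (hb : 2 ≤ b) (hc : Nat.Coprime a b) (hF : ∀ f ∈ F, 0 < f)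
    (hsl : ∀ h ∈ Subgroup.closure (B : Set (Equiv.Perm ℤ)), ∃ f ∈ F, ∃ i j : ℤ,
      sl u h = f * (a : ℚ) ^ i * (b : ℚ) ^ j)
    {g : Equiv.Perm ℤ} (hg : g ∈ Subgroup.closure (B : Set (Equiv.Perm ℤ))) {c0 : ℕ}
    (hund : ∀ (j l : ℕ) (w : Equiv.Perm ℤ), w ∈ ball (B : Set (Equiv.Perm ℤ)) l →
      Gm u (w⁻¹ * g ^ j) (1, 0) → j ≤ c0 * l) :
    ∃ A1 : Subgroup (Equiv.Perm ℤ), A1 ≤ Subgroup.closure (B : Set (Equiv.Perm ℤ)) ∧
      (A1.subgroupOf (Subgroup.closure (B : Set (Equiv.Perm ℤ)))).FiniteIndex ∧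
      ∀ x ∈ A1, ∀ y ∈ A1, Gm u (x * y * x⁻¹ * y⁻¹) (1, 0) := by
  classical
  have hCT : Subgroup.closure (B : Set (Equiv.Perm ℤ)) ≤ CT := (Subgroup.closure_le _).2 fun s hs => hB s hs
  have hS : (B : Set (Equiv.Perm ℤ)).Finite := B.finite_toSet
  set N : Subgroup (Subgroup.closure (B : Set (Equiv.Perm ℤ))) :=
    (KS (Subgroup.closure (B : Set (Equiv.Perm ℤ))) u).subgroupOf (Subgroup.closure (B : Set (Equiv.Perm ℤ)))
    with hN
  have hnorm : N.Normal := by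
    refine ⟨fun n hn h => ?_⟩
    rw [hN, Subgroup.mem_subgroupOf] at hn ⊢
    rw [← hK h h.2]
    refine ⟨?_, ?_⟩
    · exact (h * n * h⁻¹).2
    · exact hn.2.conj_id (hCT h.2)
  obtain ⟨M0, A, hd⟩ := Grm.exists_data B hB
  obtain ⟨C, d, hpoly⟩ := BF_poly (u := u) B hB hexp hK
  obtain ⟨K, hK0, hineq⟩ := ineq2 hS hCT hd hp hpa ha hb hc hF hsl hK
  have hquad := arith2 (β := fun n => (Lgq.BF hS u n).card)
    (fun m n hmn => Finset.card_le_card (Lgq.BF_mono hS hmn)) hpoly hK0 hineq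
  set S' : Set (Subgroup.closure (B : Set (Equiv.Perm ℤ)) ⧸ N) :=
    (QuotientGroup.mk' N) '' {g | (g : Equiv.Perm ℤ) ∈ (B : Set (Equiv.Perm ℤ))} with hS'
  have hfin : S'.Finite := by
    refine Set.Finite.image _ ?_
    exact hS.preimage (Subtype.val_injective.injOn)
  have hgen : Subgroup.closure S' = ⊤ := by
    have h1 : Subgroup.closure {g : Subgroup.closure (B : Set (Equiv.Perm ℤ)) |
        (g : Equiv.Perm ℤ) ∈ (B : Set (Equiv.Perm ℤ))} = ⊤ :=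
      Subgroup.closure_closure_coe_preimage (k := (B : Set (Equiv.Perm ℤ)))
    rw [hS', ← MonoidHom.map_closure, h1, ← MonoidHom.range_eq_map, MonoidHom.range_eq_top]
    exact QuotientGroup.mk'_surjective N
  have hgr : ∀ n, growth S' n = (Lgq.BF hS u n).card := fun n => growth_BF hS hCT (hn := hnorm) n
  obtain ⟨A2, hA2, hcomm⟩ := Gq2.virtAb_of_quad (S := S') hfin hgen (C := C) (d := d)
    (fun n hn => by rw [hgr n]; exact hpoly n hn)
    (fun D => by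
      refine (hquad D).mono ?_
      rintro R ⟨w, h1, h2⟩
      refine ⟨w, h1, ?_⟩
      rw [hgr]
      exact h2)
    (k := QuotientGroup.mk' N ⟨g, hg⟩) (c0 := c0) (by
      intro j l hj
      obtain ⟨w, hw1, hw2⟩ := en1_ball N hj
      refine hund j l w hw1 ?_
      rw [← map_pow] at hw2
      have h3 : w⁻¹ * ⟨g, hg⟩ ^ j ∈ N := QuotientGroup.eq.1 hw2
      rw [hN, Subgroup.mem_subgroupOf] at h3
      simpa using h3.2)
  refine ⟨(A2.comap (QuotientGroup.mk' N)).map (Subgroup.closure (B : Set (Equiv.Perm ℤ))).subtype,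
    Subgroup.map_subtype_le _, ?_, ?_⟩
  · have h1 : ((A2.comap (QuotientGroup.mk' N)).map
        (Subgroup.closure (B : Set (Equiv.Perm ℤ))).subtype).subgroupOf
        (Subgroup.closure (B : Set (Equiv.Perm ℤ))) = A2.comap (QuotientGroup.mk' N) :=
      Subgroup.comap_map_eq_self_of_injective (Subgroup.subtype_injective _) _
    rw [h1]
    refine ⟨?_⟩
    rw [Subgroup.index_comap_of_surjective _ (QuotientGroup.mk'_surjective N)]
    exact hA2.index_ne_zero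
  · rintro _ ⟨x, hx, rfl⟩ _ ⟨y, hy, rfl⟩
    have h1 : QuotientGroup.mk' N (x * y * x⁻¹ * y⁻¹) = 1 := by
      rw [map_mul, map_mul, map_mul, map_inv, map_inv, hcomm _ hx _ hy]
      group
    have h2 : x * y * x⁻¹ * y⁻¹ ∈ N := by
      rw [← QuotientGroup.ker_mk' N]
      exact MonoidHom.mem_ker.2 h1
    rw [hN, Subgroup.mem_subgroupOf] at h2
    exact h2.2
-- END en1

-- BEGIN en2
private theorem en2_ball {B : Set (Equiv.Perm ℤ)} {lB : ℕ} (h : ∀ b ∈ B, b ∈ ball S lB) {w : Equiv.Perm ℤ}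
    {l : ℕ} (hw : w ∈ ball B l) : w ∈ ball S (lB * l) := by
  obtain ⟨L, h1, h2, rfl⟩ := hw
  have hinv : ∀ x : Equiv.Perm ℤ, x ∈ ball S lB → x⁻¹ ∈ ball S lB := by
    rintro x ⟨w, h1, h2, rfl⟩
    refine ⟨(w.map fun y => y⁻¹).reverse, by simpa using h1, ?_, ?_⟩
    · intro y hy
      rw [List.mem_reverse, List.mem_map] at hy
      obtain ⟨z, hz, rfl⟩ := hy
      rcases h2 z hz with h3 | h3
      · right
        rwa [inv_inv]
      · left
        exact h3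
    · rw [List.prod_inv_reverse]
  have key : ∀ L : List (Equiv.Perm ℤ), (∀ x ∈ L, x ∈ B ∨ x⁻¹ ∈ B) → L.prod ∈ ball S (lB * L.length) := by
    intro L
    induction L with
    | nil =>
      intro _
      exact ⟨[], by simp, by simp, rfl⟩
    | cons x L ih =>
      intro hL
      rw [List.prod_cons, List.length_cons, Nat.mul_succ, Nat.add_comm]
      refine ball_mul ?_ (ih fun y hy => hL y (by simp [hy]))
      rcases hL x (by simp) with h3 | h3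
      · exact h x h3
      · have := hinv _ (h _ h3)
        rwa [inv_inv] at this
  exact ball_mono (Nat.mul_le_mul_left _ h1) (key L h2)

private theorem en2_trans {A1 G H : Subgroup (Equiv.Perm ℤ)} (h1 : A1 ≤ G) (h2 : G ≤ H)
    (f1 : (A1.subgroupOf G).FiniteIndex) (f2 : (G.subgroupOf H).FiniteIndex) :
    (A1.subgroupOf H).FiniteIndex := by
  have e1 : A1.relIndex G ≠ 0 := f1.index_ne_zero
  have e2 : G.relIndex H ≠ 0 := f2.index_ne_zero
  have e3 : A1.relIndex H ≠ 0 := by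
    rw [← Subgroup.relIndex_mul_relIndex A1 G H h1 h2]
    exact Nat.mul_ne_zero e1 e2
  exact ⟨e3⟩

/-- the final step in the setting: `exists_rec`, `lemX`, `undist`, `fin_kernels`, `Lgq.types_of_fin`, `exists_norm`,
`Lgp.fg_of_fi`, `Uhy.exp_of_sub`, and `germ_virtAb` for a finite generating set `B` of the stabiliser of the kernel -/
theorem T1.virtAb (R : T1 S M M0 A F a b p q L1 L2) (hexp : NoExp S) : ∃ v ∈ M,
    ∃ A1 : Subgroup (Equiv.Perm ℤ), A1 ≤ Subgroup.closure S ∧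
      (A1.subgroupOf (Subgroup.closure S)).FiniteIndex ∧
      ∀ x ∈ A1, ∀ y ∈ A1, Gm v (x * y * x⁻¹ * y⁻¹) (1, 0) := by
  classical
  obtain ⟨c0, hc0⟩ := R.exists_rec
  obtain ⟨c1, hc1⟩ := R.lemX hexp
  obtain ⟨c2, C, hc2⟩ := R.undist hexp
  set c : ℕ := max c0 (max c1 c2) with hc
  have k0 : c0 ≤ c := le_max_left _ _
  have k1 : c1 ≤ c := (le_max_left _ _).trans (le_max_right _ _)
  have k2 : c2 ≤ c := (le_max_right _ _).trans (le_max_right _ _)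
  obtain ⟨x, hx⟩ := R.mnl.ne
  obtain ⟨h, hh, ρ, hrec, κ, κ', g, r, r', hκ, _, hg, hmk, _, hrec'⟩ := hc0 c k0 L2 R.l12 R.L20 x hx
  have hv := R.mnl.mem hh hx
  set v := act h x with hvdef
  have hgv := R.mnl.mem hg hv
  have hX := hc1 c k1 L2 dvd_rfl R.L20
  have hKg : KS (Subgroup.closure S) (act g v) = KS (Subgroup.closure S) v := by
    refine le_antisymm ?_ ?_
    · rintro f ⟨hf1, hf2⟩
      exact ⟨hf1, hX _ hgv _ hv ρ hrec' hrec f hf1 hf2⟩
    · rintro f ⟨hf1, hf2⟩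
      exact ⟨hf1, hX _ hv _ hgv ρ hrec hrec' f hf1 hf2⟩
  obtain ⟨T0, K0, hT0, hT0'⟩ := R.fin_kernels hexp
  obtain ⟨T, hT, htype⟩ := Lgq.types_of_fin R.hCT R.mnl hv hT0 hT0'
  obtain ⟨G, hGH, hGfi, hG⟩ := exists_norm R.hCT hT htype
  have hHfg : (Subgroup.closure S).FG := ⟨R.fin.toFinset, by rw [R.fin.coe_toFinset]⟩
  obtain ⟨B, hB⟩ := fg_of_fi hHfg hGH hGfi
  have hBH : ∀ s ∈ B, s ∈ Subgroup.closure S := by
    intro s hs
    apply hGH
    rw [← hB]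
    exact Subgroup.subset_closure (Finset.mem_coe.2 hs)
  have hexpB : NoExp (B : Set (Equiv.Perm ℤ)) := by
    intro hex
    have h1 := Pool.Agent.Uhy.exp_of_sub R.fin.toFinset B
      (by intro b hb; rw [R.fin.coe_toFinset]; exact hBH b hb) hex
    rw [R.fin.coe_toFinset] at h1
    exact hexp h1
  obtain ⟨lB, hlB⟩ : ∃ lB : ℕ, ∀ b ∈ (B : Set (Equiv.Perm ℤ)), b ∈ ball S lB := by
    have h1 : ∀ t : Equiv.Perm ℤ, ∃ m : ℕ, t ∈ B → t ∈ ball S m := by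
      intro t
      by_cases ht : t ∈ B
      · obtain ⟨m, hm⟩ := mem_ball_of_closure (hBH t ht)
        exact ⟨m, fun _ => hm⟩
      · exact ⟨0, fun h => absurd h ht⟩
    choose m hm using h1
    exact ⟨B.sup m, fun t ht => ball_mono (Finset.le_sup (Finset.mem_coe.1 ht)) (hm t (Finset.mem_coe.1 ht))⟩
  have hb2 : 2 ≤ b := R.qp.two_le.trans (Nat.le_of_dvd R.b0 R.qb)
  have hgG : g ∈ Subgroup.closure (B : Set (Equiv.Perm ℤ)) := by
    rw [hB]
    exact (hG g).2 ⟨hg, hKg⟩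
  obtain ⟨A1, hA1, hA1fi, hA1c⟩ := germ_virtAb (F := F) (a := a) (b := b) (p := p) B
    (fun s hs => R.hCT (hBH s hs)) hexpB (u := v) (by
      intro k hk
      rw [hB] at hk ⊢
      obtain ⟨hk1, hk2⟩ := (hG k).1 hk
      ext f
      constructor
      · rintro ⟨hf1, hf2⟩
        have h3 : f ∈ KS (Subgroup.closure S) (act k v) := ⟨hGH hf1, hf2⟩
        rw [hk2] at h3
        exact ⟨hf1, h3.2⟩
      · rintro ⟨hf1, hf2⟩
        have h3 : f ∈ KS (Subgroup.closure S) v := ⟨hGH hf1, hf2⟩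
        rw [← hk2] at h3
        exact ⟨hf1, h3.2⟩)
    R.pp R.pa R.a0 hb2 R.cop R.fpos (by
      intro k hk
      rw [hB] at hk
      exact R.slope v hv k (hGH hk)) hgG (c0 := C * lB) (by
      intro j l w hw hgm
      have h1 := hc2 c k2 L2 dvd_rfl R.L20 v hv ρ hrec κ κ' g r r' hκ hg hmk j (lB * l) w
        (en2_ball hlB hw) hgm
      rw [← Nat.mul_assoc] at h1
      exact h1)
  rw [hB] at hA1 hA1fi
  exact ⟨v, hv, A1, hA1.trans hGH, en2_trans hA1 hGH hA1fi hGfi, hA1c⟩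
-- END en2

-- BEGIN en3
/-- as the end of `Lgq.R1.locAb` -/
theorem locAb_of_virtAb {H : Subgroup (Equiv.Perm ℤ)} (hH : H ≤ CT) {v : Ultrafilter ℤ}
    {A1 : Subgroup (Equiv.Perm ℤ)} (hfi : (A1.subgroupOf H).FiniteIndex)
    (hA : ∀ x ∈ A1, ∀ y ∈ A1, Gm v (x * y * x⁻¹ * y⁻¹) (1, 0)) {y : ℕ → ℤ} (hy : Rep v y) :
    LocAb H y := by
  obtain ⟨Lc, hL1, hL2, hL3, hL4⟩ := exists_core hfi
  refine ⟨Lc, hL2, hL3, fun p hp q hq w hw => ?_⟩
  have hp' : w⁻¹ * p * w ∈ A1 := by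
    have := hL4 w⁻¹ (inv_mem hw) p hp
    rw [inv_inv] at this
    exact hL1 this
  have hq' : w⁻¹ * q * w ∈ A1 := by
    have := hL4 w⁻¹ (inv_mem hw) q hq
    rw [inv_inv] at this
    exact hL1 this
  have hcom : Gm v (w⁻¹ * (p * q * p⁻¹ * q⁻¹) * w) (1, 0) := by
    have e3 : w⁻¹ * (p * q * p⁻¹ * q⁻¹) * w =
        (w⁻¹ * p * w) * (w⁻¹ * q * w) * (w⁻¹ * p * w)⁻¹ * (w⁻¹ * q * w)⁻¹ := by group
    rw [e3]
    exact hA _ hp' _ hq'
  obtain ⟨i0, hi0⟩ := hcom.germ hy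
  refine ⟨i0, fun n hn => ?_⟩
  have h1 := hi0 n hn
  simp only [one_mul, add_zero] at h1
  have h2 : (w⁻¹ * (p * q * p⁻¹ * q⁻¹) * w) n = n := by exact_mod_cast h1
  have h3 : w⁻¹ ((p * q * p⁻¹ * q⁻¹) (w n)) = n := by
    simpa only [Equiv.Perm.mul_apply] using h2
  have h4 : (p * q * p⁻¹ * q⁻¹) (w n) = w n := by
    have : w (w⁻¹ ((p * q * p⁻¹ * q⁻¹) (w n))) = (p * q * p⁻¹ * q⁻¹) (w n) :=
      w.apply_symm_apply _
    rw [h3] at this
    exact this.symm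
  exact h4
-- END en3

-- BEGIN en4
/-- the data (as `Lgp.exists_R0`) -/
theorem exists_T0 (S : Finset (Equiv.Perm ℤ)) (hS : ∀ s ∈ S, s ∈ CT) {y : ℕ → ℤ} (hy : Pro y)
    {a b p q : ℕ} {F : Finset ℚ} (ha : 0 < a) (hb : 0 < b) (hc : Nat.Coprime a b) (hp : p.Prime)
    (hpa : p ∣ a) (hq : q.Prime) (hqb : q ∣ b)
    (h : ∀ g ∈ Subgroup.closure (S : Set (Equiv.Perm ℤ)), ∀ c : ℚ × ℚ, Germ y g c →
      ∃ f ∈ F, ∃ i j : ℤ, c.1 = f * (a : ℚ) ^ i * (b : ℚ) ^ j) :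
    ∃ (u : Ultrafilter ℤ) (M : Set (Ultrafilter ℤ)) (M0 : ℕ) (A : Finset (ℚ × ℚ)) (F' : Finset ℚ)
      (L1 L2 : ℕ), Rep u y ∧ M ⊆ orb (Subgroup.closure (S : Set (Equiv.Perm ℤ))) u ∧
        T0 (S : Set (Equiv.Perm ℤ)) M M0 A F' a b p q L1 L2 := by
  classical
  set H := Subgroup.closure (S : Set (Equiv.Perm ℤ)) with hH
  have hHCT : H ≤ CT := (Subgroup.closure_le _).2 fun s hs => hS s hs
  obtain ⟨u, hu⟩ := exists_uf hy
  obtain ⟨M, hMu, hM⟩ := exists_mnl (orb_closed H u) ⟨u, orb_self H u⟩ (orb_inv H u)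
  obtain ⟨M0, A, hd⟩ := Pool.Agent.Grm.exists_data S hS
  have haq : (0 : ℚ) < a := by exact_mod_cast ha
  have hbq : (0 : ℚ) < b := by exact_mod_cast hb
  -- positive representatives
  set Fp : Finset ℚ := F.filter fun f => 0 < f with hFp
  have hFp1 : ∀ g ∈ H, ∃ f ∈ Fp, ∃ i j : ℤ, sl u g = f * (a : ℚ) ^ i * (b : ℚ) ^ j := by
    intro g hg
    obtain ⟨f, hf, i, j, hk⟩ := h g hg _ ((gm_sl (u := u) (hHCT hg)).germ hu)
    simp only at hk
    refine ⟨f, Finset.mem_filter.2 ⟨hf, ?_⟩, i, j, hk⟩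
    have h1 : 0 < sl u g := sl_pos (hHCT hg)
    rw [hk, mul_assoc] at h1
    exact (pos_iff_pos_of_mul_pos h1).2 (mul_pos (zpow_pos haq i) (zpow_pos hbq j))
  set F2 : Finset ℚ := (Fp ×ˢ Fp).image (fun c => c.1 / c.2) with hF2
  have hF2p : ∀ f ∈ F2, 0 < f := by
    intro f hf
    obtain ⟨c, hc, rfl⟩ := Finset.mem_image.1 hf
    obtain ⟨h1, h2⟩ := Finset.mem_product.1 hc
    exact div_pos (Finset.mem_filter.1 h1).2 (Finset.mem_filter.1 h2).2
  obtain ⟨L1, _, hL1, _, hl1, _⟩ := exists_mult F2 hF2p M0 hd.pos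
  obtain ⟨L2, _, hL2, _, hl2, _⟩ := exists_mult F2 hF2p L1 hL1
  refine ⟨u, M, M0, A, F2, L1, L2 * L1, hu, hMu, ?_⟩
  refine { fin := S.finite_toSet, hCT := hHCT, hd := hd, mnl := hM, a0 := ha, b0 := hb, cop := hc,
           pp := hp, pa := hpa, qp := hq, qb := hqb, slope := ?_, fpos := hF2p, L10 := hL1,
           L20 := Nat.mul_pos hL2 hL1, l1 := hl1, l12 := Dvd.intro_left _ rfl, l2 := ?_ }
  · intro v hv g' hg'
    obtain ⟨r, Q, hQ, hr, hloc⟩ := sl_loc (u := v) (hHCT hg')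
    obtain ⟨g, hg, hgr⟩ := orb_hit (hMu hv) hr
    have h1 := sl_eq (hloc _ hgr)
    have h2 := sl_mul (u := u) (hHCT hg') (hHCT hg)
    obtain ⟨f, hf, i, j, hk⟩ := hFp1 g hg
    obtain ⟨f', hf', i', j', hk'⟩ := hFp1 _ (mul_mem hg' hg)
    refine ⟨f' / f, Finset.mem_image.2 ⟨(f', f), Finset.mem_product.2 ⟨hf', hf⟩, rfl⟩, i' - i, j' - j, ?_⟩
    have hf0 : f ≠ 0 := (Finset.mem_filter.1 hf).2.ne'
    have hi0 : (a : ℚ) ^ i ≠ 0 := zpow_ne_zero _ haq.ne'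
    have hj0 : (b : ℚ) ^ j ≠ 0 := zpow_ne_zero _ hbq.ne'
    rw [hk', h1, hk] at h2
    simp only at h2
    rw [zpow_sub₀ haq.ne', zpow_sub₀ hbq.ne']
    field_simp
    linear_combination -h2
  · intro f hf
    obtain ⟨t, ht⟩ := hl2 f hf
    refine ⟨t * L1, ?_⟩
    push_cast
    linear_combination (L1 : ℚ) * ht
-- END en4

-- BEGIN en5
/-- large slopes on classes which meet `M` are large slopes on classes which meet the orbit of `y` -/
theorem noBig_or {S : Set (Equiv.Perm ℤ)} (hCT : Subgroup.closure S ≤ CT) {M : Set (Ultrafilter ℤ)}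
    {u : Ultrafilter ℤ} {y : ℕ → ℤ} (hu : Rep u y) (hM : M ⊆ orb (Subgroup.closure S) u) :
    NoBig S M ∨ BigImage (Subgroup.closure S) y := by
  by_cases hnb : NoBig S M
  · exact Or.inl hnb
  right
  unfold NoBig at hnb
  push Not at hnb
  obtain ⟨L, hL, hk⟩ := hnb
  refine ⟨L, hL, fun k => ?_⟩
  obtain ⟨x, hx, h, hh, r, σ, τ, hr, haff, hσ⟩ := hk (k : ℚ)
  obtain ⟨c, hc, hcr⟩ := orb_hit (hM hx) hr
  refine ⟨c, hc, h, hh, (σ, τ), hσ.le, ?_⟩
  have hg := (gm_sl (u := u) (hCT hc)).germ hu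
  obtain ⟨i0, h0⟩ := germ_cont hu.pro hg L hL
  refine ⟨i0, fun n hn t => ?_⟩
  obtain ⟨m, hm1, hm2⟩ := Lgp.nonempty_of_mem (inter_mem (hu i0) (mem_act.1 hcr))
  have e1 := h0 i0 le_rfl m hm1
  have e2 := h0 i0 le_rfl n hn
  have e3 : ((L : ℕ) : ℤ) ∣ c m - r := hm2
  refine haff _ ?_
  rw [mem_cl]
  have e4 : c n + L * t - r = (c n - c (y i0)) - (c m - c (y i0)) + (c m - r) + L * t := by ring
  rw [e4]
  exact dvd_add (dvd_add (dvd_sub e2 e1) e3) (Dvd.intro _ rfl)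
-- END en5

/-- The slopes of the germs at `y` of the elements of `H` are `f a ^ i b ^ j` with `f` in a finite set and coprime
`a`, `b`; for a prime `p ∣ a` the `p`-adic valuations of the slopes of the germs are unbounded above at every point of
the closure of the orbit of `y`, or unbounded below at every such point. -/
def TwoSlopes (H : Subgroup (Equiv.Perm ℤ)) (y : ℕ → ℤ) : Prop :=
  ∃ (a b p : ℕ) (F : Finset ℚ), 0 < a ∧ 2 ≤ b ∧ Nat.Coprime a b ∧ p.Prime ∧ p ∣ a ∧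
    (∀ g ∈ H, ∀ c : ℚ × ℚ, Germ y g c → ∃ f ∈ F, ∃ i j : ℤ, c.1 = f * (a : ℚ) ^ i * (b : ℚ) ^ j) ∧
    ((∀ z : ℕ → ℤ, Pro z → Clo H y z → ∀ C : ℤ, ∃ g ∈ H, ∃ c : ℚ × ℚ, Germ z g c ∧ C ≤ padicValRat p c.1) ∨
      ∀ z : ℕ → ℤ, Pro z → Clo H y z → ∀ C : ℤ, ∃ g ∈ H, ∃ c : ℚ × ℚ, Germ z g c ∧ padicValRat p c.1 ≤ C)

-- BEGIN en6
/-- the conclusion in rank two -/
theorem locAb_of_twoSlopes (S : Finset (Equiv.Perm ℤ)) (hS : ∀ s ∈ S, s ∈ CT)
    (hexp : NoExp (S : Set (Equiv.Perm ℤ))) {y : ℕ → ℤ} (hy : Pro y)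
    (hap : AlmPer (Subgroup.closure (S : Set (Equiv.Perm ℤ))) y)
    (h : TwoSlopes (Subgroup.closure (S : Set (Equiv.Perm ℤ))) y) :
    ∃ z : ℕ → ℤ, Pro z ∧ Clo (Subgroup.closure (S : Set (Equiv.Perm ℤ))) y z ∧
      LocAb (Subgroup.closure (S : Set (Equiv.Perm ℤ))) z := by
  obtain ⟨a, b, p, F, ha, hb, hc, hp, hpa, hsl, halt⟩ := h
  obtain ⟨u, M, M0, A, F', L1, L2, hu, hMu, R⟩ := exists_T0 S hS hy ha (by omega) hc hp hpa
    (Nat.minFac_prime (show b ≠ 1 by omega)) (Nat.minFac_dvd b) hsl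
  have hHCT := R.hCT
  rcases noBig_or hHCT hu hMu with hnb | hbig
  · -- the end of the proof, for a setting with ascents
    have fin : ∀ {a' b' p' q' : ℕ}, T1 (S : Set (Equiv.Perm ℤ)) M M0 A F' a' b' p' q' L1 L2 →
        ∃ z : ℕ → ℤ, Pro z ∧ Clo (Subgroup.closure (S : Set (Equiv.Perm ℤ))) y z ∧
          LocAb (Subgroup.closure (S : Set (Equiv.Perm ℤ))) z := by
      intro a' b' p' q' R1
      obtain ⟨v, hv, A1, _, hfi, hA⟩ := R1.virtAb hexp
      obtain ⟨z, hz⟩ := exists_rep v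
      exact ⟨z, hz.pro, clo_of_orb hHCT hu hz (hMu hv), locAb_of_virtAb hHCT hfi hA hz⟩
    rcases halt with hup | hdn
    · refine fin (a' := a) (b' := b) (p' := p) (q' := b.minFac) { R with up := ?_, nb := hnb }
      intro v hv C
      obtain ⟨z, hz⟩ := exists_rep v
      obtain ⟨g, hg, c, hgc, hC⟩ := hup z hz.pro (clo_of_orb hHCT hu hz (hMu hv)) C
      refine ⟨g, hg, ?_⟩
      unfold vh
      rw [sl_eq (gm_of_germ hz hgc)]
      exact hC
    · have hdn' : ∀ v ∈ M, ∀ C : ℤ, ∃ h ∈ Subgroup.closure (S : Set (Equiv.Perm ℤ)), vh p v h ≤ C := by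
        intro v hv C
        obtain ⟨z, hz⟩ := exists_rep v
        obtain ⟨g, hg, c, hgc, hC⟩ := hdn z hz.pro (clo_of_orb hHCT hu hz (hMu hv)) C
        refine ⟨g, hg, ?_⟩
        unfold vh
        rw [sl_eq (gm_of_germ hz hgc)]
        exact hC
      exact fin (a' := b) (b' := a) (p' := b.minFac) (q' := p)
        { R.swap with up := R.down_up hnb hdn', nb := hnb }
  · exact ⟨y, hy, fun j => ⟨1, one_mem _, j, fun _ hn => hn⟩, Lgo.locAb_of_bigImage_almPer S hS hexp hy hap hbig⟩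
-- END en6

end Pool.Agent.Gr2
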