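import Pool.Agent.Lgq.Fin
import Pool.Agent.Lgp.Rone

/-!
# Heights: the valuations of the slopes

Two coprime numbers `a`, `b`; the slopes are `f a ^ i b ^ j` with `f` in a finite set.
-/

namespace Pool.Agent.Gr2

open Pool.Agent.CTm Pool.Agent.Grm Pool.Agent.Lgp Filter Nat Topology

/-- the `p`-adic height -/
noncomputable def vh (p : ℕ) (u : Ultrafilter ℤ) (h : Equiv.Perm ℤ) : ℤ := padicValRat p (sl u h)

-- BEGIN ht1
theorem vh_mul {p : ℕ} (hp : p.Prime) {u : Ultrafilter ℤ} {g h : Equiv.Perm ℤ} (hg : g ∈ CT)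
    (hh : h ∈ CT) : vh p u (g * h) = vh p (act h u) g + vh p u h := by
  have : Fact p.Prime := ⟨hp⟩
  unfold vh
  rw [sl_mul hg hh]
  exact padicValRat.mul (sl_pos hg).ne' (sl_pos hh).ne'

theorem vh_one {p : ℕ} {u : Ultrafilter ℤ} : vh p u 1 = 0 := by
  unfold vh
  rw [sl_one]
  exact padicValRat.one

theorem vh_loc {p : ℕ} {u : Ultrafilter ℤ} {h : Equiv.Perm ℤ} (hh : h ∈ CT) :
    ∃ (r : ℤ) (Q : ℕ), 0 < Q ∧ cl r Q ∈ u ∧ ∀ v : Ultrafilter ℤ, cl r Q ∈ v →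
      vh p v h = vh p u h := by
  obtain ⟨r, Q, hQ, h1, h2⟩ := sl_loc (u := u) hh
  refine ⟨r, Q, hQ, h1, fun v hv => ?_⟩
  unfold vh
  rw [sl_eq (h2 v hv)]

theorem letter_vh {S : Set (Equiv.Perm ℤ)} {M0 : ℕ} {A : Finset (ℚ × ℚ)} (hd : Data S M0 A) (p : ℕ) :
    ∃ C : ℕ, ∀ (u : Ultrafilter ℤ) (s : Equiv.Perm ℤ), (s ∈ S ∨ s⁻¹ ∈ S) → |vh p u s| ≤ C := by
  refine ⟨∑ c ∈ A, (padicValRat p c.1).natAbs, fun u s hs => ?_⟩
  obtain ⟨r, hr⟩ := exists_cl u M0 hd.pos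
  obtain ⟨c, hc, h1⟩ := hd.aff s hs r
  have hg : Gm u s c := ⟨r, M0, hd.pos, hr, fun n hn => h1 n hn⟩
  unfold vh
  rw [sl_eq hg]
  have h2 : (padicValRat p c.1).natAbs ≤ ∑ c ∈ A, (padicValRat p c.1).natAbs :=
    Finset.single_le_sum (f := fun c : ℚ × ℚ => (padicValRat p c.1).natAbs)
      (fun c _ => Nat.zero_le _) hc
  have h3 : |padicValRat p c.1| = ((padicValRat p c.1).natAbs : ℤ) := (Int.natCast_natAbs _).symm
  rw [h3]
  exact_mod_cast h2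

theorem word_vh {p : ℕ} (hp : p.Prime) {S : Set (Equiv.Perm ℤ)} (hCT : Subgroup.closure S ≤ CT) {C : ℕ}
    (h : ∀ (u : Ultrafilter ℤ) (s : Equiv.Perm ℤ), (s ∈ S ∨ s⁻¹ ∈ S) → |vh p u s| ≤ C)
    (u : Ultrafilter ℤ) (l : List (Equiv.Perm ℤ)) (hl : Ltr S l) {n : ℕ} (hn : l.length ≤ n) :
    |vh p u l.prod| ≤ C * n := by
  have key : |vh p u l.prod| ≤ C * l.length := by
    clear hn
    induction l with
    | nil =>
      rw [List.prod_nil, vh_one]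
      simp
    | cons s l ih =>
      have hl' : Ltr S l := hl.suffix (List.suffix_cons s l)
      have hs' := hl s (by simp)
      have h1 := ih hl'
      have h2 := h (act l.prod u) s hs'
      rw [List.prod_cons, vh_mul hp (hCT (gen_mem hs')) (hCT hl'.mem), List.length_cons]
      refine (abs_add_le _ _).trans ?_
      push_cast
      linarith
  refine key.trans ?_
  have h1 : (l.length : ℤ) ≤ n := by exact_mod_cast hn
  have h2 : (0 : ℤ) ≤ C := Int.natCast_nonneg C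
  exact mul_le_mul_of_nonneg_left h1 h2
-- END ht1

section val
variable {a b p q : ℕ} {F : Finset ℚ}

-- BEGIN ht2
private theorem ht2_val {a b p : ℕ} (hp : p.Prime) (hpa : p ∣ a) (ha : 0 < a) (hb : 0 < b)
    (hc : Nat.Coprime a b) {f : ℚ} (hf : 0 < f) (i j : ℤ) :
    padicValRat p (f * (a : ℚ) ^ i * (b : ℚ) ^ j) =
      padicValRat p f + i * (padicValNat p a : ℤ) ∧ 1 ≤ padicValNat p a := by
  have : Fact p.Prime := ⟨hp⟩
  have ha0 : (a : ℚ) ≠ 0 := by exact_mod_cast ha.ne'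
  have hb0 : (b : ℚ) ≠ 0 := by exact_mod_cast hb.ne'
  have hpb : ¬ p ∣ b := fun h => hp.one_lt.ne' (Nat.dvd_one.1 (hc ▸ Nat.dvd_gcd hpa h))
  refine ⟨?_, one_le_padicValNat_of_dvd ha.ne' hpa⟩
  rw [padicValRat.mul (mul_ne_zero hf.ne' (zpow_ne_zero _ ha0)) (zpow_ne_zero _ hb0),
    padicValRat.mul hf.ne' (zpow_ne_zero _ ha0), padicValRat.zpow, padicValRat.zpow,
    padicValRat.of_nat, padicValRat.of_nat, padicValNat.eq_zero_of_not_dvd hpb]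
  simp

/-- a bound for the valuations of a finite set -/
private theorem ht2_bd (p : ℕ) (F : Finset ℚ) : ∃ B : ℕ, ∀ f ∈ F, |padicValRat p f| ≤ B := by
  refine ⟨∑ c ∈ F, (padicValRat p c).natAbs, fun f hf => ?_⟩
  have h2 : (padicValRat p f).natAbs ≤ ∑ c ∈ F, (padicValRat p c).natAbs :=
    Finset.single_le_sum (f := fun c : ℚ => (padicValRat p c).natAbs)
      (fun c _ => Nat.zero_le _) hf
  have h3 : |padicValRat p f| = ((padicValRat p f).natAbs : ℤ) := (Int.natCast_natAbs _).symm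
  rw [h3]
  exact_mod_cast h2

private theorem ht2_low {v i c : ℤ} {B k : ℕ} (hk : 1 ≤ k) (hv : |v| ≤ B) (h : -c ≤ v + i * (k : ℤ)) :
    -((B + c.natAbs : ℕ) : ℤ) ≤ i := by
  have hk' : (1 : ℤ) ≤ k := by exact_mod_cast hk
  have hv' := abs_le.1 hv
  push_cast
  have h5 := le_abs_self c
  have h6 := abs_nonneg c
  rcases le_or_gt 0 i with hi | hi
  · have : (0 : ℤ) ≤ B := Int.natCast_nonneg B
    linarith
  · have h7 : i * (k : ℤ) ≤ i * 1 := mul_le_mul_of_nonpos_left hk' hi.le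
    linarith [hv'.2]

/-- the valuation at a prime divisor of `a` -/
theorem val_a (hp : p.Prime) (hpa : p ∣ a) (ha : 0 < a) (hb : 0 < b) (hc : Nat.Coprime a b) {f : ℚ}
    (hf : 0 < f) (i j : ℤ) : padicValRat p (f * (a : ℚ) ^ i * (b : ℚ) ^ j) =
      padicValRat p f + i * (padicValNat p a : ℤ) ∧ 1 ≤ padicValNat p a :=
  ht2_val hp hpa ha hb hc hf i j

theorem val_b (hq : q.Prime) (hqb : q ∣ b) (ha : 0 < a) (hb : 0 < b) (hc : Nat.Coprime a b) {f : ℚ}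
    (hf : 0 < f) (i j : ℤ) : padicValRat q (f * (a : ℚ) ^ i * (b : ℚ) ^ j) =
      padicValRat q f + j * (padicValNat q b : ℤ) ∧ 1 ≤ padicValNat q b := by
  have h := ht2_val hq hqb hb ha hc.symm hf j i
  rw [mul_right_comm]
  exact h

theorem lowa (hp : p.Prime) (hpa : p ∣ a) (ha : 0 < a) (hb : 0 < b) (hc : Nat.Coprime a b)
    (hF : ∀ f ∈ F, 0 < f) (c : ℤ) : ∃ α : ℕ, ∀ f ∈ F, ∀ i j : ℤ,
      -c ≤ padicValRat p (f * (a : ℚ) ^ i * (b : ℚ) ^ j) → -(α : ℤ) ≤ i := by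
  obtain ⟨B, hB⟩ := ht2_bd p F
  refine ⟨B + c.natAbs, fun f hf i j h => ?_⟩
  obtain ⟨h1, h2⟩ := val_a hp hpa ha hb hc (hF f hf) i j
  rw [h1] at h
  exact ht2_low h2 (hB f hf) h

theorem lowb (hq : q.Prime) (hqb : q ∣ b) (ha : 0 < a) (hb : 0 < b) (hc : Nat.Coprime a b)
    (hF : ∀ f ∈ F, 0 < f) (c : ℤ) : ∃ β : ℕ, ∀ f ∈ F, ∀ i j : ℤ,
      -c ≤ padicValRat q (f * (a : ℚ) ^ i * (b : ℚ) ^ j) → -(β : ℤ) ≤ j := by
  obtain ⟨B, hB⟩ := ht2_bd q F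
  refine ⟨B + c.natAbs, fun f hf i j h => ?_⟩
  obtain ⟨h1, h2⟩ := val_b hq hqb ha hb hc (hF f hf) i j
  rw [h1] at h
  exact ht2_low h2 (hB f hf) h

theorem higha (hp : p.Prime) (hpa : p ∣ a) (ha : 0 < a) (hb : 0 < b) (hc : Nat.Coprime a b)
    (hF : ∀ f ∈ F, 0 < f) (α : ℕ) : ∃ K : ℤ, 0 ≤ K ∧ ∀ f ∈ F, ∀ i j : ℤ,
      K ≤ padicValRat p (f * (a : ℚ) ^ i * (b : ℚ) ^ j) → (α : ℤ) ≤ i := by
  obtain ⟨B, hB⟩ := ht2_bd p F
  have hB0 : (0 : ℤ) ≤ B := Int.natCast_nonneg B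
  have hα0 : (0 : ℤ) ≤ α := Int.natCast_nonneg α
  have hk0 : (0 : ℤ) ≤ padicValNat p a := Int.natCast_nonneg _
  refine ⟨B + α * padicValNat p a, add_nonneg hB0 (mul_nonneg hα0 hk0), fun f hf i j h => ?_⟩
  obtain ⟨h1, h2⟩ := val_a hp hpa ha hb hc (hF f hf) i j
  rw [h1] at h
  have hv := (abs_le.1 (hB f hf)).2
  have hk : (0 : ℤ) < padicValNat p a := by exact_mod_cast h2
  have h3 : (α : ℤ) * padicValNat p a ≤ i * padicValNat p a := by linarith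
  exact le_of_mul_le_mul_right h3 hk
-- END ht2

-- BEGIN ht3
/-- a large valuation at `p ∣ a` and a bounded denominator at `b`: the number is large -/
theorem big_ab (hp : p.Prime) (hpa : p ∣ a) (ha : 0 < a) (hb : 0 < b) (hc : Nat.Coprime a b)
    (hF : ∀ f ∈ F, 0 < f) (β : ℕ) (k : ℚ) : ∃ K : ℤ, ∀ f ∈ F, ∀ i j : ℤ,
      K ≤ padicValRat p (f * (a : ℚ) ^ i * (b : ℚ) ^ j) → -(β : ℤ) ≤ j →
        k < f * (a : ℚ) ^ i * (b : ℚ) ^ j := by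
  have ha1 : (1 : ℚ) < a := by
    have h1 : p ≤ a := Nat.le_of_dvd ha hpa
    have h2 := hp.two_le
    exact_mod_cast (by omega : 1 < a)
  have hb1 : (1 : ℚ) ≤ b := by exact_mod_cast hb
  have hb0 : (0 : ℚ) < b := by exact_mod_cast hb
  obtain ⟨B, hB⟩ := Finset.exists_le (F.image fun f => padicValRat p f)
  have hB' : ∀ f ∈ F, padicValRat p f ≤ B := fun f hf =>
    hB _ (Finset.mem_image_of_mem _ hf)
  have hev : ∀ᶠ n : ℕ in atTop, ∀ f ∈ F, k * (b : ℚ) ^ β < f * (a : ℚ) ^ n := by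
    refine (Filter.eventually_all_finset F).2 fun f hf => ?_
    have h1 : Tendsto (fun n : ℕ => f * (a : ℚ) ^ n) atTop atTop :=
      (tendsto_pow_atTop_atTop_of_one_lt ha1).const_mul_atTop (hF f hf)
    exact h1.eventually_gt_atTop _
  obtain ⟨n, hn⟩ := hev.exists
  refine ⟨B + n * (padicValNat p a : ℤ), fun f hf i j h1 h2 => ?_⟩
  obtain ⟨h3, h4⟩ := val_a hp hpa ha hb hc (hF f hf) i j
  rw [h3] at h1
  have h5 := hB' f hf
  have h6 : (n : ℤ) * (padicValNat p a : ℤ) ≤ i * (padicValNat p a : ℤ) := by linarith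
  have h7 : (0 : ℤ) < (padicValNat p a : ℤ) := by exact_mod_cast h4
  have h8 : (n : ℤ) ≤ i := le_of_mul_le_mul_right h6 h7
  have h9 : (a : ℚ) ^ n ≤ (a : ℚ) ^ i := by
    rw [← zpow_natCast]
    exact zpow_le_zpow_right₀ ha1.le h8
  have h10 : ((b : ℚ) ^ β)⁻¹ ≤ (b : ℚ) ^ j := by
    rw [← zpow_natCast, ← zpow_neg]
    exact zpow_le_zpow_right₀ hb1 h2
  have h11 : (0 : ℚ) < (b : ℚ) ^ β := pow_pos hb0 _
  have h12 : k < f * (a : ℚ) ^ n * ((b : ℚ) ^ β)⁻¹ := by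
    rw [← div_eq_mul_inv, lt_div_iff₀ h11]
    exact hn f hf
  have h13 : (0 : ℚ) < (a : ℚ) ^ n := pow_pos (by linarith) _
  have h14 : f * (a : ℚ) ^ n ≤ f * (a : ℚ) ^ i := mul_le_mul_of_nonneg_left h9 (hF f hf).le
  have h15 : 0 ≤ f * (a : ℚ) ^ i := (mul_pos (hF f hf) (lt_of_lt_of_le h13 h9)).le
  exact h12.trans_le (mul_le_mul h14 h10 (inv_nonneg.2 h11.le) h15)

/-- boxes -/
theorem box2 (ha : 0 < a) (hb : 0 < b) {f : ℚ} {L L' : ℕ} {t : ℤ} (h : f * L = L' * t) {i j : ℤ}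
    {α β α' β' : ℕ} (h1 : (α' : ℤ) ≤ α + i) (h2 : (β' : ℤ) ≤ β + j) :
    ∃ t' : ℤ, f * (a : ℚ) ^ i * (b : ℚ) ^ j * ((L * a ^ α * b ^ β : ℕ) : ℚ) =
      ((L' * a ^ α' * b ^ β' : ℕ) : ℚ) * t' := by
  have ha0 : (a : ℚ) ≠ 0 := by exact_mod_cast ha.ne'
  have hb0 : (b : ℚ) ≠ 0 := by exact_mod_cast hb.ne'
  obtain ⟨m, hm⟩ : ∃ m : ℕ, (α : ℤ) + i = α' + m :=
    ⟨(α + i - α').toNat, by rw [Int.toNat_of_nonneg (by omega)]; ring⟩
  obtain ⟨n, hn⟩ : ∃ n : ℕ, (β : ℤ) + j = β' + n :=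
    ⟨(β + j - β').toNat, by rw [Int.toNat_of_nonneg (by omega)]; ring⟩
  refine ⟨t * (a : ℤ) ^ m * (b : ℤ) ^ n, ?_⟩
  have h3 : (a : ℚ) ^ i * (a : ℚ) ^ α = (a : ℚ) ^ α' * (a : ℚ) ^ m := by
    rw [← zpow_natCast (a : ℚ) α, ← zpow_natCast (a : ℚ) α', ← zpow_natCast (a : ℚ) m,
      ← zpow_add₀ ha0, ← zpow_add₀ ha0, ← hm, add_comm]
  have h4 : (b : ℚ) ^ j * (b : ℚ) ^ β = (b : ℚ) ^ β' * (b : ℚ) ^ n := by
    rw [← zpow_natCast (b : ℚ) β, ← zpow_natCast (b : ℚ) β', ← zpow_natCast (b : ℚ) n,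
      ← zpow_add₀ hb0, ← zpow_add₀ hb0, ← hn, add_comm]
  push_cast
  calc f * (a : ℚ) ^ i * (b : ℚ) ^ j * ((L : ℚ) * (a : ℚ) ^ α * (b : ℚ) ^ β)
      = (f * L) * ((a : ℚ) ^ i * (a : ℚ) ^ α) * ((b : ℚ) ^ j * (b : ℚ) ^ β) := by ring
    _ = (L' : ℚ) * (a : ℚ) ^ α' * (b : ℚ) ^ β' * ((t : ℚ) * (a : ℚ) ^ m * (b : ℚ) ^ n) := by
        rw [h, h3, h4]; ring
-- END ht3

end val

/-- the setting: `M` is a minimal set, the slopes are `f a ^ i b ^ j`; `p ∣ a` and `q ∣ b` are primes -/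
structure T0 (S : Set (Equiv.Perm ℤ)) (M : Set (Ultrafilter ℤ)) (M0 : ℕ) (A : Finset (ℚ × ℚ))
    (F : Finset ℚ) (a b p q L1 L2 : ℕ) : Prop where
  fin : S.Finite
  hCT : Subgroup.closure S ≤ CT
  hd : Data S M0 A
  mnl : Mnl (Subgroup.closure S) M
  a0 : 0 < a
  b0 : 0 < b
  cop : Nat.Coprime a b
  pp : p.Prime
  pa : p ∣ a
  qp : q.Prime
  qb : q ∣ b
  slope : ∀ u ∈ M, ∀ h ∈ Subgroup.closure S, ∃ f ∈ F, ∃ i j : ℤ, sl u h = f * (a : ℚ) ^ i * (b : ℚ) ^ j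
  fpos : ∀ f ∈ F, 0 < f
  L10 : 0 < L1
  L20 : 0 < L2
  l1 : ∀ f ∈ F, ∃ t : ℤ, f * L1 = M0 * t
  l12 : L1 ∣ L2
  l2 : ∀ f ∈ F, ∃ t : ℤ, f * L2 = L1 * t

/-- no element of `H` is affine with a large slope on a class modulo a fixed number which meets `M` -/
def NoBig (S : Set (Equiv.Perm ℤ)) (M : Set (Ultrafilter ℤ)) : Prop :=
  ∀ L : ℕ, 0 < L → ∃ k : ℚ, ∀ x ∈ M, ∀ h ∈ Subgroup.closure S, ∀ (r : ℤ) (σ τ : ℚ), cl r L ∈ x →
    (∀ n ∈ cl r L, ((h n : ℤ) : ℚ) = σ * n + τ) → σ ≤ k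

/-- the setting with ascents at `p`: the valuations of the slopes at `p` are unbounded above at every point -/
structure T1 (S : Set (Equiv.Perm ℤ)) (M : Set (Ultrafilter ℤ)) (M0 : ℕ) (A : Finset (ℚ × ℚ))
    (F : Finset ℚ) (a b p q L1 L2 : ℕ) : Prop extends T0 S M M0 A F a b p q L1 L2 where
  up : ∀ u ∈ M, ∀ C : ℤ, ∃ h ∈ Subgroup.closure S, C ≤ vh p u h
  nb : NoBig S M

variable {S : Set (Equiv.Perm ℤ)} {M : Set (Ultrafilter ℤ)} {M0 : ℕ} {A : Finset (ℚ × ℚ)}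
  {F : Finset ℚ} {a b p q L1 L2 : ℕ}

-- BEGIN ht4
/-- exchange of `a` and `b` -/
theorem T0.swap (R : T0 S M M0 A F a b p q L1 L2) : T0 S M M0 A F b a q p L1 L2 where
  fin := R.fin
  hCT := R.hCT
  hd := R.hd
  mnl := R.mnl
  a0 := R.b0
  b0 := R.a0
  cop := R.cop.symm
  pp := R.qp
  pa := R.qb
  qp := R.pp
  qb := R.pa
  slope := by
    intro u hu h hh
    obtain ⟨f, hf, i, j, hij⟩ := R.slope u hu h hh
    exact ⟨f, hf, j, i, by rw [hij]; ring⟩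
  fpos := R.fpos
  L10 := R.L10
  L20 := R.L20
  l1 := R.l1
  l12 := R.l12
  l2 := R.l2

/-- reading on boxes (as `Lgq.R0.rd`) -/
theorem T0.rd (R : T0 S M M0 A F a b p q L1 L2) {u : Ultrafilter ℤ} (hu : u ∈ M)
    {l : List (Equiv.Perm ℤ)} (hl : Ltr S l) {L α β : ℕ} (hL : L1 ∣ L)
    (h : ∀ l', l' <:+ l → ∀ f ∈ F, ∀ i j : ℤ, sl u l'.prod = f * (a : ℚ) ^ i * (b : ℚ) ^ j →
      -(α : ℤ) ≤ i ∧ -(β : ℤ) ≤ j) : Rd M0 u l (L * a ^ α * b ^ β) := by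
  intro l' hl'
  obtain ⟨f, hf, i, j, hij⟩ := R.slope u hu _ (hl.suffix hl').mem
  obtain ⟨t, ht⟩ := R.l1 f hf
  obtain ⟨h1, h2⟩ := h l' hl' f hf i j hij
  obtain ⟨D, rfl⟩ := hL
  have e1 : f * ((L1 * D : ℕ) : ℚ) = (M0 : ℚ) * ((t * D : ℤ) : ℚ) := by
    push_cast
    linear_combination (D : ℚ) * ht
  obtain ⟨t', ht'⟩ := box2 R.a0 R.b0 e1 (i := i) (j := j) (α := α) (β := β) (α' := 0) (β' := 0)
    (by push_cast; omega) (by push_cast; omega)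
  refine ⟨t', ?_⟩
  rw [hij, ht']
  simp

/-- an element which is trivial near `u` is trivial on a box (as `Lgq.R1.box`) -/
theorem T0.box (R : T0 S M M0 A F a b p q L1 L2) {u : Ultrafilter ℤ} (hu : u ∈ M) {f : Equiv.Perm ℤ}
    (hf : f ∈ Subgroup.closure S) : ∃ α β : ℕ, ∀ r : ℤ, cl r (L1 * a ^ α * b ^ β) ∈ u →
      ∀ n ∈ cl r (L1 * a ^ α * b ^ β), ((f n : ℤ) : ℚ) = sl u f * n + tr u f := by
  obtain ⟨C, hC⟩ := letter_vh R.hd p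
  obtain ⟨C', hC'⟩ := letter_vh R.hd q
  obtain ⟨l, hl, rfl⟩ := list_of_closure hf
  have hl : Ltr S l := hl
  have hw := fun (l' : List (Equiv.Perm ℤ)) (h : l' <:+ l) =>
    word_vh R.pp R.hCT hC u l' (hl.suffix h) h.length_le
  have hw' := fun (l' : List (Equiv.Perm ℤ)) (h : l' <:+ l) =>
    word_vh R.qp R.hCT hC' u l' (hl.suffix h) h.length_le
  obtain ⟨α, hα⟩ := lowa (F := F) R.pp R.pa R.a0 R.b0 R.cop R.fpos ((C : ℤ) * l.length)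
  obtain ⟨β, hβ⟩ := lowb (F := F) R.qp R.qb R.a0 R.b0 R.cop R.fpos ((C' : ℤ) * l.length)
  refine ⟨α, β, fun r hr => ?_⟩
  refine rd_aff R.hd R.hCT hl hr (R.rd hu hl dvd_rfl ?_)
  intro l' hl' f hf i j hij
  have h1 := hw l' hl'
  have h2 := hw' l' hl'
  unfold vh at h1 h2
  rw [hij] at h1 h2
  exact ⟨hα f hf i j (abs_le.1 h1).1, hβ f hf i j (abs_le.1 h2).1⟩
-- END ht4

end Pool.Agent.Gr2
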