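import Pool.Agent.Gr2.Stp

/-!
# Recurrence with two exponents
-/

namespace Pool.Agent.Gr2

open Pool.Agent.CTm Pool.Agent.Grm Pool.Agent.Lgp Filter Nat Topology

variable {S : Set (Equiv.Perm ℤ)} {M : Set (Ultrafilter ℤ)} {M0 : ℕ} {A : Finset (ℚ × ℚ)}
  {F : Finset ℚ} {a b p q L1 L2 : ℕ}

/-- arbitrarily long Markov returns -/
def Rec2 (S : Set (Equiv.Perm ℤ)) (a b N : ℕ) (ρ : ℤ) (u : Ultrafilter ℤ) : Prop :=
  ∀ κ0 : ℕ, ∃ κ κ' : ℕ, κ0 ≤ κ ∧ κ0 ≤ κ' ∧ ∃ g ∈ Subgroup.closure S, ∃ r r' : ℤ,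
    Mk N (a ^ κ) (b ^ κ') ρ g r r' ∧ cl r (N * b ^ κ') ∈ u

-- BEGIN rc1
/-- the times of new minima -/
theorem exists_min_times (ψ : ℕ → ℤ) (h : ∀ k : ℕ, ∃ t, ψ t ≤ -(k : ℤ)) :
    {t : ℕ | ∀ s, s ≤ t → ψ t ≤ ψ s}.Infinite := by
  rw [Set.infinite_iff_exists_gt]
  intro N
  -- a lower bound of `ψ` on `[0, N]`
  obtain ⟨m, hm⟩ : ∃ m : ℤ, ∀ s, s ≤ N → m < ψ s := by
    induction N with
    | zero =>
      refine ⟨ψ 0 - 1, fun s hs => ?_⟩
      obtain rfl : s = 0 := by omega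
      omega
    | succ N ih =>
      obtain ⟨m, hm⟩ := ih
      refine ⟨min m (ψ (N + 1) - 1), fun s hs => ?_⟩
      rcases Nat.lt_or_ge N s with h1 | h1
      · obtain rfl : s = N + 1 := by omega
        have := min_le_right m (ψ (N + 1) - 1)
        omega
      · have := min_le_left m (ψ (N + 1) - 1)
        have := hm s h1
        omega
  have hex : ∃ t, ψ t ≤ m := by
    obtain ⟨t, ht⟩ := h (-m).toNat
    refine ⟨t, ?_⟩
    have := Int.self_le_toNat (-m)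
    omega
  classical
  refine ⟨Nat.find hex, fun s hs => ?_, ?_⟩
  · have h1 := Nat.find_spec hex
    rcases Nat.lt_or_ge s (Nat.find hex) with h2 | h2
    · have := Nat.find_min hex h2
      omega
    · obtain rfl : s = Nat.find hex := le_antisymm hs h2
      exact le_rfl
  · by_contra hcon
    have h1 := Nat.find_spec hex
    have h2 := hm (Nat.find hex) (by omega)
    omega

/-- along an infinite set of times of new minima the sequence tends to `-∞` -/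
theorem min_times_fall {ψ : ℕ → ℤ} (h : ∀ k : ℕ, ∃ t, ψ t ≤ -(k : ℤ)) {I : Set ℕ} (hI : I.Infinite)
    (hI' : ∀ t ∈ I, ∀ s, s ≤ t → ψ t ≤ ψ s) (i m : ℕ) (k : ℤ) : ∃ j ∈ I, i + m ≤ j ∧ i < j ∧ ψ j ≤ k := by
  obtain ⟨t, ht⟩ := h (-k).toNat
  obtain ⟨j, hj, hj'⟩ := hI.exists_gt (t + i + m)
  refine ⟨j, hj, by omega, by omega, ?_⟩
  have h1 := hI' j hj t (by omega)
  have := Int.self_le_toNat (-k)
  omega
-- END rc1

-- BEGIN rc2
/-- a word with exact slope `a ^ κ / b ^ κ'` which is low at `p` and lowest at `q` at its end, from a class to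
itself, is a Markov map (as `Lgq.R1.mk_of_word`) -/
theorem T0.mk_of_word (R : T0 S M M0 A F a b p q L1 L2) {y : Ultrafilter ℤ} (hy : y ∈ M)
    {l : List (Equiv.Perm ℤ)} (hl : Ltr S l) {c₁ c₂ : ℤ} (hU : LoW p c₁ y l)
    (hV : ∀ l', l' <:+ l → vh q y l.prod - c₂ ≤ vh q y l'.prod) {α β : ℕ}
    (hα : ∀ f ∈ F, ∀ i j : ℤ, -c₁ ≤ padicValRat p (f * (a : ℚ) ^ i * (b : ℚ) ^ j) → -(α : ℤ) ≤ i)
    (hβ : ∀ f ∈ F, ∀ i j : ℤ, -c₂ ≤ padicValRat q (f * (a : ℚ) ^ i * (b : ℚ) ^ j) → -(β : ℤ) ≤ j)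
    {c L κ κ' : ℕ} (hcα : α ≤ c) (hcβ : β ≤ c) (hL : L1 ∣ L) (hL0 : 0 < L)
    (hκ : sl y l.prod = (a : ℚ) ^ κ / (b : ℚ) ^ κ') {ρ : ℤ} (h1 : cl ρ (L * a ^ c * b ^ c) ∈ y)
    (h2 : cl ρ (L * a ^ c * b ^ c) ∈ act l.prod y) :
    ∃ r r' : ℤ, Mk (L * a ^ c * b ^ c) (a ^ κ) (b ^ κ') ρ l.prod r r' ∧
      cl r (L * a ^ c * b ^ c * b ^ κ') ∈ y := by
  have ha0 : 0 < a := R.a0
  have ha1 : (a : ℚ) ≠ 0 := by exact_mod_cast R.a0.ne'
  have hb1 : (b : ℚ) ≠ 0 := by exact_mod_cast R.b0.ne'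
  set N : ℕ := L * a ^ c * b ^ c with hN
  have hNκ : N * b ^ κ' = L * a ^ c * b ^ (c + κ') := by rw [hN, pow_add, mul_assoc, mul_assoc]
  have hpos : 0 < N * b ^ κ' :=
    Nat.mul_pos (Nat.mul_pos (Nat.mul_pos hL0 (Nat.pow_pos ha0)) (Nat.pow_pos R.b0)) (Nat.pow_pos R.b0)
  obtain ⟨r, hr⟩ := exists_cl y (N * b ^ κ') hpos
  have hrd : Rd M0 y l (N * b ^ κ') := by
    rw [hNκ]
    refine R.rd hy hl hL ?_
    intro l' hl' f hf i j hij
    have k1 := hU l' hl'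
    have k2 := hV l' hl'
    have hf0 : f ≠ 0 := (R.fpos f hf).ne'
    unfold vh at k1 k2
    rw [hij] at k1
    have k3 := hα f hf i j k1
    have k4 : -c₂ ≤ padicValRat q (f * (a : ℚ) ^ (i - κ) * (b : ℚ) ^ (j + κ')) := by
      have hq := Fact.mk R.qp
      have e0 : f * (a : ℚ) ^ (i - κ) * (b : ℚ) ^ (j + κ') = sl y l'.prod / sl y l.prod := by
        rw [hij, hκ, zpow_sub₀ ha1, zpow_add₀ hb1, zpow_natCast, zpow_natCast]
        field_simp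
      have h1 : sl y l'.prod ≠ 0 := by
        rw [hij]
        exact mul_ne_zero (mul_ne_zero hf0 (zpow_ne_zero _ ha1)) (zpow_ne_zero _ hb1)
      have h2 : sl y l.prod ≠ 0 := by
        rw [hκ]
        exact div_ne_zero (pow_ne_zero _ ha1) (pow_ne_zero _ hb1)
      rw [e0, padicValRat.div h1 h2]
      linarith
    have k5 := hβ f hf _ _ k4
    push_cast
    constructor
    · omega
    · omega
  have hd := rd_diff R.hd R.hCT hl hr hrd
  have hr1 : r ∈ cl ρ N := cl_mem_sub h1 hr (Dvd.intro _ rfl) (cl_self _ _)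
  have h3 : ∀ t : ℤ, l.prod (r + (N : ℤ) * (b ^ κ' : ℕ) * t) = l.prod r + (N : ℤ) * (a ^ κ : ℕ) * t := by
    intro t
    have e1 := hd (r + (N : ℤ) * (b ^ κ' : ℕ) * t) (mem_cl_mul.2 ⟨t, rfl⟩) r (cl_self _ _)
    rw [hκ] at e1
    have e2 : ((l.prod (r + (N : ℤ) * (b ^ κ' : ℕ) * t) : ℤ) : ℚ) =
        ((l.prod r + (N : ℤ) * (a ^ κ : ℕ) * t : ℤ) : ℚ) := by
      push_cast at e1 ⊢
      have e3 : (a : ℚ) ^ κ / (b : ℚ) ^ κ' * ((r : ℚ) + (N : ℚ) * (b : ℚ) ^ κ' * t - r) =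
          N * (a : ℚ) ^ κ * t := by
        field_simp
        ring
      linear_combination e1 + e3
    exact_mod_cast e2
  refine ⟨r, l.prod r, ⟨hr1, ?_, h3⟩, hr⟩
  obtain ⟨n, hn1, hn2⟩ := Lgp.nonempty_of_mem (inter_mem hr (mem_act.1 h2))
  obtain ⟨t, rfl⟩ := mem_cl_mul.1 hn1
  have e1 : (N : ℤ) ∣ l.prod (r + (N : ℤ) * (b ^ κ' : ℕ) * t) - ρ := hn2
  rw [h3 t] at e1
  have e2 : l.prod r + (N : ℤ) * (a ^ κ : ℕ) * t - ρ = (l.prod r - ρ) + N * ((a ^ κ : ℕ) * t) := by ring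
  rw [e2] at e1
  exact (dvd_add_left (Dvd.intro _ rfl)).1 e1
-- END rc2

-- BEGIN rc3
private theorem rc3_suffix (st : Ultrafilter ℤ → List (Equiv.Perm ℤ)) (x : Ultrafilter ℤ) (d : ℕ)
    {l' : List (Equiv.Perm ℤ)} (h : l' <:+ pW st x d) :
    ∃ s, s ≤ d ∧ ∃ l'', l'' <:+ st (px st x s) ∧ l' = l'' ++ pW st x s := by
  induction d with
  | zero =>
    change l' <:+ [] at h
    rw [List.suffix_nil.1 h]
    exact ⟨0, le_rfl, [], List.nil_suffix, rfl⟩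
  | succ d ih =>
    change l' <:+ st (px st x d) ++ pW st x d at h
    rcases suffix_app h with h3 | ⟨y, hy, rfl⟩
    · obtain ⟨s, hs, l'', h1, h2⟩ := ih h3
      exact ⟨s, by omega, l'', h1, h2⟩
    · exact ⟨d, by omega, y, hy, rfl⟩

private theorem rc3_add {q : ℕ} (hq : q.Prime) (hCT : Subgroup.closure S ≤ CT)
    (hM : Mnl (Subgroup.closure S) M) {st : Ultrafilter ℤ → List (Equiv.Perm ℤ)}
    (hst : ∀ x ∈ M, Ltr S (st x)) {x : Ultrafilter ℤ} (hx : x ∈ M) (i d : ℕ) :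
    vh q x (pW st x (i + d)).prod =
      vh q (px st x i) (pW st (px st x i) d).prod + vh q x (pW st x i).prod := by
  have h1 := pW_ltr hM hst (px_mem hM hst hx i) d
  have h2 := pW_ltr hM hst hx i
  rw [← pW_add, vh_mul hq (hCT h1.mem) (hCT h2.mem), act_pW]

private theorem rc3_low (hp : p.Prime) (hCT : Subgroup.closure S ≤ CT)
    (hM : Mnl (Subgroup.closure S) M) {st : Ultrafilter ℤ → List (Equiv.Perm ℤ)}
    (hst : ∀ x ∈ M, Ltr S (st x)) {c : ℤ} (hc : 0 ≤ c) (hlow : ∀ x ∈ M, LoW p c x (st x))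
    (hone : ∀ x ∈ M, 1 ≤ vh p x (st x).prod) {x : Ultrafilter ℤ} (hx : x ∈ M) (d : ℕ) :
    LoW p c x (pW st x d) ∧ (d : ℤ) ≤ vh p x (pW st x d).prod := by
  induction d with
  | zero =>
    refine ⟨fun p' hp' => ?_, ?_⟩
    · change p' <:+ [] at hp'
      rw [List.suffix_nil.1 hp', List.prod_nil, vh_one]
      omega
    · change ((0 : ℕ) : ℤ) ≤ vh p x ([] : List (Equiv.Perm ℤ)).prod
      rw [List.prod_nil, vh_one]
      simp
  | succ d ih =>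
    obtain ⟨i1, i2⟩ := ih
    have hy := px_mem hM hst hx d
    have hl := hst _ hy
    have hl' := pW_ltr hM hst hx d
    refine ⟨fun p' hp' => ?_, ?_⟩
    · change p' <:+ st (px st x d) ++ pW st x d at hp'
      rcases suffix_app hp' with h3 | ⟨y, hy', rfl⟩
      · exact i1 p' h3
      · rw [List.prod_append, vh_mul hp (hCT (hl.suffix hy').mem) (hCT hl'.mem), act_pW]
        have h4 := hlow _ hy y hy'
        omega
    · change _ ≤ vh p x (st (px st x d) ++ pW st x d).prod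
      rw [List.prod_append, vh_mul hp (hCT hl.mem) (hCT hl'.mem), act_pW]
      have h4 := hone _ hy
      push_cast
      omega

private theorem rc3_pigeon {α : Type*} [Finite α] (F : ℕ → α) {J : Set ℕ} (hJ : J.Infinite) :
    ∃ y, {i | i ∈ J ∧ F i = y}.Infinite := by
  have : Infinite J := hJ.to_subtype
  obtain ⟨y, hy⟩ := Finite.exists_infinite_fiber (fun i : J => F i)
  refine ⟨y, ?_⟩
  rw [Set.infinite_coe_iff] at hy
  have h1 := hy.image (f := (Subtype.val : J → ℕ)) (Subtype.val_injective.injOn)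
  refine h1.mono ?_
  rintro _ ⟨i, hi, rfl⟩
  exact ⟨i.2, hi⟩

/-- recurrent points exist (as `Lgq.R1.exists_rec`; the times are times of new minima of the valuation at `q`) -/
theorem T1.exists_rec (R : T1 S M M0 A F a b p q L1 L2) : ∃ c0 : ℕ, ∀ c, c0 ≤ c → ∀ L, L1 ∣ L → 0 < L →
    ∀ x ∈ M, ∃ h ∈ Subgroup.closure S, ∃ ρ : ℤ, Rec2 S a b (L * a ^ c * b ^ c) ρ (act h x) ∧
      ∃ (κ κ' : ℕ) (g : Equiv.Perm ℤ) (r r' : ℤ), 1 ≤ κ ∧ 1 ≤ κ' ∧ g ∈ Subgroup.closure S ∧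
        Mk (L * a ^ c * b ^ c) (a ^ κ) (b ^ κ') ρ g r r' ∧
        cl r (L * a ^ c * b ^ c * b ^ κ') ∈ act h x ∧
        Rec2 S a b (L * a ^ c * b ^ c) ρ (act g (act h x)) := by
  classical
  obtain ⟨c1, n0, hc1, hA⟩ := exists_asc R.pp R.hCT R.hd R.mnl R.up
  obtain ⟨C, hC⟩ := letter_vh R.hd q
  obtain ⟨α, hα⟩ := lowa R.pp R.pa R.a0 R.b0 R.cop R.fpos c1
  obtain ⟨β, hβ⟩ := lowb R.qp R.qb R.a0 R.b0 R.cop R.fpos ((C * n0 : ℕ) : ℤ)
  refine ⟨max α β, fun c hc L hL hL0 x hx => ?_⟩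
  have ha0 : (a : ℚ) ≠ 0 := by exact_mod_cast R.a0.ne'
  have hb0 : (b : ℚ) ≠ 0 := by exact_mod_cast R.b0.ne'
  set N : ℕ := L * a ^ c * b ^ c with hN
  have hNp : 0 < N := Nat.mul_pos (Nat.mul_pos hL0 (Nat.pow_pos R.a0)) (Nat.pow_pos R.b0)
  have hA1 : ∀ x ∈ M, ∃ l, Ltr S l ∧ l.length ≤ n0 ∧ 1 ≤ vh p x l.prod ∧ LoW p c1 x l := by
    intro x hx
    obtain ⟨l, h1, h2, h3, h4⟩ := hA 1 x hx
    exact ⟨l, h1, by simpa using h2, by simpa using h3, h4⟩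
  choose! st hst hlen hone hlow using hA1
  have hpx : ∀ i, px st x i ∈ M := px_mem R.mnl hst hx
  have hres : ∀ i, ∃ r : ℤ, cl r N ∈ px st x i := fun i => exists_cl _ N hNp
  choose res hres using hres
  have hsl : ∀ i, ∃ f : F, ∃ k m : ℤ, sl x (pW st x i).prod = (f : ℚ) * (a : ℚ) ^ k * (b : ℚ) ^ m := by
    intro i
    obtain ⟨f, hf, k, m, hk⟩ := R.slope x hx _ (pW_ltr R.mnl hst hx i).mem
    exact ⟨⟨f, hf⟩, k, m, hk⟩
  choose ff kk mm hfk using hsl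
  set ψ : ℕ → ℤ := fun t => vh q x (pW st x t).prod with hψ
  have hfall : ∀ k : ℕ, ∃ t, ψ t ≤ -(k : ℤ) := fun k => R.fall hst hlen hlow hone hx k
  have hJ := exists_min_times ψ hfall
  have : NeZero N := ⟨hNp.ne'⟩
  obtain ⟨⟨q', f⟩, hq⟩ := rc3_pigeon (fun i : ℕ => (((res i : ℤ) : ZMod N), ff i)) hJ
  set I : Set ℕ := {i | i ∈ {t : ℕ | ∀ s, s ≤ t → ψ t ≤ ψ s} ∧ (((res i : ℤ) : ZMod N), ff i) = (q', f)} with hI
  obtain ⟨ρ, rfl⟩ := ZMod.intCast_surjective q'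
  have hImin : ∀ t ∈ I, ∀ s, s ≤ t → ψ t ≤ ψ s := fun t ht => ht.1
  have hIcl : ∀ i ∈ I, cl ρ N ∈ px st x i := by
    intro i hi
    have h1 : (((res i : ℤ) : ZMod N), ff i) = ((ρ : ZMod N), f) := hi.2
    have h2 := (Prod.ext_iff.1 h1).1
    have h3 : res i ∈ cl ρ N := by
      rw [mem_cl, ← ZMod.intCast_zmod_eq_zero_iff_dvd, Int.cast_sub]
      simp only at h2
      rw [h2, sub_self]
    rw [← cl_eq h3]
    exact hres i
  have hIf : ∀ i ∈ I, ff i = f := by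
    intro i hi
    have h1 : (((res i : ℤ) : ZMod N), ff i) = ((ρ : ZMod N), f) := hi.2
    exact (Prod.ext_iff.1 h1).2
  -- the return from `i` to `j`
  have key : ∀ i ∈ I, ∀ κ0 : ℕ, ∃ j ∈ I, i < j ∧ ∃ κ κ' : ℕ, κ0 ≤ κ ∧ κ0 ≤ κ' ∧ ∃ r r' : ℤ,
      Mk N (a ^ κ) (b ^ κ') ρ (pW st (px st x i) (j - i)).prod r r' ∧ cl r (N * b ^ κ') ∈ px st x i ∧
        act (pW st (px st x i) (j - i)).prod (px st x i) = px st x j := by
    intro i hi κ0
    obtain ⟨j, hj, hij, hij', hψj⟩ := min_times_fall hfall hq hImin i (κ0 * padicValNat p a)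
      (ψ i - κ0 * padicValNat q b)
    have e0 : act (pW st (px st x i) (j - i)).prod (px st x i) = px st x j := by
      rw [act_pW, ← px_add]
      congr 1
      omega
    have hl := pW_ltr R.mnl hst (hpx i) (j - i)
    have hli := pW_ltr R.mnl hst hx i
    obtain ⟨h1, h2⟩ := rc3_low R.pp R.hCT R.mnl hst hc1 hlow hone (hpx i) (j - i)
    have e1 : sl x (pW st x j).prod =
        sl (px st x i) (pW st (px st x i) (j - i)).prod * sl x (pW st x i).prod := by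
      have e2 : i + (j - i) = j := by omega
      conv_lhs => rw [← e2]
      rw [← pW_add, sl_mul (R.hCT hl.mem) (R.hCT hli.mem), act_pW]
    have hfpos : (0 : ℚ) < f := R.fpos f f.2
    have e3 : sl (px st x i) (pW st (px st x i) (j - i)).prod =
        1 * (a : ℚ) ^ (kk j - kk i) * (b : ℚ) ^ (mm j - mm i) := by
      rw [hfk j, hfk i, hIf i hi, hIf j hj] at e1
      rw [zpow_sub₀ ha0, zpow_sub₀ hb0]
      have hak := zpow_ne_zero (kk i) ha0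
      have hbk := zpow_ne_zero (mm i) hb0
      field_simp
      have e4 : (f : ℚ) * ((a : ℚ) ^ kk j * (b : ℚ) ^ mm j) =
          f * (sl (px st x i) (pW st (px st x i) (j - i)).prod * (a : ℚ) ^ kk i * (b : ℚ) ^ mm i) := by
        linear_combination e1
      have e5 := mul_left_cancel₀ hfpos.ne' e4
      linear_combination -e5
    have hvp := val_a R.pp R.pa R.a0 R.b0 R.cop (one_pos : (0 : ℚ) < 1) (kk j - kk i) (mm j - mm i)
    have hvq := val_b R.qp R.qb R.a0 R.b0 R.cop (one_pos : (0 : ℚ) < 1) (kk j - kk i) (mm j - mm i)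
    rw [← e3] at hvp hvq
    obtain ⟨hvp, hva⟩ := hvp
    obtain ⟨hvq, hvb⟩ := hvq
    rw [padicValRat.one, zero_add] at hvp hvq
    have hψd : ψ j = vh q (px st x i) (pW st (px st x i) (j - i)).prod + ψ i := by
      have e2 : i + (j - i) = j := by omega
      have := rc3_add R.qp R.hCT R.mnl hst hx i (j - i)
      rw [e2] at this
      exact this
    have hka : (κ0 : ℤ) ≤ kk j - kk i := by
      by_contra hlt
      change padicValRat p _ = _ at hvp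
      unfold vh at h2
      rw [hvp] at h2
      have h3 : (κ0 * padicValNat p a : ℕ) ≤ j - i := by omega
      have h4 : ((κ0 * padicValNat p a : ℕ) : ℤ) ≤ ((j - i : ℕ) : ℤ) := by exact_mod_cast h3
      have h5 : (1 : ℤ) ≤ (padicValNat p a : ℤ) := by exact_mod_cast hva
      rw [Nat.cast_mul] at h4
      have h6 : kk j - kk i + 1 ≤ κ0 := by omega
      have h7 := mul_le_mul_of_nonneg_right h6 (by omega : (0 : ℤ) ≤ (padicValNat p a : ℤ))
      linarith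
    have hkb : (κ0 : ℤ) ≤ mm i - mm j := by
      by_contra hlt
      unfold vh at hψd
      rw [hvq] at hψd
      have h5 : (1 : ℤ) ≤ (padicValNat q b : ℤ) := by exact_mod_cast hvb
      have h6 : mm i - mm j + 1 ≤ κ0 := by omega
      have h7 := mul_le_mul_of_nonneg_right h6 (by omega : (0 : ℤ) ≤ (padicValNat q b : ℤ))
      have h8 : ψ j ≤ ψ i - κ0 * (padicValNat q b : ℤ) := hψj
      rw [hψd] at h8
      linarith
    obtain ⟨κ, hκ⟩ : ∃ κ : ℕ, kk j - kk i = κ := ⟨(kk j - kk i).toNat, by omega⟩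
    obtain ⟨κ', hκ'⟩ : ∃ κ' : ℕ, mm j - mm i = -(κ' : ℤ) := ⟨(mm i - mm j).toNat, by omega⟩
    have e6 : sl (px st x i) (pW st (px st x i) (j - i)).prod = (a : ℚ) ^ κ / (b : ℚ) ^ κ' := by
      rw [e3, hκ, hκ', zpow_natCast, zpow_neg, zpow_natCast, one_mul, div_eq_mul_inv]
    have hV : ∀ l', l' <:+ pW st (px st x i) (j - i) →
        vh q (px st x i) (pW st (px st x i) (j - i)).prod - ((C * n0 : ℕ) : ℤ) ≤ vh q (px st x i) l'.prod := by
      intro l' hl'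
      obtain ⟨s, hs, l'', h3, rfl⟩ := rc3_suffix st (px st x i) (j - i) hl'
      have hy := px_mem R.mnl hst (hpx i) s
      have h4 := (hst _ hy).suffix h3
      have h5 := pW_ltr R.mnl hst (hpx i) s
      rw [List.prod_append, vh_mul R.qp (R.hCT h4.mem) (R.hCT h5.mem), act_pW]
      have h6 := word_vh R.qp R.hCT hC (px st (px st x i) s) l'' h4 (h3.length_le.trans (hlen _ hy))
      have h7 := hImin j hj (i + s) (by omega)
      have h8 : ψ (i + s) = vh q (px st x i) (pW st (px st x i) s).prod + ψ i :=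
        rc3_add R.qp R.hCT R.mnl hst hx i s
      rw [abs_le] at h6
      push_cast
      omega
    obtain ⟨r, r', h5, h6⟩ := R.toT0.mk_of_word (hpx i) hl h1 hV hα hβ
      ((le_max_left _ _).trans hc) ((le_max_right _ _).trans hc) hL hL0 e6 (hIcl i hi)
      (by rw [e0]; exact hIcl j hj)
    exact ⟨j, hj, hij', κ, κ', by omega, by omega, r, r', h5, h6, e0⟩
  have hrec : ∀ i ∈ I, Rec2 S a b N ρ (px st x i) := by
    intro i hi κ0
    obtain ⟨j, _, _, κ, κ', hκ, hκ', r, r', h1, h2, _⟩ := key i hi κ0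
    exact ⟨κ, κ', hκ, hκ', _, (pW_ltr R.mnl hst (hpx i) (j - i)).mem, r, r', h1, h2⟩
  obtain ⟨i, hi⟩ := hq.nonempty
  obtain ⟨j, hj, _, κ, κ', hκ, hκ', r, r', h1, h2, h3⟩ := key i hi 1
  refine ⟨(pW st x i).prod, (pW_ltr R.mnl hst hx i).mem, ρ, ?_, κ, κ', _, r, r', hκ, hκ',
    (pW_ltr R.mnl hst (hpx i) (j - i)).mem, h1, ?_, ?_⟩
  · rw [act_pW]
    exact hrec i hi
  · rw [act_pW]
    exact h2
  · rw [act_pW, h3]
    exact hrec j hj
-- END rc3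

-- BEGIN lx1
/-- the kernels at recurrent points of the same class agree (as `Lgq.R1.lemX`) -/
theorem T1.lemX (R : T1 S M M0 A F a b p q L1 L2) (hexp : NoExp S) : ∃ c0 : ℕ, ∀ c, c0 ≤ c →
    ∀ L, L2 ∣ L → 0 < L → ∀ u ∈ M, ∀ v ∈ M, ∀ ρ : ℤ, Rec2 S a b (L * a ^ c * b ^ c) ρ u →
      Rec2 S a b (L * a ^ c * b ^ c) ρ v → ∀ f ∈ Subgroup.closure S, Gm u f (1, 0) →
        Gm v f (1, 0) := by
  obtain ⟨k1, h7⟩ := R.seven hexp
  refine ⟨k1, fun c hc L hL hL0 u hu v hv ρ hur hvr f hf hfu => ?_⟩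
  have ha0 : 0 < a := R.a0
  set N : ℕ := L * a ^ c * b ^ c with hN
  have hNp : 0 < N := Nat.mul_pos (Nat.mul_pos hL0 (Nat.pow_pos ha0)) (Nat.pow_pos R.b0)
  obtain ⟨β, hβ⟩ := h7 u hu f hf hfu
  obtain ⟨κ, κb, hκ, hκb, g, hg, r, r', hmk, hru⟩ := hur β
  have hdv : L2 * a ^ k1 * b ^ β ∣ N * b ^ κb := by
    have e : N * b ^ κb = L * a ^ c * b ^ (c + κb) := by rw [hN, pow_add, mul_assoc, mul_assoc]
    rw [e]
    exact mul_dvd_mul (mul_dvd_mul hL (pow_dvd_pow a hc)) (pow_dvd_pow b (by omega))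
  have hD : ∀ n ∈ cl r (N * b ^ κb), f n = n := by
    intro n hn
    have h1 := hβ r (cl_coarse hru hdv)
    exact h1 n (cl_sub (cl_self _ _) hdv hn)
  have hcop : ∀ i j : ℕ, Nat.Coprime (a ^ i) (b ^ j) := fun i j => Nat.Coprime.pow i j R.cop
  obtain ⟨J, x, x', hq1, _, _, hq4⟩ := hmk.milnor R.fin hexp hf hg (hcop κ κb) hD
  obtain ⟨s, Q, hQ, hs1, hs2⟩ := gm_sl (u := v) (R.hCT hf)
  obtain ⟨κ', κb', hκ', hκb', h, hh, t, t', hmk', htv⟩ := hvr Q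
  obtain ⟨y, y', hp1, hp2, hp3, _⟩ := hmk'.comp hq1
    (by rw [← pow_mul]; exact hcop _ _)
  have hR : ∀ n ∈ cl y' (N * (a ^ κ' * (a ^ κ) ^ (J + 1))), f n = n := fun n hn => hq4 n (hp3 hn)
  have hgh : g ^ (J + 1) * h ∈ Subgroup.closure S := mul_mem (pow_mem hg _) hh
  obtain ⟨J', z, z', hz1, _, hz3, hz4⟩ := hp1.inv.milnor R.fin hexp hf (inv_mem hgh) (by
    rw [← pow_mul, ← pow_mul, ← pow_add, ← pow_add]
    exact (hcop _ _).symm) hR
  obtain ⟨n, hn1, hn2⟩ := cl_inter htv hs1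
  have hmeet : ∃ m : ℤ, m ∈ cl z' (N * (b ^ κb' * (b ^ κb) ^ (J + 1)) ^ (J' + 1)) ∧ m ∈ cl s Q := by
    refine crt fun d h1 h2 => ?_
    have e : (b ^ κb' * (b ^ κb) ^ (J + 1)) ^ (J' + 1) = b ^ ((κb' + κb * (J + 1)) * (J' + 1)) := by
      rw [← pow_mul, ← pow_add, ← pow_mul]
    rw [e] at h1
    have h3 : d ∣ N * b ^ Q := dvd_mul_pow R.b0 hQ h1 h2
    have h4 : d ∣ N * b ^ κb' := h3.trans (mul_dvd_mul dvd_rfl (pow_dvd_pow b hκb'))
    have h5 : z' ∈ cl t (N * b ^ κb') := hp2 (hz3 (cl_self _ _))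
    rw [mem_cl] at h5 hn1 hn2
    have h6 := (Int.natCast_dvd_natCast.2 h4).trans (dvd_sub h5 hn1)
    rw [sub_sub_sub_cancel_right] at h6
    have h7 := (Int.natCast_dvd_natCast.2 h2).trans hn2
    have h8 := dvd_add h6 h7
    rwa [sub_add_sub_cancel] at h8
  obtain ⟨m, hm1, hm2⟩ := hmeet
  have hpos : 0 < N * (b ^ κb' * (b ^ κb) ^ (J + 1)) ^ (J' + 1) :=
    Nat.mul_pos hNp (Nat.pow_pos (Nat.mul_pos (Nat.pow_pos R.b0) (Nat.pow_pos (Nat.pow_pos R.b0))))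
  obtain ⟨e1, e2⟩ := id_of_meet hQ hpos hs2 hz4 hm2 hm1
  exact ⟨s, Q, hQ, hs1, fun n hn => by rw [hs2 n hn, e1, e2]⟩
-- END lx1

-- BEGIN lx2
/-- a Markov map is undistorted in the quotient by the kernel at a recurrent point (proof as `Lgq.R1.no_pow`: the
element `f = w⁻¹ * g ^ j` is the identity on the range of a power of a return map (`Mk.milnor`); this class meets the
domain of `g ^ j` (`Mk.pow`), and on the intersection `w = g ^ j` is affine of slope `(a ^ κ / b ^ κ') ^ j`; take for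
`v` the principal ultrafilter of a point `m` of the intersection: `vh p v w = j * κ * v_p(a)`, while
`|vh p v w| ≤ C n` by `word_vh`) -/
theorem T1.undist (R : T1 S M M0 A F a b p q L1 L2) (hexp : NoExp S) : ∃ c0 C : ℕ, ∀ c, c0 ≤ c →
    ∀ L, L2 ∣ L → 0 < L → ∀ u ∈ M, ∀ ρ : ℤ, Rec2 S a b (L * a ^ c * b ^ c) ρ u →
      ∀ (κ κ' : ℕ) (g : Equiv.Perm ℤ) (r r' : ℤ), 1 ≤ κ → g ∈ Subgroup.closure S →
        Mk (L * a ^ c * b ^ c) (a ^ κ) (b ^ κ') ρ g r r' →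
        ∀ (j n : ℕ) (w : Equiv.Perm ℤ), w ∈ ball S n → Gm u (w⁻¹ * g ^ j) (1, 0) → j ≤ C * n := by
  obtain ⟨k1, h7⟩ := R.seven hexp
  obtain ⟨C, hC⟩ := letter_vh R.hd p
  refine ⟨k1, C, fun c hc L hL hL0 u hu ρ hur κ κ' g r r' hκ hg hmk j n w hw hgm => ?_⟩
  rcases Nat.eq_zero_or_pos j with rfl | hj
  · exact Nat.zero_le _
  obtain ⟨j, rfl⟩ : ∃ j', j = j' + 1 := ⟨j - 1, by omega⟩
  have ha0 : 0 < a := R.a0
  have hb0 : 0 < b := R.b0
  set N : ℕ := L * a ^ c * b ^ c with hN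
  have hNp : 0 < N := Nat.mul_pos (Nat.mul_pos hL0 (Nat.pow_pos ha0)) (Nat.pow_pos hb0)
  have hwS : w ∈ Subgroup.closure S := Lgq.ball_mem hw
  have hf : w⁻¹ * g ^ (j + 1) ∈ Subgroup.closure S := mul_mem (inv_mem hwS) (pow_mem hg _)
  obtain ⟨β, hβ⟩ := h7 u hu _ hf hgm
  obtain ⟨κ1, κ1', hκ1, hκ1', g', hg', s, s', hmk', hsu⟩ := hur β
  have hdv : L2 * a ^ k1 * b ^ β ∣ N * b ^ κ1' := by
    have e : N * b ^ κ1' = L * a ^ c * b ^ (c + κ1') := by rw [hN, pow_add, mul_assoc, mul_assoc]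
    rw [e]
    exact mul_dvd_mul (mul_dvd_mul hL (pow_dvd_pow a hc)) (pow_dvd_pow b (by omega))
  have hD : ∀ n ∈ cl s (N * b ^ κ1'), (w⁻¹ * g ^ (j + 1)) n = n := by
    intro n hn
    have h1 := hβ s (cl_coarse hsu hdv)
    exact h1 n (cl_sub (cl_self _ _) hdv hn)
  have hcop : ∀ i j : ℕ, Nat.Coprime (a ^ i) (b ^ j) := fun i j => Nat.Coprime.pow i j R.cop
  obtain ⟨J, x, x', hx1, _, _, hx4⟩ := hmk'.milnor R.fin hexp hf hg' (hcop κ1 κ1') hD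
  obtain ⟨y, y', hy1, _, _, _⟩ := hmk.pow (hcop κ κ') j
  obtain ⟨m, hm1, hm2⟩ :
      ∃ m : ℤ, m ∈ cl x' (N * (a ^ κ1) ^ (J + 1)) ∧ m ∈ cl y (N * (b ^ κ') ^ (j + 1)) := by
    refine crt fun d h1 h2 => ?_
    have h3 : d ∣ N := by
      have h4 := Nat.dvd_gcd h1 h2
      rw [Nat.gcd_mul_left, ← pow_mul, ← pow_mul, (hcop _ _ : Nat.gcd _ _ = 1), mul_one] at h4
      exact h4
    have h5 := dvd_sub hx1.2.1 hy1.1
    rw [sub_sub_sub_cancel_right] at h5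
    exact (Int.natCast_dvd_natCast.2 h3).trans h5
  have hpos1 : 0 < N * (a ^ κ1) ^ (J + 1) := Nat.mul_pos hNp (Nat.pow_pos (Nat.pow_pos ha0))
  have hpos2 : 0 < N * (b ^ κ') ^ (j + 1) := Nat.mul_pos hNp (Nat.pow_pos (Nat.pow_pos hb0))
  -- the germ of `w` at the principal ultrafilter of `m`
  have hgw : Gm (pure m) w (1 * (a : ℚ) ^ ((κ * (j + 1) : ℕ) : ℤ) * (b : ℚ) ^ (-((κ' * (j + 1) : ℕ) : ℤ)),
      y' - 1 * (a : ℚ) ^ ((κ * (j + 1) : ℕ) : ℤ) * (b : ℚ) ^ (-((κ' * (j + 1) : ℕ) : ℤ)) * y) := by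
    refine ⟨m, (N * (a ^ κ1) ^ (J + 1)) * (N * (b ^ κ') ^ (j + 1)), Nat.mul_pos hpos1 hpos2,
      Ultrafilter.mem_pure.2 (cl_self _ _), fun z hz => ?_⟩
    have hz1 : z ∈ cl x' (N * (a ^ κ1) ^ (J + 1)) := cl_sub hm1 (Dvd.intro _ rfl) hz
    have hz2 : z ∈ cl y (N * (b ^ κ') ^ (j + 1)) := cl_sub hm2 (Dvd.intro_left _ rfl) hz
    have e1 : w z = (g ^ (j + 1)) z := by
      have e2 := hx4 z hz1
      rw [Equiv.Perm.mul_apply] at e2
      calc w z = w (w⁻¹ ((g ^ (j + 1)) z)) := by rw [e2]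
        _ = (g ^ (j + 1)) z := w.apply_symm_apply _
    rw [e1]
    obtain ⟨t, rfl⟩ := mem_cl_mul.1 hz2
    have hbq : (b : ℚ) ≠ 0 := by exact_mod_cast hb0.ne'
    rw [hy1.2.2 t, zpow_neg, zpow_natCast, zpow_natCast]
    push_cast
    rw [← pow_mul, ← pow_mul]
    field_simp
    ring
  have hv : vh p (pure m) w = ((κ * (j + 1) : ℕ) : ℤ) * (padicValNat p a : ℤ) := by
    unfold vh
    rw [sl_eq hgw, (val_a R.pp R.pa ha0 hb0 R.cop one_pos _ _).1]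
    simp
  have hv1 : 1 ≤ padicValNat p a := (val_a R.pp R.pa ha0 hb0 R.cop one_pos 0 0).2
  obtain ⟨l, hl1, hl2, hl3⟩ := hw
  have hv2 := word_vh R.pp R.hCT hC (pure m) l hl2 hl1
  rw [hl3, hv] at hv2
  have hv3 := (le_abs_self _).trans hv2
  have hv4 : j + 1 ≤ κ * (j + 1) * padicValNat p a := by
    calc j + 1 = 1 * (j + 1) * 1 := by ring
      _ ≤ κ * (j + 1) * padicValNat p a :=
        Nat.mul_le_mul (Nat.mul_le_mul_right _ hκ) hv1
  have hv5 : ((j + 1 : ℕ) : ℤ) ≤ (C * n : ℤ) := by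
    have h6 : ((j + 1 : ℕ) : ℤ) ≤ ((κ * (j + 1) * padicValNat p a : ℕ) : ℤ) := by exact_mod_cast hv4
    refine h6.trans ?_
    push_cast at hv3 ⊢
    exact hv3
  exact_mod_cast hv5
-- END lx2

-- BEGIN kf1
/-- the kernels take finitely many values on the minimal set (`Lgq.fin_KS`, as in the proof of `Lgq.R1.locAb`) -/
theorem T1.fin_kernels (R : T1 S M M0 A F a b p q L1 L2) (hexp : NoExp S) :
    ∃ (T : Finset (Equiv.Perm ℤ)) (K0 : Subgroup (Equiv.Perm ℤ)), (∀ g ∈ T, g ∈ Subgroup.closure S) ∧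
      ∀ x ∈ M, ∃ g ∈ T, KS (Subgroup.closure S) (act g x) = K0 := by
  classical
  obtain ⟨c0, hc0⟩ := R.exists_rec
  obtain ⟨c1, hc1⟩ := R.lemX hexp
  set c : ℕ := max c0 c1 with hc
  have k0 : c0 ≤ c := le_max_left _ _
  have k1 : c1 ≤ c := le_max_right _ _
  have hX := hc1 c k1 L2 dvd_rfl R.L20
  have hKfin : ∃ K : ℤ → Subgroup (Equiv.Perm ℤ), ∀ x ∈ M, ∃ g ∈ Subgroup.closure S, ∃ ρ : ℤ,
      KS (Subgroup.closure S) (act g x) = K ρ := by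
    refine ⟨fun ρ => if h : ∃ w ∈ M, Rec2 S a b (L2 * a ^ c * b ^ c) ρ w then
      KS (Subgroup.closure S) h.choose else ⊥, fun x hx => ?_⟩
    obtain ⟨h, hh, ρ, hrec, _⟩ := hc0 c k0 L2 R.l12 R.L20 x hx
    refine ⟨h, hh, ρ, ?_⟩
    have hhx := R.mnl.mem hh hx
    have hex : ∃ w ∈ M, Rec2 S a b (L2 * a ^ c * b ^ c) ρ w := ⟨_, hhx, hrec⟩
    simp only [dif_pos hex]
    obtain ⟨hw1, hw2⟩ := hex.choose_spec
    refine le_antisymm ?_ ?_
    · rintro f ⟨hf1, hf2⟩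
      exact ⟨hf1, hX _ hhx _ hw1 ρ hrec hw2 f hf1 hf2⟩
    · rintro f ⟨hf1, hf2⟩
      exact ⟨hf1, hX _ hw1 _ hhx ρ hw2 hrec f hf1 hf2⟩
  obtain ⟨K, hK⟩ := hKfin
  exact Lgq.fin_KS R.fin R.hCT R.mnl K hK
-- END kf1

-- BEGIN kf2
private theorem kf2_congr {H : Subgroup (Equiv.Perm ℤ)} (hH : H ≤ CT) {g : Equiv.Perm ℤ} (hg : g ∈ H)
    {x y : Ultrafilter ℤ} (h : KS H x = KS H y) : KS H (act g x) = KS H (act g y) := by
  ext f
  rw [Lgq.KS_conj hH hg, Lgq.KS_conj hH hg, h]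

/-- the stabiliser of the kernel has finite index -/
theorem exists_norm {H : Subgroup (Equiv.Perm ℤ)} (hH : H ≤ CT) {u : Ultrafilter ℤ}
    {T : Finset (Equiv.Perm ℤ)} (hT : ∀ t ∈ T, t ∈ H)
    (hT' : ∀ h ∈ H, ∃ t ∈ T, KS H (act h u) = KS H (act t u)) :
    ∃ G : Subgroup (Equiv.Perm ℤ), G ≤ H ∧ (G.subgroupOf H).FiniteIndex ∧
      ∀ g, g ∈ G ↔ g ∈ H ∧ KS H (act g u) = KS H u := by
  let G : Subgroup (Equiv.Perm ℤ) :=
    { carrier := {g | g ∈ H ∧ KS H (act g u) = KS H u}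
      mul_mem' := by
        rintro g g' ⟨h1, h2⟩ ⟨h3, h4⟩
        refine ⟨mul_mem h1 h3, ?_⟩
        rw [act_mul, kf2_congr hH h1 h4, h2]
      one_mem' := ⟨one_mem _, by rw [act_one]⟩
      inv_mem' := by
        rintro g ⟨h1, h2⟩
        refine ⟨inv_mem h1, ?_⟩
        have h3 := kf2_congr hH (inv_mem h1) h2
        rw [act_inv] at h3
        exact h3.symm }
  have hG : ∀ g, g ∈ G ↔ g ∈ H ∧ KS H (act g u) = KS H u := fun g => Iff.rfl
  refine ⟨G, fun g hg => ((hG g).1 hg).1, ?_, hG⟩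
  have hsur : Function.Surjective fun t : T =>
      (QuotientGroup.mk (⟨t.1, hT t.1 t.2⟩ : H) : H ⧸ G.subgroupOf H) := by
    intro x
    obtain ⟨h, rfl⟩ := QuotientGroup.mk_surjective x
    obtain ⟨t, ht, h1⟩ := hT' h.1 h.2
    refine ⟨⟨t, ht⟩, ?_⟩
    rw [QuotientGroup.eq, Subgroup.mem_subgroupOf, hG]
    refine ⟨SetLike.coe_mem _, ?_⟩
    have h2 := kf2_congr hH (inv_mem (hT t ht)) h1
    rw [act_inv, ← act_mul] at h2
    exact h2
  have : Finite (H ⧸ G.subgroupOf H) := Finite.of_surjective _ hsur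
  exact Subgroup.finiteIndex_of_finite_quotient
-- END kf2

end Pool.Agent.Gr2
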