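import Pool.Agent.Gr2.Ht

/-!
# Ascents, steps, descents, and the consequences of `NoBig`
-/

namespace Pool.Agent.Gr2

open Pool.Agent.CTm Pool.Agent.Grm Pool.Agent.Lgp Filter Nat Topology

variable {S : Set (Equiv.Perm ℤ)} {M : Set (Ultrafilter ℤ)} {M0 : ℕ} {A : Finset (ℚ × ℚ)}
  {F : Finset ℚ} {a b p q L1 L2 : ℕ}

/-- the valuations at `p` along the word are at least `-c` (the suffixes are the initial parts of the walk) -/
def LoW (p : ℕ) (c : ℤ) (u : Ultrafilter ℤ) (l : List (Equiv.Perm ℤ)) : Prop :=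
  ∀ l', l' <:+ l → -c ≤ vh p u l'.prod

/-- ascents -/
def Asc (p : ℕ) (S : Set (Equiv.Perm ℤ)) (M : Set (Ultrafilter ℤ)) (c : ℤ) (n0 : ℕ) : Prop :=
  0 ≤ c ∧ ∀ n : ℕ, ∀ x ∈ M, ∃ l, Ltr S l ∧ l.length ≤ n0 * n ∧ (n : ℤ) ≤ vh p x l.prod ∧ LoW p c x l

-- BEGIN sp1
/-- compactness (as `Lgq.up_fin`); for `e = 1` an ascent, for `e = -1` a descent -/
theorem vup_fin (hCT : Subgroup.closure S ≤ CT) (hM : Mnl (Subgroup.closure S) M) {e : ℤ}
    (hup : ∀ u ∈ M, ∀ C : ℤ, ∃ h ∈ Subgroup.closure S, C ≤ e * vh p u h) (C : ℤ) :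
    ∃ n : ℕ, ∀ x ∈ M, ∃ l, Ltr S l ∧ l.length ≤ n ∧ C ≤ e * vh p x l.prod := by
  classical
  obtain ⟨T, hT, hT'⟩ := finite_cover hM.closed
    (fun c : List (Equiv.Perm ℤ) × ℤ × ℕ => Ltr S c.1 ∧ ∀ v : Ultrafilter ℤ, cl c.2.1 c.2.2 ∈ v →
      C ≤ e * vh p v c.1.prod)
    (fun c => cl c.2.1 c.2.2) (by
      intro u hu
      obtain ⟨g, hg, h1⟩ := hup u hu C
      obtain ⟨l, hl, rfl⟩ := list_of_closure hg
      obtain ⟨r, Q, _, h2, h3⟩ := vh_loc (p := p) (u := u) (hCT hg)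
      refine ⟨(l, r, Q), ⟨hl, fun v hv => ?_⟩, h2⟩
      change C ≤ e * vh p v l.prod
      rw [h3 v hv]
      exact h1)
  refine ⟨T.sup fun c => c.1.length, fun x hx => ?_⟩
  obtain ⟨c, hc, h1⟩ := hT' x hx
  exact ⟨c.1, (hT c hc).1, Finset.le_sup (f := fun c : List (Equiv.Perm ℤ) × ℤ × ℕ => c.1.length) hc,
    (hT c hc).2 x h1⟩

/-- as `Lgq.exists_asc` -/
theorem exists_asc (hp : p.Prime) (hCT : Subgroup.closure S ≤ CT) (hd : Data S M0 A)
    (hM : Mnl (Subgroup.closure S) M)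
    (hup : ∀ u ∈ M, ∀ C : ℤ, ∃ h ∈ Subgroup.closure S, C ≤ vh p u h) :
    ∃ (c : ℤ) (n0 : ℕ), Asc p S M c n0 := by
  obtain ⟨C, hC⟩ := letter_vh hd p
  obtain ⟨n0, h0⟩ := vup_fin (p := p) (e := 1) hCT hM (by
    intro u hu D
    obtain ⟨h, h1, h2⟩ := hup u hu D
    exact ⟨h, h1, by rwa [one_mul]⟩) 1
  have hw : ∀ (u : Ultrafilter ℤ) (l : List (Equiv.Perm ℤ)), Ltr S l → l.length ≤ n0 →
      |vh p u l.prod| ≤ (C : ℤ) * n0 := fun u l hl hn => word_vh hp hCT hC u l hl hn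
  have hc0 : (0 : ℤ) ≤ (C : ℤ) * n0 := by positivity
  refine ⟨(C : ℤ) * n0, n0, hc0, fun n => ?_⟩
  induction n with
  | zero =>
    intro x hx
    refine ⟨[], by intro x hx; simp at hx, by simp, by rw [List.prod_nil, vh_one]; simp, ?_⟩
    intro l' hl'
    rw [List.suffix_nil.1 hl', List.prod_nil, vh_one]
    linarith
  | succ n ih =>
    intro x hx
    obtain ⟨l', h1, h2, h3, h4⟩ := ih x hx
    obtain ⟨l, k1, k2, k3⟩ := h0 _ (hM.mem h1.mem hx)
    rw [one_mul] at k3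
    refine ⟨l ++ l', k1.append h1, ?_, ?_, ?_⟩
    · rw [List.length_append]
      nlinarith
    · rw [List.prod_append, vh_mul hp (hCT k1.mem) (hCT h1.mem)]
      push_cast
      linarith
    · intro y hy
      rcases suffix_app hy with h5 | ⟨z, hz, rfl⟩
      · exact h4 y h5
      · rw [List.prod_append, vh_mul hp (hCT (k1.suffix hz).mem) (hCT h1.mem)]
        have h6 := (abs_le.1 (hw (act l'.prod x) z (k1.suffix hz) (hz.length_le.trans k2))).1
        have h7 : (0 : ℤ) ≤ n := Int.natCast_nonneg n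
        linarith
-- END sp1

-- BEGIN sp2
/-- a step: an ascent followed by a walk to a given class (as `Lgq.exists_step`) -/
theorem exists_step (hp : p.Prime) (hCT : Subgroup.closure S ≤ CT) (hd : Data S M0 A)
    (hM : Mnl (Subgroup.closure S) M) {c : ℤ} {n0 : ℕ} (hA : Asc p S M c n0) {v : Ultrafilter ℤ}
    (hv : v ∈ M) {r : ℤ} {Q : ℕ} (hr : cl r Q ∈ v) (K : ℤ) :
    ∃ n : ℕ, ∀ x ∈ M, ∃ w, Ltr S w ∧ w.length ≤ n ∧ LoW p c x w ∧
      K ≤ vh p x w.prod ∧ cl r Q ∈ act w.prod x := by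
  obtain ⟨C, hC⟩ := letter_vh hd p
  obtain ⟨hc0, hasc⟩ := hA
  obtain ⟨m, hm⟩ := hit_fin hM hv hr
  have hw : ∀ (u : Ultrafilter ℤ) (l : List (Equiv.Perm ℤ)), Ltr S l → l.length ≤ m →
      |vh p u l.prod| ≤ (C : ℤ) * m := fun u l hl hn => word_vh hp hCT hC u l hl hn
  have hK := Int.self_le_toNat (K + (C : ℤ) * m)
  refine ⟨m + n0 * (K.toNat + C * m), fun x hx => ?_⟩
  obtain ⟨l, h1, h2, h3, h4⟩ := hasc (K.toNat + C * m) x hx
  obtain ⟨g, k1, k2, k3⟩ := hm _ (hM.mem h1.mem hx)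
  have hK1 : K ≤ (K.toNat : ℤ) := Int.self_le_toNat K
  have hK2 : (0 : ℤ) ≤ (K.toNat : ℤ) := Int.natCast_nonneg _
  push_cast at h3
  refine ⟨g ++ l, k1.append h1, ?_, ?_, ?_, ?_⟩
  · rw [List.length_append]
    omega
  · intro p' hp'
    rcases suffix_app hp' with h5 | ⟨y, hy, rfl⟩
    · exact h4 p' h5
    · rw [List.prod_append, vh_mul hp (hCT (k1.suffix hy).mem) (hCT h1.mem)]
      have h6 := (abs_le.1 (hw (act l.prod x) y (k1.suffix hy) (hy.length_le.trans k2))).1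
      linarith
  · rw [List.prod_append, vh_mul hp (hCT k1.mem) (hCT h1.mem)]
    have h6 := (abs_le.1 (hw (act l.prod x) g k1 k2)).1
    linarith
  · rw [List.prod_append, act_mul]
    exact k3
-- END sp2

-- BEGIN sv1
section sv1path

variable {w : Ultrafilter ℤ → List (Equiv.Perm ℤ)} {x : Ultrafilter ℤ}

private theorem sv1_low (hp : p.Prime) (hCT : Subgroup.closure S ≤ CT) (hM : Mnl (Subgroup.closure S) M)
    (hw : ∀ x ∈ M, Ltr S (w x)) {c K : ℤ} (hc : 0 ≤ c) (hK : 0 ≤ K)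
    (h1 : ∀ x ∈ M, LoW p c x (w x)) (h2 : ∀ x ∈ M, K ≤ vh p x (w x).prod)
    (hx : x ∈ M) (d : ℕ) : (∀ p', p' <:+ pW w x d → -c ≤ vh p x p'.prod) ∧
      0 ≤ vh p x (pW w x d).prod ∧ (0 < d → K ≤ vh p x (pW w x d).prod) := by
  induction d with
  | zero =>
    refine ⟨fun p' hp' => ?_, ?_, fun h => absurd h (lt_irrefl _)⟩
    · change p' <:+ [] at hp'
      rw [List.suffix_nil.1 hp', List.prod_nil, vh_one]
      omega
    · change 0 ≤ vh p x ([] : List (Equiv.Perm ℤ)).prod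
      rw [List.prod_nil, vh_one]
  | succ d ih =>
    obtain ⟨i1, i2, _⟩ := ih
    have hy := px_mem hM hw hx d
    have hl := hw _ hy
    have hl' := pW_ltr hM hw hx d
    have e1 : vh p x (pW w x (d + 1)).prod = vh p (px w x d) (w (px w x d)).prod + vh p x (pW w x d).prod := by
      change vh p x (w (px w x d) ++ pW w x d).prod = _
      rw [List.prod_append, vh_mul hp (hCT hl.mem) (hCT hl'.mem), act_pW]
    have e2 : K ≤ vh p x (pW w x (d + 1)).prod := by
      rw [e1]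
      have := h2 _ hy
      omega
    refine ⟨fun p' hp' => ?_, by omega, fun _ => e2⟩
    change p' <:+ w (px w x d) ++ pW w x d at hp'
    rcases suffix_app hp' with h3 | ⟨y, hy', rfl⟩
    · exact i1 p' h3
    · rw [List.prod_append, vh_mul hp (hCT (hl.suffix hy').mem) (hCT hl'.mem), act_pW]
      have h4 := h1 _ hy y hy'
      omega

end sv1path

/-- T7 (as `Lgq.R1.seven`, with the two exponents) -/
theorem T1.seven (R : T1 S M M0 A F a b p q L1 L2) (hexp : NoExp S) : ∃ k1 : ℕ, ∀ u ∈ M,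
    ∀ f ∈ Subgroup.closure S, Gm u f (1, 0) → ∃ β : ℕ, ∀ r : ℤ, cl r (L2 * a ^ k1 * b ^ β) ∈ u →
      ∀ n ∈ cl r (L2 * a ^ k1 * b ^ β), f n = n := by
  classical
  obtain ⟨c, n0, hA⟩ := exists_asc R.pp R.hCT R.hd R.mnl R.up
  obtain ⟨k1, hk1⟩ := lowa R.pp R.pa R.a0 R.b0 R.cop R.fpos c
  refine ⟨k1, fun u hu f hf hfu => ?_⟩
  by_contra hcon
  push Not at hcon
  -- the modulus of `f`
  obtain ⟨Qf, hQf, hfa⟩ := rcwa_of_CT (R.hCT hf)
  obtain ⟨α', β', hbox⟩ := R.toT0.box hu hf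
  have hbox' : ∀ r : ℤ, cl r (L1 * a ^ α' * b ^ β') ∈ u → ∀ n ∈ cl r (L1 * a ^ α' * b ^ β'),
      f n = n := by
    intro r hr n hn
    have h1 := hbox r hr n hn
    rw [sl_eq hfu, tr_eq hfu] at h1
    have h2 : ((f n : ℤ) : ℚ) = n := by rw [h1]; ring
    exact_mod_cast h2
  have ha0 : 0 < a := R.a0
  have hbp : ∀ n : ℕ, 0 < b ^ n := fun n => Nat.pow_pos R.b0
  have hap : ∀ n : ℕ, 0 < a ^ n := fun n => Nat.pow_pos ha0
  set β0 : ℕ := max β' Qf with hβ0
  obtain ⟨rs, hrs, ns, hns, hmove⟩ := hcon β0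
  set Q0 : ℕ := L2 * a ^ (max α' k1) * b ^ β0 with hQ0
  have hQ0p : 0 < Q0 := Nat.mul_pos (Nat.mul_pos R.L20 (hap _)) (hbp _)
  obtain ⟨r0, hr0⟩ := exists_cl u Q0 hQ0p
  have hd1 : L1 * a ^ α' * b ^ β' ∣ Q0 :=
    mul_dvd_mul (mul_dvd_mul R.l12 (pow_dvd_pow a (le_max_left _ _))) (pow_dvd_pow b (le_max_left _ _))
  have hd2 : L2 * a ^ k1 * b ^ β0 ∣ Q0 :=
    mul_dvd_mul (mul_dvd_mul dvd_rfl (pow_dvd_pow a (le_max_right _ _))) dvd_rfl
  have hc1 : cl r0 (L1 * a ^ α' * b ^ β') ∈ u := cl_coarse hr0 hd1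
  have hf0 := hbox' r0 hc1
  have hc2 : cl r0 Q0 ⊆ cl rs (L2 * a ^ k1 * b ^ β0) := cl_mem_sub hrs hr0 hd2
  obtain ⟨K, hK1, hK⟩ := higha R.pp R.pa R.a0 R.b0 R.cop R.fpos α'
  obtain ⟨n1, hstep⟩ := exists_step R.pp R.hCT R.hd R.mnl hA hu hr0 K
  obtain ⟨hc, -⟩ := hA
  choose! w hp1 hp2 hp3 hp4 hp5 using hstep
  obtain ⟨C, hC⟩ := letter_vh R.hd q
  refine path_exp R.fin hexp hf n1 fun m => ?_
  refine ⟨fun i => (pW w u i).prod, fun i => ?_, fun i him => ?_⟩
  · have e1 : (pW w u i).prod * ((pW w u (i + 1)).prod)⁻¹ = ((w (px w u i)).prod)⁻¹ := by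
      change (pW w u i).prod * ((w (px w u i) ++ pW w u i).prod)⁻¹ = _
      rw [List.prod_append]
      group
    rw [e1]
    have hy := px_mem R.mnl hp1 hu i
    exact ball_inv ⟨w (px w u i), hp2 _ hy, hp1 _ hy, rfl⟩
  · have hy := px_mem R.mnl hp1 hu i
    set y := px w u i with hydef
    have hlow := sv1_low R.pp R.hCT R.mnl hp1 hc hK1 hp3 hp4 hy
    have hc0 : ∀ j, cl r0 Q0 ∈ px w u j := by
      intro j
      cases j with
      | zero => exact hr0
      | succ j => exact hp5 _ (px_mem R.mnl hp1 hu j)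
    -- the bound for the exponents of `b`
    obtain ⟨Γ0, hΓ0⟩ := lowb (F := F) R.qp R.qb R.a0 R.b0 R.cop R.fpos ((C : ℤ) * ((n1 * m : ℕ) : ℤ))
    set Γ : ℕ := Γ0 + β0 with hΓ
    set Q1 : ℕ := L2 * a ^ k1 * b ^ Γ with hQ1
    have hQ1p : 0 < Q1 := Nat.mul_pos (Nat.mul_pos R.L20 (hap _)) (hbp _)
    obtain ⟨yi, hyi⟩ := exists_cl y Q1 hQ1p
    have hd3 : L2 * a ^ k1 * b ^ β0 ∣ Q1 := mul_dvd_mul dvd_rfl (pow_dvd_pow b (by omega))
    have hyi2 : yi ∈ cl rs (L2 * a ^ k1 * b ^ β0) := by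
      have h1 : cl rs (L2 * a ^ k1 * b ^ β0) ∈ y := mem_of_superset (hc0 i) hc2
      exact cl_mem_sub h1 hyi hd3 (cl_self _ _)
    -- the moved point
    obtain ⟨n', hn'1, hn'2⟩ : ∃ n : ℤ, n ∈ cl ns Qf ∧ n ∈ cl yi Q1 := by
      refine crt fun d h1 h2 => ?_
      have h3 : d ∣ L2 * a ^ k1 * b ^ Qf := dvd_mul_pow R.b0 hQf h2 h1
      have h4 : d ∣ L2 * a ^ k1 * b ^ β0 := h3.trans (mul_dvd_mul dvd_rfl (pow_dvd_pow b (le_max_right _ _)))
      have h5 := dvd_sub hns hyi2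
      rw [sub_sub_sub_cancel_right] at h5
      exact (Int.natCast_dvd_natCast.2 h4).trans h5
    obtain ⟨σ, τ, hσ, hστ⟩ := hfa ns
    obtain ⟨n, hn1, hn2, hn3⟩ : ∃ n : ℤ, n ∈ cl ns Qf ∧ n ∈ cl yi Q1 ∧ f n ≠ n := by
      by_cases h1 : f n' = n'
      · have hm1 : n' + ((Qf * Q1 : ℕ) : ℤ) ∈ cl ns Qf := by
          rw [← cl_eq hn'1, mem_cl, add_sub_cancel_left]
          exact Int.natCast_dvd_natCast.2 (Dvd.intro _ rfl)
        have hm2 : n' + ((Qf * Q1 : ℕ) : ℤ) ∈ cl yi Q1 := by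
          rw [← cl_eq hn'2, mem_cl, add_sub_cancel_left]
          exact Int.natCast_dvd_natCast.2 (Dvd.intro_left _ rfl)
        refine ⟨_, hm1, hm2, fun h2 => hmove ?_⟩
        have e1 := hστ n' hn'1
        have e2 := hστ _ hm1
        have e3 := hστ ns (by simp)
        rw [h1] at e1
        rw [h2] at e2
        have hpos : (0 : ℚ) < ((Qf * Q1 : ℕ) : ℚ) := by exact_mod_cast Nat.mul_pos hQf hQ1p
        have e4 : (σ - 1) * ((Qf * Q1 : ℕ) : ℚ) = 0 := by
          push_cast at e2 ⊢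
          linear_combination e1 - e2
        have e5 : σ = 1 := by
          rcases mul_eq_zero.1 e4 with h | h
          · linarith
          · exact absurd h hpos.ne'
        rw [e5] at e1 e3
        have e6 : ((f ns : ℤ) : ℚ) = ns := by
          rw [e3]
          linarith
        exact_mod_cast e6
      · exact ⟨n', hn'1, hn'2, h1⟩
    refine ⟨((pW w u i).prod)⁻¹ n, ?_, fun j hij hjm => ?_⟩
    · have e1 : (pW w u i).prod (((pW w u i).prod)⁻¹ n) = n := (pW w u i).prod.apply_symm_apply n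
      rw [e1]
      exact hn3
    · obtain ⟨d, rfl⟩ : ∃ d, j = i + d := ⟨j - i, by omega⟩
      have e1 : (pW w u (i + d)).prod (((pW w u i).prod)⁻¹ n) = (pW w y d).prod n := by
        rw [← pW_add, Equiv.Perm.mul_apply]
        congr 1
        exact (pW w u i).prod.apply_symm_apply n
      rw [e1]
      obtain ⟨l1, l2, l3⟩ := hlow d
      have hltr := pW_ltr R.mnl hp1 hy d
      have hlen := pW_len R.mnl hp1 hp2 hy d
      have hwb : ∀ l', l' <:+ pW w y d → -((C : ℤ) * ((n1 * m : ℕ) : ℤ)) ≤ vh q y l'.prod := by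
        intro l' hl'
        have h2 := word_vh R.qp R.hCT hC y l'
          (hltr.suffix hl') (n := n1 * m) (hl'.length_le.trans (hlen.trans
            (Nat.mul_le_mul_left _ (by omega))))
        exact (abs_le.1 h2).1
      have hrd : Rd M0 y (pW w y d) Q1 := by
        refine R.toT0.rd hy hltr R.l12 ?_
        intro l' hl' g hg k k' hk
        have h1 := l1 l' hl'
        have h2 := hwb l' hl'
        unfold vh at h1 h2
        rw [hk] at h1 h2
        have h3 := hΓ0 g hg k k' h2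
        exact ⟨hk1 g hg k k' h1, by omega⟩
      -- a point of the class of `y` which goes to the class of `u`
      have hmem : cl r0 Q0 ∈ act (pW w y d).prod y := by
        rw [act_pW, hydef, ← px_add]
        exact hc0 _
      obtain ⟨z, hz1, hz2⟩ := Lgp.nonempty_of_mem (inter_mem hyi (mem_act.1 hmem))
      have e2 := rd_diff R.hd R.hCT hltr hyi hrd n hn2 z hz1
      obtain ⟨g, hg, k, k', hk⟩ := R.slope y hy _ hltr.mem
      have h3 := l3 (by omega)
      have h4 := hwb _ (List.suffix_refl _)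
      unfold vh at h3 h4
      rw [hk] at h3 h4
      have h5 := hK g hg k k' h3
      have h6 := hΓ0 g hg k k' h4
      obtain ⟨t, ht⟩ := R.l2 g hg
      obtain ⟨t', ht'⟩ := box2 R.a0 R.b0 ht (i := k) (j := k') (α := k1) (β := Γ) (α' := α') (β' := β')
        (by omega) (by have := le_max_left β' Qf; omega)
      obtain ⟨s, hs⟩ : ∃ s : ℤ, n - z = Q1 * s := by
        have := dvd_sub hn2 hz1
        rwa [sub_sub_sub_cancel_right] at this
      refine hf0 _ ?_
      have hz3 : (pW w y d).prod z ∈ cl r0 (L1 * a ^ α' * b ^ β') :=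
        cl_sub (cl_self _ _) hd1 hz2
      rw [← cl_eq hz3, mem_cl]
      refine ⟨t' * s, ?_⟩
      have e3 : ((((pW w y d).prod n - (pW w y d).prod z : ℤ)) : ℚ) =
          ((((L1 * a ^ α' * b ^ β' : ℕ) : ℤ) * (t' * s) : ℤ) : ℚ) := by
        have hs' : (n : ℚ) - z = Q1 * s := by exact_mod_cast hs
        rw [hk, hs'] at e2
        push_cast at e2 ht' ⊢
        rw [e2]
        rw [hQ1]
        push_cast
        linear_combination (s : ℚ) * ht'
      exact_mod_cast e3
-- END sv1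

-- BEGIN fa1
/-- a word whose valuations at `p` and `q` are bounded below along the way has a bounded valuation at `p`
(it can be read on a class modulo a fixed number) -/
theorem T0.not_big (R : T0 S M M0 A F a b p q L1 L2) (hnb : NoBig S M) (c : ℤ) :
    ∃ K : ℤ, ∀ x ∈ M, ∀ l, Ltr S l → LoW p c x l → LoW q c x l → vh p x l.prod < K := by
  obtain ⟨α, hα⟩ := lowa R.pp R.pa R.a0 R.b0 R.cop R.fpos c
  obtain ⟨β, hβ⟩ := lowb R.qp R.qb R.a0 R.b0 R.cop R.fpos c
  have hL : 0 < L1 * a ^ α * b ^ β :=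
    Nat.mul_pos (Nat.mul_pos R.L10 (Nat.pow_pos R.a0)) (Nat.pow_pos R.b0)
  obtain ⟨k, hk⟩ := hnb _ hL
  obtain ⟨K, hK⟩ := big_ab R.pp R.pa R.a0 R.b0 R.cop R.fpos β k
  refine ⟨K, fun x hx l hl hp hq => ?_⟩
  by_contra hcon
  rw [not_lt] at hcon
  obtain ⟨f, hf, i, j, hij⟩ := R.slope x hx _ hl.mem
  have hq' := hq l List.suffix_rfl
  unfold vh at hcon hq'
  rw [hij] at hcon hq'
  have h1 := hK f hf i j hcon (hβ f hf i j hq')
  obtain ⟨r, hr⟩ := exists_cl x _ hL
  have h2 : Rd M0 x l (L1 * a ^ α * b ^ β) := by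
    refine R.rd hx hl dvd_rfl ?_
    intro l' hl' f' hf' i' j' hk'
    have e1 := hp l' hl'
    have e2 := hq l' hl'
    unfold vh at e1 e2
    rw [hk'] at e1 e2
    exact ⟨hα f' hf' i' j' e1, hβ f' hf' i' j' e2⟩
  have h3 := hk x hx _ hl.mem r _ _ hr (rd_aff R.hd R.hCT hl hr h2)
  rw [hij] at h3
  linarith
-- END fa1

-- BEGIN fa2
/-- the iteration of a step with an ascent at `p`: the valuations at `q` are unbounded below along the walk -/
theorem T1.fall (R : T1 S M M0 A F a b p q L1 L2) {st : Ultrafilter ℤ → List (Equiv.Perm ℤ)} {n0 : ℕ}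
    {c : ℤ} (hst : ∀ x ∈ M, Ltr S (st x)) (hlen : ∀ x ∈ M, (st x).length ≤ n0)
    (hlow : ∀ x ∈ M, LoW p c x (st x)) (hone : ∀ x ∈ M, 1 ≤ vh p x (st x).prod) {x : Ultrafilter ℤ}
    (hx : x ∈ M) (k : ℕ) : ∃ t : ℕ, vh q x (pW st x t).prod ≤ -(k : ℤ) := by
  by_contra hcon
  push Not at hcon
  obtain ⟨C, hC⟩ := letter_vh R.hd q
  obtain ⟨K, hK⟩ := R.toT0.not_big R.nb (max c (k + C * n0))
  have hc0 : 0 ≤ c := by
    have h1 := hlow x hx [] List.nil_suffix
    rw [List.prod_nil, vh_one] at h1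
    linarith
  -- the valuations at `p`
  have hp : ∀ d : ℕ, LoW p c x (pW st x d) ∧ (d : ℤ) ≤ vh p x (pW st x d).prod := by
    intro d
    induction d with
    | zero =>
      refine ⟨fun l' hl' => ?_, ?_⟩
      · change l' <:+ [] at hl'
        rw [List.suffix_nil.1 hl', List.prod_nil, vh_one]
        linarith
      · change ((0 : ℕ) : ℤ) ≤ vh p x ([] : List (Equiv.Perm ℤ)).prod
        rw [List.prod_nil, vh_one]
        simp
    | succ d ih =>
      obtain ⟨i1, i2⟩ := ih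
      have hy := px_mem R.mnl hst hx d
      have hl := hst _ hy
      have hl' := pW_ltr R.mnl hst hx d
      have e0 : (0 : ℤ) ≤ (d : ℤ) := Int.natCast_nonneg d
      refine ⟨fun l' hs => ?_, ?_⟩
      · change l' <:+ st (px st x d) ++ pW st x d at hs
        rcases suffix_app hs with h3 | ⟨y, hy', rfl⟩
        · exact i1 l' h3
        · rw [List.prod_append, vh_mul R.pp (R.hCT (hl.suffix hy').mem) (R.hCT hl'.mem), act_pW]
          have h4 := hlow _ hy y hy'
          linarith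
      · change ((d + 1 : ℕ) : ℤ) ≤ vh p x (st (px st x d) ++ pW st x d).prod
        rw [List.prod_append, vh_mul R.pp (R.hCT hl.mem) (R.hCT hl'.mem), act_pW]
        have h5 := hone _ hy
        push_cast
        linarith
  -- the valuations at `q`
  have hq : ∀ d : ℕ, LoW q (k + C * n0) x (pW st x d) := by
    intro d
    induction d with
    | zero =>
      intro l' hl'
      change l' <:+ [] at hl'
      rw [List.suffix_nil.1 hl', List.prod_nil, vh_one]
      have : (0 : ℤ) ≤ (k : ℤ) + C * n0 := by positivity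
      linarith
    | succ d ih =>
      have hy := px_mem R.mnl hst hx d
      have hl := hst _ hy
      have hl' := pW_ltr R.mnl hst hx d
      intro l' hs
      change l' <:+ st (px st x d) ++ pW st x d at hs
      rcases suffix_app hs with h3 | ⟨y, hy', rfl⟩
      · exact ih l' h3
      · rw [List.prod_append, vh_mul R.qp (R.hCT (hl.suffix hy').mem) (R.hCT hl'.mem), act_pW]
        have h4 := word_vh R.qp R.hCT hC (px st x d) y (hl.suffix hy')
          (hy'.length_le.trans (hlen _ hy))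
        have h5 := (abs_le.1 h4).1
        have h6 := hcon d
        linarith
  obtain ⟨t, ht⟩ : ∃ t : ℕ, K ≤ (t : ℤ) := ⟨K.toNat, Int.self_le_toNat K⟩
  have h7 := hK x hx (pW st x t) (pW_ltr R.mnl hst hx t)
    (fun l' hl' => (neg_le_neg (le_max_left c _)).trans ((hp t).1 l' hl'))
    (fun l' hl' => (neg_le_neg (le_max_right c _)).trans (hq t l' hl'))
  have h8 := (hp t).2
  linarith
-- END fa2

-- BEGIN fa3
/-- the inverse word -/
def irev (l : List (Equiv.Perm ℤ)) : List (Equiv.Perm ℤ) := (l.map (fun x => x⁻¹)).reverse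

theorem irev_ltr {l : List (Equiv.Perm ℤ)} (hl : Ltr S l) : Ltr S (irev l) := by
  intro x hx
  obtain ⟨y, hy, rfl⟩ := List.mem_map.1 (List.mem_reverse.1 hx)
  rcases hl y hy with h | h
  · exact Or.inr (by rwa [inv_inv])
  · exact Or.inl h

theorem irev_prod (l : List (Equiv.Perm ℤ)) : (irev l).prod = (l.prod)⁻¹ :=
  (List.prod_inv_reverse l).symm

/-- the valuations along the inverse word -/
theorem irev_vh (hp : p.Prime) (hCT : Subgroup.closure S ≤ CT) {l : List (Equiv.Perm ℤ)} (hl : Ltr S l)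
    (x : Ultrafilter ℤ) {l' : List (Equiv.Perm ℤ)} (hl' : l' <:+ irev l) :
    ∃ l2, l2 <:+ l ∧ vh p (act l.prod x) l'.prod = vh p x l2.prod - vh p x l.prod := by
  obtain ⟨z, hz⟩ := hl'
  -- `l = l3 ++ l2` with `irev l3 = l'`
  have h1 : irev (irev l) = l := by
    unfold irev
    rw [List.map_reverse, List.reverse_reverse, List.map_map]
    conv_rhs => rw [← List.map_id l]
    exact List.map_congr_left fun y _ => inv_inv y
  have h2 : irev (z ++ l') = irev l' ++ irev z := by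
    unfold irev
    rw [List.map_append, List.reverse_append]
  have h3 : l = irev l' ++ irev z := by rw [← h2, hz, h1]
  refine ⟨irev z, ⟨irev l', h3.symm⟩, ?_⟩
  have hz' : Ltr S (irev z) := hl.suffix ⟨irev l', h3.symm⟩
  have hl'' : Ltr S l' := (irev_ltr hl).suffix ⟨z, hz⟩
  have e1 : l'.prod * l.prod = (irev z).prod := by
    rw [h3, List.prod_append, irev_prod l']
    group
  have e2 := vh_mul (u := x) hp (hCT hl''.mem) (hCT hl.mem)
  rw [e1] at e2
  omega
-- END fa3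

-- BEGIN fa4
private theorem fa4_time (psi : ℕ → ℤ) {B : ℤ} (hB : ∀ t, psi t < B) (W : ℕ) :
    ∃ t, W ≤ t ∧ ∀ s, t - W ≤ s → s ≤ t → psi t ≤ psi s := by
  classical
  rcases Nat.eq_zero_or_pos W with h0 | h0
  · subst h0
    exact ⟨0, le_rfl, fun s _ h2 => by rw [Nat.le_zero.1 h2]⟩
  by_contra hcon
  have hH : ∀ t, W ≤ t → ∃ s, t - W ≤ s ∧ s ≤ t ∧ psi s < psi t := by
    intro t ht
    by_contra h1
    refine hcon ⟨t, ht, fun s h2 h3 => ?_⟩
    by_contra h4
    exact h1 ⟨s, h2, h3, not_le.1 h4⟩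
  obtain ⟨mu, hmu⟩ := (Finset.image psi (Finset.range W)).bddBelow
  have hmu' : ∀ s, s < W → mu ≤ psi s := fun s hs =>
    hmu (Finset.mem_coe.2 (Finset.mem_image_of_mem _ (Finset.mem_range.2 hs)))
  have key : ∀ t : ℕ, (t : ℤ) ≤ W * (psi t - mu) + W := by
    intro t
    induction t using Nat.strong_induction_on with
    | _ t ih =>
      rcases lt_or_ge t W with h1 | h1
      · have h2 := hmu' t h1
        have h3 : (0 : ℤ) ≤ W * (psi t - mu) := mul_nonneg (by positivity) (by linarith)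
        have h4 : (t : ℤ) < W := by exact_mod_cast h1
        linarith
      · obtain ⟨s, h2, h3, h4⟩ := hH t h1
        have h5 : s < t := lt_of_le_of_ne h3 (fun h => by rw [h] at h4; exact lt_irrefl _ h4)
        have h6 := ih s h5
        have h7 : (t : ℤ) ≤ s + W := by
          have : t ≤ s + W := by omega
          exact_mod_cast this
        have h8 : psi s + 1 ≤ psi t := h4
        have hW : (0 : ℤ) < W := by exact_mod_cast h0
        nlinarith
  have h1 := key ((W * (B - mu) + W).toNat + 1)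
  have h2 := hB ((W * (B - mu) + W).toNat + 1)
  have hW : (0 : ℤ) < W := by exact_mod_cast h0
  have h3 : W * (B - mu) + W ≤ (((W * (B - mu) + W).toNat : ℕ) : ℤ) := Int.self_le_toNat _
  push_cast at h1
  nlinarith

private theorem fa4_suf {st : Ultrafilter ℤ → List (Equiv.Perm ℤ)} {x : Ultrafilter ℤ} (d : ℕ)
    {y : List (Equiv.Perm ℤ)} (hy : y <:+ pW st x d) :
    ∃ i ≤ d, ∃ z, z <:+ st (px st x i) ∧ y = z ++ pW st x i := by
  induction d generalizing y with
  | zero =>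
    change y <:+ [] at hy
    refine ⟨0, le_rfl, [], List.nil_suffix, ?_⟩
    rw [List.suffix_nil.1 hy]
    rfl
  | succ d ih =>
    change y <:+ st (px st x d) ++ pW st x d at hy
    rcases suffix_app hy with h3 | ⟨z, hz, rfl⟩
    · obtain ⟨i, hi, z, hz, h4⟩ := ih h3
      exact ⟨i, hi.trans (Nat.le_succ d), z, hz, h4⟩
    · exact ⟨d, Nat.le_succ d, z, hz, rfl⟩

/-- descents at `p` at every point give ascents at `q` at every point (page part 0, L2) -/
theorem T0.down_up (R : T0 S M M0 A F a b p q L1 L2) (hnb : NoBig S M)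
    (hdn : ∀ u ∈ M, ∀ C : ℤ, ∃ h ∈ Subgroup.closure S, vh p u h ≤ C) :
    ∀ u ∈ M, ∀ C : ℤ, ∃ h ∈ Subgroup.closure S, C ≤ vh q u h := by
  classical
  intro u hu C0
  by_contra hcon
  have hC0 : ∀ h ∈ Subgroup.closure S, vh q u h < C0 := by
    intro h hh
    by_contra h1
    exact hcon ⟨h, hh, not_lt.1 h1⟩
  obtain ⟨Cp, hCp⟩ := letter_vh R.hd p
  obtain ⟨Cq, hCq⟩ := letter_vh R.hd q
  obtain ⟨n, hn⟩ := vup_fin (p := p) (e := -1) R.hCT R.mnl (fun v hv C => by
    obtain ⟨h, h1, h2⟩ := hdn v hv (-C)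
    exact ⟨h, h1, by linarith⟩) 1
  choose! st h1 h2 h3 using hn
  obtain ⟨K, hK⟩ := R.not_big hnb (max ((Cp : ℤ) * n) ((Cq : ℤ) * n))
  have hltr : ∀ d, Ltr S (pW st u d) := pW_ltr R.mnl h1 hu
  obtain ⟨t, ht, hmin⟩ := fa4_time (fun t => vh q u (pW st u t).prod)
    (fun t => hC0 _ (hltr t).mem) K.toNat
  obtain ⟨i0, rfl⟩ : ∃ i0, t = i0 + K.toNat := ⟨t - K.toNat, by omega⟩
  have hx : px st u i0 ∈ M := px_mem R.mnl h1 hu i0
  have hltr' : ∀ d, Ltr S (pW st (px st u i0) d) := pW_ltr R.mnl h1 hx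
  have hsplit : ∀ (r : ℕ) (hr : r.Prime) (d : ℕ), vh r (px st u i0) (pW st (px st u i0) d).prod =
      vh r u (pW st u (i0 + d)).prod - vh r u (pW st u i0).prod := by
    intro r hr d
    have h4 := vh_mul (u := u) hr (R.hCT (hltr' d).mem) (R.hCT (hltr i0).mem)
    rw [pW_add, act_pW] at h4
    linarith
  have hstep : ∀ d, vh p (px st u i0) (pW st (px st u i0) (d + 1)).prod + 1 ≤
      vh p (px st u i0) (pW st (px st u i0) d).prod := by
    intro d
    have hd' : px st (px st u i0) d ∈ M := px_mem R.mnl h1 hx d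
    have h4 := vh_mul (u := px st u i0) R.pp (R.hCT (h1 _ hd').mem) (R.hCT (hltr' d).mem)
    rw [act_pW] at h4
    have h5 := h3 _ hd'
    change vh p (px st u i0) (st (px st (px st u i0) d) ++ pW st (px st u i0) d).prod + 1 ≤ _
    rw [List.prod_append, h4]
    linarith
  have hanti : ∀ i j : ℕ, vh p (px st u i0) (pW st (px st u i0) (i + j)).prod + j ≤
      vh p (px st u i0) (pW st (px st u i0) i).prod := by
    intro i j
    induction j with
    | zero => simp
    | succ j ih =>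
      have h4 := hstep (i + j)
      rw [← add_assoc]
      push_cast
      linarith
  have hend : vh p (px st u i0) (pW st (px st u i0) K.toNat).prod ≤ -(K.toNat : ℤ) := by
    have h4 := hanti 0 K.toNat
    have h5 : vh p (px st u i0) (pW st (px st u i0) 0).prod = 0 := by
      change vh p (px st u i0) ([] : List (Equiv.Perm ℤ)).prod = 0
      rw [List.prod_nil]
      exact vh_one
    rw [h5, zero_add] at h4
    linarith
  have hlow : ∀ (r : ℕ) (hr : r.Prime) (c : ℕ), (c : ℤ) ≤ max ((Cp : ℤ) * n) ((Cq : ℤ) * n) →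
      (∀ (u : Ultrafilter ℤ) (l : List (Equiv.Perm ℤ)), Ltr S l → l.length ≤ n →
        -(c : ℤ) ≤ vh r u l.prod) →
      (∀ i, i ≤ K.toNat → vh r (px st u i0) (pW st (px st u i0) K.toNat).prod ≤
        vh r (px st u i0) (pW st (px st u i0) i).prod) →
      LoW r (max ((Cp : ℤ) * n) ((Cq : ℤ) * n))
        (act (pW st (px st u i0) K.toNat).prod (px st u i0)) (irev (pW st (px st u i0) K.toNat)) := by
    intro r hr c hc hw hm l' hl'
    obtain ⟨l2, hl2, h4⟩ := irev_vh hr R.hCT (hltr' _) (px st u i0) hl'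
    obtain ⟨i, hi, z, hz, rfl⟩ := fa4_suf _ hl2
    have hi' : px st (px st u i0) i ∈ M := px_mem R.mnl h1 hx i
    have hzl : Ltr S z := (h1 _ hi').suffix hz
    have h5 := vh_mul (u := px st u i0) hr (R.hCT hzl.mem) (R.hCT (hltr' i).mem)
    rw [act_pW] at h5
    have h6 := hw (px st (px st u i0) i) z hzl (hz.length_le.trans (h2 _ hi'))
    have h7 := hm i hi
    rw [List.prod_append, h5] at h4
    rw [h4]
    linarith
  have hy : act (pW st (px st u i0) K.toNat).prod (px st u i0) ∈ M :=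
    R.mnl.mem (hltr' _).mem hx
  have hfin := hK _ hy (irev (pW st (px st u i0) K.toNat)) (irev_ltr (hltr' _))
    (hlow p R.pp (Cp * n) (by push_cast; exact le_max_left _ _)
      (fun v l hl hn' => by
        have := word_vh R.pp R.hCT hCp v l hl hn'
        push_cast
        exact (abs_le.1 this).1)
      (fun i hi => by
        have h4 := hanti i (K.toNat - i)
        rw [Nat.add_sub_cancel' hi] at h4
        have : (0 : ℤ) ≤ ((K.toNat - i : ℕ) : ℤ) := by positivity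
        linarith))
    (hlow q R.qp (Cq * n) (by push_cast; exact le_max_right _ _)
      (fun v l hl hn' => by
        have := word_vh R.qp R.hCT hCq v l hl hn'
        push_cast
        exact (abs_le.1 this).1)
      (fun i hi => by
        rw [hsplit q R.qp, hsplit q R.qp]
        have h4 := hmin (i0 + i) (by omega) (by omega)
        linarith))
  rw [irev_prod] at hfin
  have h4 := vh_mul (u := px st u i0) R.pp
    (inv_mem (R.hCT (hltr' K.toNat).mem)) (R.hCT (hltr' K.toNat).mem)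
  rw [inv_mul_cancel, vh_one] at h4
  have h5 : K ≤ (K.toNat : ℤ) := Int.self_le_toNat K
  linarith
-- END fa4

end Pool.Agent.Gr2
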